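import Mathlib
import Pool.Agent.H447R2.ML.Spec

set_option autoImplicit false

/-!
# The solutions of `p ^ 2 - 2 r ^ 2 = -1`

The positive solutions, their closed forms, divisibility, and the size of the prime factors of the
terms with prime index.
-/

namespace Pool.Agent.X144.Pell

open Pool.Agent.H447R2.ML (U V)

/-- The positive solutions `(p_k, r_k)` of `p ^ 2 - 2 r ^ 2 = -1`, in increasing order. -/
def sol : ℕ → ℕ × ℕ
  | 0 => (1, 1)
  | k + 1 => (3 * (sol k).1 + 4 * (sol k).2, 2 * (sol k).1 + 3 * (sol k).2)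

lemma sol_zero : sol 0 = (1, 1) := rfl

lemma sol_succ (k : ℕ) : sol (k + 1) =
    (3 * (sol k).1 + 4 * (sol k).2, 2 * (sol k).1 + 3 * (sol k).2) := rfl

lemma sol_eq (k : ℕ) : (sol k).1 ^ 2 + 1 = 2 * (sol k).2 ^ 2 := by
  induction k with
  | zero => rfl
  | succ k ih =>
    rw [sol_succ]
    simp only
    nlinarith

lemma sol_pos (k : ℕ) : 0 < (sol k).1 ∧ 0 < (sol k).2 := by
  induction k with
  | zero => exact ⟨one_pos, one_pos⟩
  | succ k ih =>
    rw [sol_succ]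
    simp only
    omega

/-- All solutions are in the list. -/
lemma exists_sol : ∀ r p : ℕ, p ^ 2 + 1 = 2 * r ^ 2 → ∃ k, sol k = (p, r) := by
  intro r
  induction r using Nat.strong_induction_on with
  | _ r ih =>
    intro p h
    rcases Nat.lt_or_ge r 2 with h2 | h2
    · have hr : r = 0 ∨ r = 1 := by omega
      rcases hr with rfl | rfl
      · omega
      · have : p ^ 2 = 1 := by omega
        have hp : p = 1 := by nlinarith
        exact ⟨0, by rw [hp]; rfl⟩
    · have hr3 : 3 ≤ r := by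
        by_contra hlt
        have : r = 2 := by omega
        subst this
        have h7 : p ^ 2 = 7 := by omega
        have : p < 3 := by nlinarith
        interval_cases p <;> omega
      have h1 : 4 * r < 3 * p := by nlinarith
      have h3 : 2 * p < 3 * r := by nlinarith
      have h4 : r < p := by nlinarith
      obtain ⟨a, ha⟩ : ∃ a, 3 * p = 4 * r + a := ⟨3 * p - 4 * r, by omega⟩
      obtain ⟨b, hb⟩ : ∃ b, 3 * r = 2 * p + b := ⟨3 * r - 2 * p, by omega⟩
      have e1 : p = 3 * a + 4 * b := by omega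
      have e2 : r = 2 * a + 3 * b := by omega
      have h5 : a ^ 2 + 1 = 2 * b ^ 2 := by
        rw [e1, e2] at h
        nlinarith
      have hb' : b < r := by omega
      obtain ⟨k, hk⟩ := ih b hb' a h5
      exact ⟨k + 1, by rw [sol_succ, hk, e1, e2]⟩

lemma sol_iff (p r : ℕ) : p ^ 2 + 1 = 2 * r ^ 2 ↔ ∃ k, sol k = (p, r) :=
  ⟨exists_sol r p, fun ⟨k, hk⟩ => by have := sol_eq k; rwa [hk] at this⟩

lemma sol_lt (k : ℕ) : (sol k).1 < (sol (k + 1)).1 ∧ (sol k).2 < (sol (k + 1)).2 := by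
  have := sol_pos k
  rw [sol_succ]
  simp only
  omega

lemma sol_mono1 : StrictMono (fun k => (sol k).1) := strictMono_nat_of_lt_succ fun k => (sol_lt k).1

lemma sol_mono2 : StrictMono (fun k => (sol k).2) := strictMono_nat_of_lt_succ fun k => (sol_lt k).2

/-- the Lucas sequences with parameters `(2, -1)` -/
lemma sol_UV (k : ℕ) : U 2 (2 * k + 1) = (sol k).2 ∧ U 2 (2 * k + 2) = (sol k).1 + (sol k).2 ∧
    V 2 (2 * k + 1) = 2 * (sol k).1 ∧ V 2 (2 * k + 2) = 2 * (sol k).1 + 4 * (sol k).2 := by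
  induction k with
  | zero => exact ⟨rfl, rfl, rfl, rfl⟩
  | succ k ih =>
    obtain ⟨h1, h2, h3, h4⟩ := ih
    have e1 : U 2 (2 * (k + 1) + 1) = 2 * (sol k).1 + 3 * (sol k).2 := by
      rw [show 2 * (k + 1) + 1 = (2 * k + 1) + 2 by ring, Pool.Agent.H447R2.ML.U_add_two,
        show 2 * k + 1 + 1 = 2 * k + 2 by ring, h1, h2]
      ring
    have e3 : V 2 (2 * (k + 1) + 1) = 2 * (3 * (sol k).1 + 4 * (sol k).2) := by
      rw [show 2 * (k + 1) + 1 = (2 * k + 1) + 2 by ring, Pool.Agent.H447R2.ML.V_add_two,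
        show 2 * k + 1 + 1 = 2 * k + 2 by ring, h3, h4]
      ring
    rw [sol_succ]
    refine ⟨e1, ?_, e3, ?_⟩
    · rw [show 2 * (k + 1) + 2 = (2 * k + 2) + 2 by ring, Pool.Agent.H447R2.ML.U_add_two,
        show 2 * k + 2 + 1 = 2 * (k + 1) + 1 by ring, e1, h2]
      simp only
      ring
    · rw [show 2 * (k + 1) + 2 = (2 * k + 2) + 2 by ring, Pool.Agent.H447R2.ML.V_add_two,
        show 2 * k + 2 + 1 = 2 * (k + 1) + 1 by ring, e3, h4]
      simp only
      ring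

lemma sqrt2_sq : Real.sqrt 2 ^ 2 = 2 := Real.sq_sqrt (by norm_num)

lemma sqrt2_pos : 0 < Real.sqrt 2 := Real.sqrt_pos.2 (by norm_num)

/-- closed forms -/
lemma sol_closed (k : ℕ) :
    ((sol k).1 : ℝ) = ((1 + Real.sqrt 2) ^ (2 * k + 1) + (1 - Real.sqrt 2) ^ (2 * k + 1)) / 2 ∧
    ((sol k).2 : ℝ) = ((1 + Real.sqrt 2) ^ (2 * k + 1) - (1 - Real.sqrt 2) ^ (2 * k + 1)) /
      (2 * Real.sqrt 2) := by
  have h := Pool.Agent.H447R2.ML.closed 2 (s := 2 * Real.sqrt 2) (α := 1 + Real.sqrt 2)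
    (ψ := 1 - Real.sqrt 2) (by rw [mul_pow, sqrt2_sq]; norm_num) (by push_cast; ring)
    (by push_cast; ring) (2 * k + 1)
  obtain ⟨h1, _, h3, _⟩ := sol_UV k
  rw [h1, h3] at h
  push_cast at h
  have hs := sqrt2_pos
  refine ⟨by linarith [h.2], ?_⟩
  rw [eq_div_iff (by positivity)]
  exact h.1

/-- the addition formula for `V` with an odd shift -/
lemma V_shift (P m d : ℕ) (hd : Odd d) : V P (m + 2 * d) = V P (m + d) * V P d + V P m := by
  obtain ⟨s, hs⟩ : ∃ s : ℝ, s ^ 2 = (P : ℝ) ^ 2 + 4 := ⟨Real.sqrt ((P : ℝ) ^ 2 + 4),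
    Real.sq_sqrt (by positivity)⟩
  have h := fun n => (Pool.Agent.H447R2.ML.closed P hs rfl rfl n).2
  have hab : ((P : ℝ) + s) / 2 * (((P : ℝ) - s) / 2) = -1 := by nlinarith
  have hab' : (((P : ℝ) + s) / 2) ^ d * (((P : ℝ) - s) / 2) ^ d = -1 := by
    rw [← mul_pow, hab, hd.neg_one_pow]
  have : ((V P (m + 2 * d) : ℕ) : ℝ) = ((V P (m + d) * V P d + V P m : ℕ) : ℝ) := by
    push_cast
    rw [h, h, h, h]
    rw [two_mul, ← add_assoc]
    simp only [pow_add]
    linear_combination (-((((P : ℝ) + s) / 2) ^ m + (((P : ℝ) - s) / 2) ^ m)) * hab'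
  exact_mod_cast this

lemma V_dvd (P d : ℕ) (hd : Odd d) : ∀ i : ℕ, V P d ∣ V P ((2 * i + 1) * d)
  | 0 => by simp
  | i + 1 => by
    have h := V_dvd P d hd i
    rw [show (2 * (i + 1) + 1) * d = (2 * i + 1) * d + 2 * d by ring, V_shift P _ d hd]
    exact dvd_add (Dvd.intro_left _ rfl) h

/-- `p_j ∣ p_k` if `2 j + 1 ∣ 2 k + 1` -/
lemma dvd1 {j k : ℕ} (h : 2 * j + 1 ∣ 2 * k + 1) : (sol j).1 ∣ (sol k).1 := by
  obtain ⟨c, hc⟩ := h
  have hodd : Odd c := by
    rcases Nat.even_or_odd c with h1 | h1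
    · exfalso
      have h2 : Even (2 * k + 1) := by rw [hc]; exact h1.mul_left _
      have h3 : Odd (2 * k + 1) := ⟨k, rfl⟩
      exact (Nat.not_even_iff_odd.2 h3) h2
    · exact h1
  obtain ⟨i, rfl⟩ := hodd
  have h1 := V_dvd 2 (2 * j + 1) ⟨j, rfl⟩ i
  rw [mul_comm (2 * i + 1) (2 * j + 1), ← hc, (sol_UV j).2.2.1, (sol_UV k).2.2.1] at h1
  exact Nat.dvd_of_mul_dvd_mul_left two_pos h1

lemma U_dvd (P d : ℕ) : ∀ i : ℕ, U P d ∣ U P (i * d)
  | 0 => by rw [zero_mul, Pool.Agent.H447R2.ML.U_zero]; exact dvd_zero _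
  | i + 1 => by
    have h := U_dvd P d i
    rcases d with _ | d
    · simp
    · rw [add_mul, one_mul, ← add_assoc, Pool.Agent.H447R2.ML.U_add]
      exact dvd_add (Dvd.intro_left _ rfl) (h.mul_right _)

/-- `r_j ∣ r_k` if `2 j + 1 ∣ 2 k + 1` -/
lemma dvd2 {j k : ℕ} (h : 2 * j + 1 ∣ 2 * k + 1) : (sol j).2 ∣ (sol k).2 := by
  obtain ⟨c, hc⟩ := h
  have h1 := U_dvd 2 (2 * j + 1) c
  rw [mul_comm c (2 * j + 1), ← hc, (sol_UV j).1, (sol_UV k).1] at h1
  exact h1

/-- a divisor of an odd number, different from `1` and the number -/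
lemma prime_of_all {k : ℕ} (hk : 1 ≤ k) (h : ∀ j, 2 * j + 1 ∣ 2 * k + 1 → j = 0 ∨ j = k) :
    (2 * k + 1).Prime := by
  rw [Nat.prime_def]
  refine ⟨by omega, fun m hm => ?_⟩
  have hodd : Odd m := by
    rcases Nat.even_or_odd m with h1 | h1
    · exfalso
      have h2 : Even (2 * k + 1) := by
        obtain ⟨c, hc⟩ := hm
        rw [hc]; exact h1.mul_right _
      exact (Nat.not_even_iff_odd.2 ⟨k, rfl⟩) h2
    · exact h1
  obtain ⟨j, rfl⟩ := hodd
  rcases h j hm with rfl | rfl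
  · left; rfl
  · right; rfl

lemma index_prime1 {k : ℕ} (h : (sol k).1.Prime) : (2 * k + 1).Prime := by
  have hk : 1 ≤ k := by
    rcases Nat.eq_zero_or_pos k with rfl | h1
    · exact absurd h (by rw [sol_zero]; exact Nat.not_prime_one)
    · exact h1
  refine prime_of_all hk fun j hj => ?_
  rcases (Nat.dvd_prime h).1 (dvd1 hj) with h1 | h1
  · left
    by_contra hne
    have h2 := sol_mono1 (Nat.pos_of_ne_zero hne)
    simp only [sol_zero] at h2
    omega
  · right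
    exact sol_mono1.injective h1

lemma index_prime2 {k : ℕ} (h : (sol k).2.Prime) : (2 * k + 1).Prime := by
  have hk : 1 ≤ k := by
    rcases Nat.eq_zero_or_pos k with rfl | h1
    · exact absurd h (by rw [sol_zero]; exact Nat.not_prime_one)
    · exact h1
  refine prime_of_all hk fun j hj => ?_
  rcases (Nat.dvd_prime h).1 (dvd2 hj) with h1 | h1
  · left
    by_contra hne
    have h2 := sol_mono2 (Nat.pos_of_ne_zero hne)
    simp only [sol_zero] at h2
    omega
  · right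
    exact sol_mono2.injective h1

lemma odd1 (k : ℕ) : Odd (sol k).1 := by
  have h := sol_eq k
  by_contra hne
  rw [Nat.not_odd_iff_even] at hne
  obtain ⟨a, ha⟩ := hne
  rw [ha] at h
  ring_nf at h
  omega

lemma odd2 (k : ℕ) : Odd (sol k).2 := by
  have h := sol_eq k
  by_contra hne
  rw [Nat.not_odd_iff_even] at hne
  obtain ⟨a, ha⟩ := hne
  obtain ⟨b, hb⟩ := odd1 k
  rw [ha, hb] at h
  ring_nf at h
  have : (b + b ^ 2) * 4 + 2 = a ^ 2 * 8 := by linarith
  omega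

/-- the prime factors of the terms with prime index -/
lemma factor1 {k q : ℕ} (hk : (2 * k + 1).Prime) (hq : q.Prime) (h : q ∣ (sol k).1) :
    2 * k + 1 < q := by
  have hk1 : 1 ≤ k := by
    rcases Nat.eq_zero_or_pos k with rfl | h1
    · exact absurd hk (by norm_num)
    · exact h1
  rcases Nat.lt_or_ge k 2 with h2 | h2
  · have : k = 1 := by omega
    subst this
    have h3 : (sol 1).1 = 7 := rfl
    rw [h3] at h
    have := (Nat.prime_dvd_prime_iff_eq hq (by norm_num)).1 h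
    omega
  · refine Pool.Agent.H447R2.ML.lt_of_dvd_V 2 hk (by omega) ?_ hq ?_ ?_
    · intro h3
      have := Nat.le_of_dvd two_pos h3
      omega
    · intro h3
      have h4 := (Nat.prime_dvd_prime_iff_eq hq Nat.prime_two).1 h3
      subst h4
      exact (Nat.not_even_iff_odd.2 (odd1 k)) (even_iff_two_dvd.2 h)
    · rw [(sol_UV k).2.2.1]
      exact h.mul_left 2

lemma factor2 {k q : ℕ} (hk : (2 * k + 1).Prime) (hq : q.Prime) (h : q ∣ (sol k).2) :
    2 * k + 1 < q := by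
  have hk1 : 1 ≤ k := by
    rcases Nat.eq_zero_or_pos k with rfl | h1
    · exact absurd hk (by norm_num)
    · exact h1
  rcases Nat.lt_or_ge k 2 with h2 | h2
  · have : k = 1 := by omega
    subst this
    have h3 : (sol 1).2 = 5 := rfl
    rw [h3] at h
    have := (Nat.prime_dvd_prime_iff_eq hq (by norm_num)).1 h
    omega
  · refine Pool.Agent.H447R2.ML.lt_of_dvd_U 2 hk (by omega) ?_ hq ?_
    · intro h3
      have h4 : (2 * k + 1) ∣ 2 ^ 3 := h3
      have h5 := hk.dvd_of_dvd_pow h4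
      have := Nat.le_of_dvd two_pos h5
      omega
    · rw [(sol_UV k).1]
      exact h

lemma rough1 {k : ℕ} (hk : (2 * k + 1).Prime) {x : ℝ} (hx : x = (sol k).1) :
    Pool.Agent.H305R2.roughPart (2 * k + 1) ⌊x⌋₊ = (sol k).1 := by
  rw [hx, Nat.floor_natCast]
  exact Pool.Agent.H447R2.ML.roughPart_eq_self (sol_pos k).1.ne' fun q hq h => factor1 hk hq h

lemma rough2 {k : ℕ} (hk : (2 * k + 1).Prime) {x : ℝ} (hx : x = (sol k).2) :
    Pool.Agent.H305R2.roughPart (2 * k + 1) ⌊x⌋₊ = (sol k).2 := by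
  rw [hx, Nat.floor_natCast]
  exact Pool.Agent.H447R2.ML.roughPart_eq_self (sol_pos k).2.ne' fun q hq h => factor2 hk hq h

lemma sol_inj : Function.Injective sol := fun _ _ h =>
  sol_mono1.injective (show (sol _).1 = (sol _).1 by rw [h])

/-- the solutions with a property that forces a prime index -/
lemma inf_iff {φ : ℕ × ℕ → Prop} {ψ : ℕ → Prop} (h1 : ∀ k, φ (sol k) → (2 * k + 1).Prime)
    (h2 : ∀ k, (2 * k + 1).Prime → (ψ (2 * k + 1) ↔ φ (sol k))) :
    {x : ℕ × ℕ | x.1 ^ 2 + 1 = 2 * x.2 ^ 2 ∧ φ x}.Infinite ↔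
      {n : ℕ | n.Prime ∧ ψ n}.Infinite := by
  have e1 : {x : ℕ × ℕ | x.1 ^ 2 + 1 = 2 * x.2 ^ 2 ∧ φ x} = sol '' {k | φ (sol k)} := by
    ext ⟨a, b⟩
    constructor
    · rintro ⟨h, hφ⟩
      obtain ⟨k, hk⟩ := exists_sol b a h
      exact ⟨k, by show φ (sol k); rw [hk]; exact hφ, hk⟩
    · rintro ⟨k, hk, hk'⟩
      have h3 := sol_eq k
      rw [hk'] at h3
      exact ⟨h3, by rw [← hk']; exact hk⟩
  have e2 : {n : ℕ | n.Prime ∧ ψ n} \ {2} = (fun k => 2 * k + 1) '' {k | φ (sol k)} := by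
    ext n
    constructor
    · rintro ⟨⟨hn, hψ⟩, hn2⟩
      obtain ⟨k, rfl⟩ := hn.odd_of_ne_two hn2
      exact ⟨k, (h2 k hn).1 hψ, rfl⟩
    · rintro ⟨k, hk, rfl⟩
      have h3 := h1 k hk
      refine ⟨⟨h3, (h2 k h3).2 hk⟩, ?_⟩
      show ¬ (2 * k + 1 = 2)
      omega
  have e3 : {n : ℕ | n.Prime ∧ ψ n}.Infinite ↔ ({n : ℕ | n.Prime ∧ ψ n} \ {2}).Infinite :=
    ⟨fun h => h.diff (Set.finite_singleton 2), fun h => h.mono Set.diff_subset⟩
  rw [e3, e1, e2, Set.infinite_image_iff sol_inj.injOn, Set.infinite_image_iff]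
  intro a _ b _ h
  have h : 2 * a + 1 = 2 * b + 1 := h
  omega

end Pool.Agent.X144.Pell
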