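import Mathlib
import Pool.Agent.X144.Pell

set_option autoImplicit false

/-!
# The prime factors of the terms with prime index modulo the index
-/

namespace Pool.Agent.X144.Pell

open Pool.Agent.H447R2.ML (U V)

/-- the order of the general linear group over the field with `q` elements -/
lemma split {n q : ℕ} (hn : n.Prime) (hq : q.Prime) (h : n ∣ (q ^ 2 - 1) * (q ^ 2 - q))
    (hne : n ≠ q) : n ∣ q - 1 ∨ n ∣ q + 1 := by
  have e1 : (q ^ 2 - 1) = (q + 1) * (q - 1) := by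
    have := Nat.sq_sub_sq q 1
    simpa using this
  have e2 : q ^ 2 - q = q * (q - 1) := by
    rw [sq, Nat.mul_sub, mul_one]
  rw [e1, e2] at h
  rcases hn.dvd_mul.1 h with h1 | h1
  · rcases hn.dvd_mul.1 h1 with h2 | h2
    · exact Or.inr h2
    · exact Or.inl h2
  · rcases hn.dvd_mul.1 h1 with h2 | h2
    · exact absurd ((Nat.prime_dvd_prime_iff_eq hn hq).1 h2) hne
    · exact Or.inl h2

/-- a prime factor of the term of prime index `n` of the Lucas sequence `U (P, -1)` -/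
lemma cong_U (P : ℕ) {n q : ℕ} (hn : n.Prime) (hq : q.Prime) (h : q ∣ U P n) (hne : n ≠ q) :
    n ∣ q - 1 ∨ n ∣ q + 1 := by
  refine split hn hq ?_ hne
  have h1 := Pool.Agent.H447R2.ML.dvd_gcd hq _ _ h (Pool.Agent.H447R2.ML.dvd_card P hq)
  rcases (Nat.coprime_or_dvd_of_prime hn ((q ^ 2 - 1) * (q ^ 2 - q))) with h3 | h3
  · rw [h3, Pool.Agent.H447R2.ML.U_one] at h1
    exact absurd (Nat.dvd_one.1 h1) hq.one_lt.ne'
  · exact h3

/-- a prime factor of the term of prime index `n` of the companion sequence `V (P, -1)` -/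
lemma cong_V (P : ℕ) {n q : ℕ} (hn : n.Prime) (hq : q.Prime) (h : q ∣ V P n) (hqP : ¬ q ∣ P)
    (hne : n ≠ q) : n ∣ q - 1 ∨ n ∣ q + 1 := by
  refine split hn hq ?_ hne
  obtain ⟨m, hm⟩ := Nat.exists_eq_succ_of_ne_zero hn.ne_zero
  rw [Nat.succ_eq_add_one] at hm
  have hU : q ∣ U P (2 * n) := by
    rw [hm, Pool.Agent.H447R2.ML.U_two_mul, ← hm]
    exact h.mul_left _
  have h1 := Pool.Agent.H447R2.ML.dvd_gcd hq _ _ hU (Pool.Agent.H447R2.ML.dvd_card P hq)
  rcases (Nat.coprime_or_dvd_of_prime hn ((q ^ 2 - 1) * (q ^ 2 - q))) with h3 | h3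
  · exfalso
    rw [Nat.Coprime.gcd_mul_right_cancel 2 h3] at h1
    have h4 : q ∣ U P 2 := Pool.Agent.H447R2.ML.dvd_of_dvd hq h1 (Nat.gcd_dvd_left _ _)
    rw [Pool.Agent.H447R2.ML.U_two] at h4
    exact hqP h4
  · exact h3

/-- the prime factors of `p_k` and `r_k`, `2 k + 1` prime, are `≡ ± 1 (mod 2 k + 1)` -/
lemma cong {k q : ℕ} (hk : (2 * k + 1).Prime) (hq : q.Prime) (h : q ∣ (sol k).1 * (sol k).2) :
    2 * k + 1 ∣ q - 1 ∨ 2 * k + 1 ∣ q + 1 := by
  rcases hq.dvd_mul.1 h with h1 | h1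
  · have hlt := factor1 hk hq h1
    refine cong_V 2 hk hq (by rw [(sol_UV k).2.2.1]; exact h1.mul_left 2) ?_ (by omega)
    intro h2
    have h3 := (Nat.prime_dvd_prime_iff_eq hq Nat.prime_two).1 h2
    subst h3
    exact (Nat.not_even_iff_odd.2 (odd1 k)) (even_iff_two_dvd.2 h1)
  · have hlt := factor2 hk hq h1
    exact cong_U 2 hk hq (by rw [(sol_UV k).1]; exact h1) (by omega)

end Pool.Agent.X144.Pell
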