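import Mathlib
import Pool.Agent.H305R2.AE2

set_option autoImplicit false

/-!
# Two arguments at the same level in a two-parameter family

For a prime `p` let `A p` be the set of the reals `t` for which the `p`-rough part of the largest
integer below `exp t` is prime.  We bound the measure of the pairs `(w, s)` in a box with
`s + G w` and `s + G w - k w` in `A p`, where `G` grows at the rate `p` and `k` at a bounded rate.
-/

namespace Pool.Agent.X144.Pair

open MeasureTheory Filter Topology Set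
open Pool.Agent.H305R2 (ff ff_nonneg ff_le_one measurable_ff bounds integrableOn_ff)

/-- the set of the arguments with prime rough part -/
def A (p : ℕ) : Set ℝ := {t | ff p t = 1}

lemma measurable_A (p : ℕ) : MeasurableSet (A p) := measurable_ff p (measurableSet_singleton 1)

lemma ff_eq_ind (p : ℕ) : ff p = (A p).indicator (fun _ => (1 : ℝ)) := by
  funext t
  by_cases h : t ∈ A p
  · rw [indicator_of_mem h]; exact h
  · rw [indicator_of_notMem h]
    have h' : ¬ ff p t = 1 := h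
    unfold Pool.Agent.H305R2.ff at h' ⊢
    split_ifs with h1
    · rw [if_pos h1] at h'; exact absurd rfl h'
    · rfl

lemma vol_A {c : ℝ} (hc : 0 < c) : ∃ K : ℝ, 0 < K ∧ ∀ᶠ p : ℕ in atTop, ∀ u v : ℝ, c * p + 1 ≤ u →
    u ≤ v → volume (A p ∩ Icc u v) ≤ ENNReal.ofReal (K * ((v - u) + 1 / p) * (Real.log p / p)) := by
  obtain ⟨K, hK, hev⟩ := bounds hc
  refine ⟨K, hK, ?_⟩
  filter_upwards [hev] with p hp u v hu huv
  have h := hp.2.1 u v hu huv
  rw [ff_eq_ind, setIntegral_indicator (measurable_A p), setIntegral_const, smul_eq_mul, mul_one] at h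
  have h1 : volume (A p ∩ Icc u v) = volume (Ioc u v ∩ A p) := by
    rw [inter_comm]
    exact measure_congr (Ioc_ae_eq_Icc.symm.inter (ae_eq_refl _))
  rw [h1]
  have hfin : volume (Ioc u v ∩ A p) ≠ ⊤ :=
    ((measure_mono inter_subset_left).trans_lt (by simp)).ne
  rw [← ENNReal.ofReal_toReal hfin]
  exact ENNReal.ofReal_le_ofReal h

/-- an expanding map does not decrease the measure -/
lemma vol_expand {T : Set ℝ} {f : ℝ → ℝ} (hf : ∀ x ∈ T, ∀ y ∈ T, |x - y| ≤ |f x - f y|) :
    volume T ≤ volume (f '' T) := by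
  have hinj : InjOn f T := by
    intro x hx y hy h
    have := hf x hx y hy
    rw [h, sub_self, abs_zero] at this
    exact sub_eq_zero.1 (abs_eq_zero.1 (le_antisymm this (abs_nonneg _)))
  set g := Function.invFunOn f T with hg
  have hgl : ∀ x ∈ T, g (f x) = x := fun x hx => hinj.leftInvOn_invFunOn hx
  have himg : g '' (f '' T) = T := by
    ext x
    constructor
    · rintro ⟨_, ⟨y, hy, rfl⟩, rfl⟩
      rw [hgl y hy]; exact hy
    · intro hx
      exact ⟨f x, ⟨x, hx, rfl⟩, hgl x hx⟩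
  have hlip : LipschitzOnWith 1 g (f '' T) := by
    refine LipschitzOnWith.of_dist_le_mul ?_
    rintro _ ⟨x, hx, rfl⟩ _ ⟨y, hy, rfl⟩
    rw [hgl x hx, hgl y hy, Real.dist_eq, Real.dist_eq]
    simpa using hf x hx y hy
  have h := hlip.hausdorffMeasure_image_le (d := 1) zero_le_one
  rw [himg, MeasureTheory.hausdorffMeasure_real] at h
  simpa using h

/-- **The bound at one level.** -/
theorem pair_bound {c w0 w1 s0 s1 C : ℝ} (hc : 0 < c) (hs : s0 ≤ s1) (hC : 0 ≤ C) :
    ∃ K : ℝ, 0 < K ∧ ∀ᶠ p : ℕ in atTop, ∀ G k : ℝ → ℝ, Measurable G → Measurable k →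
    (∀ w ∈ Icc w0 w1, ∀ w' ∈ Icc w0 w1, w ≤ w' → p * (w' - w) ≤ G w' - G w) →
    (∀ w ∈ Icc w0 w1, ∀ w' ∈ Icc w0 w1, w ≤ w' → w' - w ≤ k w' - k w ∧
      k w' - k w ≤ (w' - w) + 1 / p) →
    c * p + 1 + (s1 - s0 + 1) ≤ s0 + G w0 - k w1 → c * p + 1 ≤ s0 + G w0 → G w1 - G w0 ≤ C * p →
    volume {z : ℝ × ℝ | z.1 ∈ Icc w0 w1 ∧ z.2 ∈ Icc s0 s1 ∧ z.2 + G z.1 ∈ A p ∧
      z.2 + G z.1 - k z.1 ∈ A p} ≤ ENNReal.ofReal (K * (Real.log p / p) ^ 2) := by
  obtain ⟨K, hK, hev⟩ := vol_A hc
  refine ⟨K * (2 * (s1 - s0) + 3) * (K * (s1 - s0 + C + 1)), by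
    have : 0 ≤ s1 - s0 := by linarith
    positivity, ?_⟩
  filter_upwards [hev, eventually_ge_atTop 3] with p hp hp3 G k hG hk hGi hki h1 h1' h2
  have hp1 : (3 : ℝ) ≤ p := by exact_mod_cast hp3
  have hp0 : (0 : ℝ) < p := by linarith
  have hL : 0 ≤ s1 - s0 := by linarith
  have hlog : 0 ≤ Real.log p / p := div_nonneg (Real.log_nonneg (by linarith)) hp0.le
  rcases Classical.em (w0 ≤ w1) with hw | hw
  swap
  · have : {z : ℝ × ℝ | z.1 ∈ Icc w0 w1 ∧ z.2 ∈ Icc s0 s1 ∧ z.2 + G z.1 ∈ A p ∧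
        z.2 + G z.1 - k z.1 ∈ A p} = ∅ := by
      ext z
      simp only [mem_ofPred_eq, mem_empty_iff_false, iff_false]
      rintro ⟨hz, -⟩
      exact hw (hz.1.trans hz.2)
    rw [this, measure_empty]
    exact zero_le
  set E : Set (ℝ × ℝ) := {z : ℝ × ℝ | z.1 ∈ Icc w0 w1 ∧ z.2 ∈ Icc s0 s1 ∧ z.2 + G z.1 ∈ A p ∧
      z.2 + G z.1 - k z.1 ∈ A p} with hE
  set F : Set (ℝ × ℝ) := {z : ℝ × ℝ | z.1 ∈ Icc w0 w1 ∧ z.2 - G z.1 ∈ Icc s0 s1 ∧ z.2 ∈ A p ∧
      z.2 - k z.1 ∈ A p} with hF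
  have mA := measurable_A p
  have mE : MeasurableSet E := by
    refine (measurable_fst measurableSet_Icc).inter ((measurable_snd measurableSet_Icc).inter
      (MeasurableSet.inter ?_ ?_))
    · exact (measurable_snd.add (hG.comp measurable_fst)) mA
    · exact ((measurable_snd.add (hG.comp measurable_fst)).sub (hk.comp measurable_fst)) mA
  have mF : MeasurableSet F := by
    refine (measurable_fst measurableSet_Icc).inter (MeasurableSet.inter ?_
      (MeasurableSet.inter ?_ ?_))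
    · exact (measurable_snd.sub (hG.comp measurable_fst)) measurableSet_Icc
    · exact measurable_snd mA
    · exact (measurable_snd.sub (hk.comp measurable_fst)) mA
  have hEF : volume E = volume F := by
    rw [Measure.volume_eq_prod, Measure.prod_apply mE, Measure.prod_apply mF]
    refine lintegral_congr fun w => ?_
    have : Prod.mk w ⁻¹' E = (fun s => s + G w) ⁻¹' (Prod.mk w ⁻¹' F) := by
      ext s
      simp only [hE, hF, mem_preimage, mem_ofPred_eq, add_sub_cancel_right]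
    rw [this]
    exact measure_preimage_add_right volume (G w) _
  -- the sections of `F`
  have hsec : ∀ u : ℝ, volume ((fun w => (w, u)) ⁻¹' F) ≤
      (A p ∩ Icc (s0 + G w0) (s1 + G w1)).indicator
        (fun _ => ENNReal.ofReal (K * ((2 * (s1 - s0) + 3) / p) * (Real.log p / p))) u := by
    intro u
    rcases ((fun w => (w, u)) ⁻¹' F).eq_empty_or_nonempty with h0 | ⟨v, hv⟩
    · rw [h0, measure_empty]; exact zero_le
    have hGw : ∀ w ∈ Icc w0 w1, G w0 ≤ G w ∧ G w ≤ G w1 := by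
      intro w hw'
      have a1 := hGi w0 ⟨le_rfl, hw⟩ w hw' hw'.1
      have a2 := hGi w hw' w1 ⟨hw, le_rfl⟩ hw'.2
      have a3 : 0 ≤ (p : ℝ) * (w - w0) := mul_nonneg hp0.le (by linarith [hw'.1])
      have a4 : 0 ≤ (p : ℝ) * (w1 - w) := mul_nonneg hp0.le (by linarith [hw'.2])
      constructor <;> linarith
    obtain ⟨v1, v2, v3, v4⟩ := hv
    simp only at v1 v2 v3 v4
    have hu : u ∈ A p ∩ Icc (s0 + G w0) (s1 + G w1) := by
      refine ⟨v3, ?_, ?_⟩
      · linarith [(hGw v v1).1, v2.1]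
      · linarith [(hGw v v1).2, v2.2]
    rw [indicator_of_mem hu]
    set T := (fun w => (w, u)) ⁻¹' F with hT
    have hexp : volume T ≤ volume ((fun w => u - k w) '' T) := by
      refine vol_expand fun x hx y hy => ?_
      rcases le_total x y with hxy | hxy
      · have a := (hki x hx.1 y hy.1 hxy).1
        have e1 : |x - y| = y - x := by rw [abs_sub_comm, abs_of_nonneg (by linarith)]
        rw [e1, show u - k x - (u - k y) = k y - k x by ring]
        exact a.trans (le_abs_self _)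
      · have a := (hki y hy.1 x hx.1 hxy).1
        have e1 : |x - y| = x - y := abs_of_nonneg (by linarith)
        rw [e1, show u - k x - (u - k y) = -(k x - k y) by ring, abs_neg]
        exact a.trans (le_abs_self _)
    have hdist : ∀ x ∈ T, |k x - k v| ≤ (s1 - s0 + 1) / p := by
      intro x hx
      obtain ⟨x1, x2, x3, x4⟩ := hx
      simp only at x1 x2 x3 x4
      have key : ∀ a ∈ Icc w0 w1, ∀ b ∈ Icc w0 w1, a ≤ b → u - G a ∈ Icc s0 s1 →
          u - G b ∈ Icc s0 s1 → 0 ≤ k b - k a ∧ k b - k a ≤ (s1 - s0 + 1) / p := by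
        intro a ha b hb hab h3 h4
        have b1 := hGi a ha b hb hab
        have b2 := hki a ha b hb hab
        have b3 : p * (b - a) ≤ s1 - s0 := by linarith [h3.2, h4.1]
        have b4 : b - a ≤ (s1 - s0) / p := by
          rw [le_div_iff₀ hp0]; linarith
        refine ⟨by linarith, ?_⟩
        rw [add_div]
        linarith
      rcases le_total x v with hxy | hxy
      · have := key x x1 v v1 hxy x2 v2
        rw [abs_sub_comm, abs_of_nonneg this.1]
        exact this.2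
      · have := key v v1 x x1 hxy v2 x2
        rw [abs_of_nonneg this.1]
        exact this.2
    have hsub : (fun w => u - k w) '' T ⊆
        A p ∩ Icc (u - k v - (s1 - s0 + 1) / p) (u - k v + (s1 - s0 + 1) / p) := by
      rintro _ ⟨x, hx, rfl⟩
      have h3 := abs_le.1 (hdist x hx)
      refine ⟨hx.2.2.2, ?_, ?_⟩
      · simp only; linarith [h3.2]
      · simp only; linarith [h3.1]
    have hdiv : (s1 - s0 + 1) / p ≤ s1 - s0 + 1 := div_le_self (by linarith) (by linarith)
    have hdiv0 : 0 ≤ (s1 - s0 + 1) / p := by positivity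
    have hkv : k v ≤ k w1 := by
      have := (hki v v1 w1 ⟨hw, le_rfl⟩ v1.2).1
      linarith [v1.2]
    have hlow : c * p + 1 ≤ u - k v - (s1 - s0 + 1) / p := by
      have := hu.2.1
      linarith
    refine hexp.trans ((measure_mono hsub).trans ((hp _ _ hlow (by linarith)).trans ?_))
    refine ENNReal.ofReal_le_ofReal ?_
    refine mul_le_mul_of_nonneg_right (mul_le_mul_of_nonneg_left (le_of_eq ?_) hK.le) hlog
    field_simp
    ring
  have hvolF : volume F ≤ ENNReal.ofReal (K * ((2 * (s1 - s0) + 3) / p) * (Real.log p / p)) *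
      ENNReal.ofReal (K * ((s1 + G w1 - (s0 + G w0)) + 1 / p) * (Real.log p / p)) := by
    rw [Measure.volume_eq_prod, Measure.prod_apply_symm mF]
    refine (lintegral_mono hsec).trans ?_
    rw [lintegral_indicator (mA.inter measurableSet_Icc), setLIntegral_const]
    refine mul_le_mul_right (hp _ _ h1' ?_) _
    have a1 := hGi w0 ⟨le_rfl, hw⟩ w1 ⟨hw, le_rfl⟩ hw
    have a3 : 0 ≤ (p : ℝ) * (w1 - w0) := mul_nonneg hp0.le (by linarith)
    linarith
  rw [hEF]
  refine hvolF.trans ?_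
  rw [← ENNReal.ofReal_mul (by positivity)]
  refine ENNReal.ofReal_le_ofReal ?_
  have h5 : (s1 + G w1 - (s0 + G w0)) + 1 / p ≤ (s1 - s0 + C + 1) * p := by
    have a1 : 1 / (p : ℝ) ≤ 1 := by rw [div_le_one hp0]; linarith
    have a2 : s1 - s0 ≤ (s1 - s0) * p := le_mul_of_one_le_right hL (by linarith)
    nlinarith
  have h6 : K * ((s1 + G w1 - (s0 + G w0)) + 1 / p) * (Real.log p / p) ≤
      K * ((s1 - s0 + C + 1) * p) * (Real.log p / p) :=
    mul_le_mul_of_nonneg_right (mul_le_mul_of_nonneg_left h5 hK.le) hlog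
  refine (mul_le_mul_of_nonneg_left h6 (by positivity)).trans (le_of_eq ?_)
  field_simp

/-- summability of the bounds -/
lemma summable_bound (K : ℝ) : Summable (fun n : ℕ => K * (Real.log n / n) ^ 2) := by
  refine Summable.mul_left K ?_
  have h1 : Summable (fun n : ℕ => 16 * (n : ℝ) ^ (-(3 / 2) : ℝ)) :=
    (Real.summable_nat_rpow.2 (by norm_num)).mul_left 16
  refine Summable.of_nonneg_of_le (fun n => sq_nonneg _) (fun n => ?_) h1
  rcases Nat.eq_zero_or_pos n with rfl | hn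
  · simp
  have hn0 : (0 : ℝ) < n := by exact_mod_cast hn
  have hn1 : (1 : ℝ) ≤ n := by exact_mod_cast hn
  have h2 : Real.log n ≤ (n : ℝ) ^ (1 / 4 : ℝ) / (1 / 4) := Real.log_le_rpow_div hn0.le (by norm_num)
  have h3 : 0 ≤ Real.log n := Real.log_nonneg hn1
  have h4 : (Real.log n) ^ 2 ≤ 16 * (n : ℝ) ^ (1 / 2 : ℝ) := by
    calc (Real.log n) ^ 2 ≤ ((n : ℝ) ^ (1 / 4 : ℝ) / (1 / 4)) ^ 2 := pow_le_pow_left₀ h3 h2 2
      _ = 16 * ((n : ℝ) ^ (1 / 4 : ℝ)) ^ 2 := by ring
      _ = 16 * (n : ℝ) ^ (1 / 2 : ℝ) := by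
        rw [← Real.rpow_natCast, ← Real.rpow_mul hn0.le]
        norm_num
  rw [div_pow, div_le_iff₀ (by positivity)]
  have h5 : (n : ℝ) ^ (-(3 / 2) : ℝ) * (n : ℝ) ^ 2 = (n : ℝ) ^ (1 / 2 : ℝ) := by
    rw [← Real.rpow_natCast (n : ℝ) 2, ← Real.rpow_add hn0]
    norm_num
  rw [mul_assoc, h5]
  exact h4

/-- Borel-Cantelli for the bounds -/
lemma borel {α : Type*} [MeasurableSpace α] {μ : Measure α} {E : ℕ → Set α} {K : ℝ}
    (h : ∀ᶠ n : ℕ in atTop, μ (E n) ≤ ENNReal.ofReal (K * (Real.log n / n) ^ 2)) :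
    ∀ᵐ x ∂μ, ∀ᶠ n in atTop, x ∉ E n := by
  obtain ⟨N, hN⟩ := eventually_atTop.1 h
  have hs : Summable (fun n : ℕ => K * (Real.log (n + N : ℕ) / (n + N : ℕ)) ^ 2) :=
    (summable_nat_add_iff N).2 (summable_bound K)
  have h1 : ∑' n, μ (E (n + N)) ≠ ⊤ := by
    refine ne_top_of_le_ne_top hs.tsum_ofReal_ne_top ?_
    exact ENNReal.tsum_le_tsum fun n => hN (n + N) (by omega)
  filter_upwards [ae_eventually_notMem h1] with x hx
  obtain ⟨M, hM⟩ := eventually_atTop.1 hx
  filter_upwards [eventually_ge_atTop (M + N)] with n hn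
  have := hM (n - N) (by omega)
  rwa [Nat.sub_add_cancel (by omega)] at this

end Pool.Agent.X144.Pair
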