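import Mathlib
import Pool.Agent.X144.Pair
import Pool.Agent.H447R2.ML.P9

set_option autoImplicit false

/-!
# The family `√N sinh (n θ)`, `√N cosh (n θ) / cosh θ`

With `D = cosh θ ^ 2` the two numbers are the coordinates of the solutions of
`P ^ 2 - D R ^ 2 = -N` (`n` odd) in the orbit of `√N (√(D - 1), 1)`.  We use the coordinates
`w = log √D`, `s = log √N`.
-/

namespace Pool.Agent.X144.Pair

open MeasureTheory Filter Topology Set
open Pool.Agent.H305R2 (ff roughPart)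

/-- the inverse hyperbolic cosine of `exp w` -/
noncomputable def th (w : ℝ) : ℝ := Real.log (Real.exp w + Real.sqrt (Real.exp w ^ 2 - 1))

lemma th_arg {w : ℝ} (hw : 0 ≤ w) : 0 < Real.exp w + Real.sqrt (Real.exp w ^ 2 - 1) ∧
    (Real.exp w + Real.sqrt (Real.exp w ^ 2 - 1))⁻¹ =
      Real.exp w - Real.sqrt (Real.exp w ^ 2 - 1) := by
  have h1 : 1 ≤ Real.exp w := Real.one_le_exp hw
  have h2 : 0 ≤ Real.exp w ^ 2 - 1 := by nlinarith
  have h3 := Real.sq_sqrt h2
  have h4 := Real.sqrt_nonneg (Real.exp w ^ 2 - 1)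
  have h5 : 0 < Real.exp w + Real.sqrt (Real.exp w ^ 2 - 1) := by linarith
  refine ⟨h5, ?_⟩
  exact inv_eq_of_mul_eq_one_right (by nlinarith)

lemma cosh_th {w : ℝ} (hw : 0 ≤ w) : Real.cosh (th w) = Real.exp w := by
  obtain ⟨h1, h2⟩ := th_arg hw
  rw [th, Real.cosh_log h1, h2]
  ring

lemma sinh_th {w : ℝ} (hw : 0 ≤ w) : Real.sinh (th w) = Real.sqrt (Real.exp w ^ 2 - 1) := by
  obtain ⟨h1, h2⟩ := th_arg hw
  rw [th, Real.sinh_log h1, h2]
  ring

lemma th_nonneg {w : ℝ} (hw : 0 ≤ w) : 0 ≤ th w := by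
  rw [← Real.sinh_nonneg_iff, sinh_th hw]
  exact Real.sqrt_nonneg _

lemma th_pos {w : ℝ} (hw : 0 < w) : 0 < th w := by
  rw [← Real.sinh_pos_iff, sinh_th hw.le]
  refine Real.sqrt_pos.2 ?_
  have h1 : 1 < Real.exp w := Real.one_lt_exp_iff.2 hw
  nlinarith

lemma th_growth {w w' : ℝ} (hw : 0 ≤ w) (h : w ≤ w') : w' - w ≤ th w' - th w := by
  have h1 := th_nonneg hw
  have h2 := th_nonneg (hw.trans h)
  have h3 : Real.cosh (th w + (w' - w)) ≤ Real.cosh (th w') := by
    rw [cosh_th (hw.trans h), Real.cosh_add, cosh_th hw]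
    have h4 : Real.sinh (th w) ≤ Real.cosh (th w) := (Real.sinh_lt_cosh _).le
    rw [cosh_th hw] at h4
    have h5 : 0 ≤ Real.sinh (w' - w) := Real.sinh_nonneg_iff.2 (by linarith)
    have h6 : Real.exp w' = Real.exp w * (Real.cosh (w' - w) + Real.sinh (w' - w)) := by
      rw [Real.cosh_add_sinh, ← Real.exp_add]
      congr 1
      ring
    rw [h6]
    nlinarith
  rw [Real.cosh_le_cosh, abs_of_nonneg (by linarith), abs_of_nonneg h2] at h3
  linarith

lemma measurable_th : Measurable th := by unfold th; fun_prop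

/-- the logarithm of `sinh (n θ)` -/
noncomputable def G (n : ℕ) (w : ℝ) : ℝ := Real.log (Real.sinh (n * th w))

/-- the logarithm of `cosh (n θ) / cosh θ` -/
noncomputable def H (n : ℕ) (w : ℝ) : ℝ := Real.log (Real.cosh (n * th w)) - w

lemma measurable_G (n : ℕ) : Measurable (G n) := by
  unfold G
  have := measurable_th
  exact Real.measurable_log.comp (Real.measurable_sinh.comp (this.const_mul _))

lemma measurable_H (n : ℕ) : Measurable (H n) := by
  unfold H
  have := measurable_th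
  exact (Real.measurable_log.comp (Real.measurable_cosh.comp (this.const_mul _))).sub measurable_id

lemma log_sinh_growth {x y : ℝ} (hx : 0 < x) (hxy : x ≤ y) :
    y - x ≤ Real.log (Real.sinh y) - Real.log (Real.sinh x) := by
  have h1 : 0 < Real.sinh x := Real.sinh_pos_iff.2 hx
  have h2 : Real.exp (y - x) * Real.sinh x ≤ Real.sinh y := by
    have e : y = x + (y - x) := by ring
    have h3 : 0 ≤ Real.sinh (y - x) := Real.sinh_nonneg_iff.2 (by linarith)
    have h4 := (Real.sinh_lt_cosh x).le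
    calc Real.exp (y - x) * Real.sinh x
        = Real.sinh x * (Real.cosh (y - x) + Real.sinh (y - x)) := by
          rw [Real.cosh_add_sinh]; ring
      _ ≤ Real.sinh x * Real.cosh (y - x) + Real.cosh x * Real.sinh (y - x) := by nlinarith
      _ = Real.sinh y := by rw [← Real.sinh_add]; congr 1; ring
  have h3 := Real.log_le_log (by positivity) h2
  rw [Real.log_mul (Real.exp_pos _).ne' h1.ne', Real.log_exp] at h3
  linarith

lemma log_tanh_mono {x y : ℝ} (hx : 0 < x) (hxy : x ≤ y) :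
    Real.log (Real.sinh x) - Real.log (Real.cosh x) ≤
      Real.log (Real.sinh y) - Real.log (Real.cosh y) := by
  have h1 : 0 < Real.sinh x := Real.sinh_pos_iff.2 hx
  have h2 : 0 < Real.sinh y := Real.sinh_pos_iff.2 (by linarith)
  have h3 := Real.cosh_pos x
  have h4 := Real.cosh_pos y
  have h5 : Real.sinh x * Real.cosh y ≤ Real.sinh y * Real.cosh x := by
    have h6 : 0 ≤ Real.sinh (y - x) := Real.sinh_nonneg_iff.2 (by linarith)
    rw [Real.sinh_sub] at h6
    linarith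
  have h6 := Real.log_le_log (by positivity) h5
  rw [Real.log_mul h1.ne' h4.ne', Real.log_mul h2.ne' h3.ne'] at h6
  linarith

lemma log_tanh_low {x : ℝ} (hx : 0 < x) :
    -(1 / x ^ 2) ≤ Real.log (Real.sinh x) - Real.log (Real.cosh x) := by
  have h1 : 0 < Real.sinh x := Real.sinh_pos_iff.2 hx
  have h3 := Real.cosh_pos x
  have h4 : Real.log (Real.cosh x / Real.sinh x) ≤ Real.cosh x / Real.sinh x - 1 :=
    Real.log_le_sub_one_of_pos (by positivity)
  rw [Real.log_div h3.ne' h1.ne'] at h4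
  have h5 : Real.cosh x / Real.sinh x - 1 = Real.exp (-x) / Real.sinh x := by
    rw [← Real.cosh_sub_sinh]
    field_simp
  have h6 : Real.exp (-x) / Real.sinh x ≤ 1 / x ^ 2 := by
    rw [div_le_div_iff₀ h1 (by positivity), one_mul, Real.exp_neg, ← div_eq_inv_mul,
      div_le_iff₀ (Real.exp_pos x)]
    have h7 : x ≤ Real.sinh x := Real.self_le_sinh_iff.2 hx.le
    have h8 : x ≤ Real.exp x := by linarith [Real.add_one_le_exp x]
    nlinarith
  linarith

lemma log_sinh_low {x : ℝ} (hx : 1 ≤ x) : x - Real.log 4 ≤ Real.log (Real.sinh x) := by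
  have h1 : Real.exp x / 4 ≤ Real.sinh x := by
    rw [Real.sinh_eq, Real.exp_neg]
    have h2 : 2 ≤ Real.exp x := by linarith [Real.add_one_le_exp x]
    have h3 : (Real.exp x)⁻¹ ≤ Real.exp x / 2 := by
      rw [inv_eq_one_div, div_le_div_iff₀ (by positivity) two_pos]
      nlinarith
    linarith
  have h2 := Real.log_le_log (by positivity) h1
  rw [Real.log_div (Real.exp_pos _).ne' (by norm_num), Real.log_exp] at h2
  exact h2

lemma log_sinh_high {x : ℝ} (hx : 0 < x) : Real.log (Real.sinh x) ≤ x := by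
  have h1 : 0 < Real.sinh x := Real.sinh_pos_iff.2 hx
  rw [Real.log_le_iff_le_exp h1, Real.sinh_eq]
  have := Real.exp_pos x
  have := Real.exp_pos (-x)
  linarith

/-- the conditions of `pair_bound` hold -/
lemma box_bound {w0 w1 s0 s1 : ℝ} (hw0 : 0 < w0) (hw : w0 ≤ w1) (hs : s0 ≤ s1) :
    ∃ K : ℝ, ∀ᶠ n : ℕ in atTop, volume {z : ℝ × ℝ | z.1 ∈ Icc w0 w1 ∧ z.2 ∈ Icc s0 s1 ∧
      z.2 + G n z.1 ∈ A n ∧ z.2 + H n z.1 ∈ A n} ≤ ENNReal.ofReal (K * (Real.log n / n) ^ 2) := by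
  have ht0 : 0 < th w0 := th_pos hw0
  have ht1 : 0 < th w1 := th_pos (hw0.trans_le hw)
  obtain ⟨K, hK, hev⟩ := pair_bound (c := th w0 / 2) (w0 := w0) (w1 := w1) (s0 := s0) (s1 := s1)
    (C := th w1) (by positivity) hs ht1.le
  refine ⟨K, ?_⟩
  -- a large constant
  obtain ⟨N1, hN1⟩ := exists_nat_ge ((1 + (s1 - s0 + 1) - s0 + w1 + Real.log 4) / (th w0 / 2))
  obtain ⟨N2, hN2⟩ := exists_nat_ge (1 / th w0 ^ 2)
  obtain ⟨N3, hN3⟩ := exists_nat_ge (1 / th w0)
  obtain ⟨N4, hN4⟩ := exists_nat_ge ((1 - s0 + Real.log 4) / (th w0 / 2))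
  filter_upwards [hev, eventually_ge_atTop (N1 + N2 + N3 + N4 + 1)] with n hn hnN
  have hn0 : (0 : ℝ) < n := by exact_mod_cast (show 0 < n by omega)
  have hnn : ∀ {w : ℝ}, w0 ≤ w → (n : ℝ) * th w0 ≤ n * th w := by
    intro w h
    have := th_growth hw0.le h
    exact mul_le_mul_of_nonneg_left (by linarith) hn0.le
  have hx0 : 0 < (n : ℝ) * th w0 := by positivity
  have hx1 : 1 ≤ (n : ℝ) * th w0 := by
    have h1 : 1 / th w0 ≤ n := hN3.trans (by exact_mod_cast (show N3 ≤ n by omega))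
    rwa [div_le_iff₀ ht0] at h1
  have hx2 : 1 / ((n : ℝ) * th w0) ^ 2 ≤ 1 / n := by
    have h1 : 1 / th w0 ^ 2 ≤ n := hN2.trans (by exact_mod_cast (show N2 ≤ n by omega))
    rw [div_le_iff₀ (by positivity)] at h1
    refine one_div_le_one_div_of_le hn0 ?_
    rw [mul_pow]
    nlinarith
  have hG0 := log_sinh_low hx1
  have key : ∀ w ∈ Icc w0 w1, ∀ w' ∈ Icc w0 w1, w ≤ w' →
      (n : ℝ) * (w' - w) ≤ (n : ℝ) * th w' - n * th w := by
    intro w h1 w' h2 h
    have := th_growth (hw0.le.trans h1.1) h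
    nlinarith
  have hmain := hn (G n) (fun w => G n w - H n w) (measurable_G n)
    ((measurable_G n).sub (measurable_H n)) ?_ ?_ ?_ ?_ ?_
  · simpa only [add_sub_sub_cancel, add_sub_assoc, sub_sub_cancel] using hmain
  · intro w h1 w' h2 h
    have h3 := key w h1 w' h2 h
    have h4 : (n : ℝ) * th w ≤ n * th w' := by
      have : 0 ≤ (n : ℝ) * (w' - w) := mul_nonneg hn0.le (by linarith)
      linarith
    have h5 := log_sinh_growth (hx0.trans_le (hnn h1.1)) h4
    unfold G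
    linarith
  · intro w h1 w' h2 h
    have h3 := key w h1 w' h2 h
    have h4 : (n : ℝ) * th w ≤ n * th w' := by
      have : 0 ≤ (n : ℝ) * (w' - w) := mul_nonneg hn0.le (by linarith)
      linarith
    have hpw := hx0.trans_le (hnn h1.1)
    have h5 := log_tanh_mono hpw h4
    have h6 := log_tanh_low hpw
    have h7 : Real.log (Real.sinh (n * th w')) - Real.log (Real.cosh (n * th w')) ≤ 0 := by
      have h8 := Real.log_le_log (Real.sinh_pos_iff.2 (hpw.trans_le h4))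
        (Real.sinh_lt_cosh (n * th w')).le
      linarith
    have h9 : 1 / ((n : ℝ) * th w) ^ 2 ≤ 1 / n := by
      refine le_trans (one_div_le_one_div_of_le (by positivity) ?_) hx2
      exact pow_le_pow_left₀ hx0.le (hnn h1.1) 2
    unfold G H
    constructor <;> linarith
  · have h1 : (1 + (s1 - s0 + 1) - s0 + w1 + Real.log 4) / (th w0 / 2) ≤ n :=
      hN1.trans (by exact_mod_cast (show N1 ≤ n by omega))
    rw [div_le_iff₀ (by positivity)] at h1
    have h2 : Real.log (Real.sinh (n * th w1)) - Real.log (Real.cosh (n * th w1)) ≤ 0 := by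
      have h8 := Real.log_le_log (Real.sinh_pos_iff.2 (hx0.trans_le (hnn hw)))
        (Real.sinh_lt_cosh (n * th w1)).le
      linarith
    unfold G H
    nlinarith
  · have h1 : (1 - s0 + Real.log 4) / (th w0 / 2) ≤ n :=
      hN4.trans (by exact_mod_cast (show N4 ≤ n by omega))
    rw [div_le_iff₀ (by positivity)] at h1
    unfold G
    nlinarith
  · have h1 := log_sinh_high (hx0.trans_le (hnn hw))
    have h2 : 0 ≤ Real.log (Real.sinh (n * th w0)) := by
      refine Real.log_nonneg ?_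
      exact hx1.trans (Real.self_le_sinh_iff.2 hx0.le)
    unfold G
    linarith

/-- almost every point is in finitely many of the sets -/
theorem ae_log : ∀ᵐ z : ℝ × ℝ, 0 < z.1 →
    ∀ᶠ n : ℕ in atTop, ¬ (z.2 + G n z.1 ∈ A n ∧ z.2 + H n z.1 ∈ A n) := by
  have h : ∀ M : ℕ, ∀ᵐ z : ℝ × ℝ, ∀ᶠ n : ℕ in atTop, z ∉ {z : ℝ × ℝ |
      z.1 ∈ Icc (1 / ((M : ℝ) + 1)) ((M : ℝ) + 1) ∧ z.2 ∈ Icc (-(M : ℝ)) (M : ℝ) ∧
      z.2 + G n z.1 ∈ A n ∧ z.2 + H n z.1 ∈ A n} := by
    intro M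
    have hM : (0 : ℝ) ≤ M := Nat.cast_nonneg M
    obtain ⟨K, hK⟩ := box_bound (w0 := 1 / ((M : ℝ) + 1)) (w1 := (M : ℝ) + 1) (s0 := -(M : ℝ))
      (s1 := (M : ℝ)) (by positivity) (by
        rw [div_le_iff₀ (by positivity)]
        nlinarith) (by linarith)
    exact borel hK
  rw [← ae_all_iff] at h
  filter_upwards [h] with z hz h0
  obtain ⟨M1, hM1⟩ := exists_nat_ge z.1
  obtain ⟨M2, hM2⟩ := exists_nat_ge (1 / z.1)
  obtain ⟨M3, hM3⟩ := exists_nat_ge |z.2|
  have c1 : (0 : ℝ) ≤ M1 := Nat.cast_nonneg _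
  have c2 : (0 : ℝ) ≤ M2 := Nat.cast_nonneg _
  have c3 : (0 : ℝ) ≤ M3 := Nat.cast_nonneg _
  filter_upwards [hz (M1 + M2 + M3)] with n hn hcon
  refine hn ⟨⟨?_, ?_⟩, ⟨?_, ?_⟩, hcon⟩
  · rw [div_le_iff₀ (by positivity)]
    rw [div_le_iff₀ h0] at hM2
    push_cast
    nlinarith
  · push_cast; linarith
  · push_cast; linarith [(abs_le.1 hM3).1]
  · push_cast; linarith [(abs_le.1 hM3).2]

/-- graphs are null sets -/
lemma ae_graph {g : ℝ → ℝ} (hg : Measurable g) (c : ℝ) : ∀ᵐ z : ℝ × ℝ, z.2 + g z.1 ≠ c := by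
  have hm : MeasurableSet {z : ℝ × ℝ | z.2 + g z.1 = c} :=
    (measurable_snd.add (hg.comp measurable_fst)) (measurableSet_singleton c)
  have h0 : volume {z : ℝ × ℝ | z.2 + g z.1 = c} = 0 := by
    rw [Measure.volume_eq_prod, Measure.measure_prod_null hm]
    refine Eventually.of_forall fun w => ?_
    have : Prod.mk w ⁻¹' {z : ℝ × ℝ | z.2 + g z.1 = c} = {c - g w} := by
      ext s
      simp only [mem_preimage, mem_ofPred_eq, mem_singleton_iff]
      constructor <;> intro h <;> linarith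
    show volume (Prod.mk w ⁻¹' {z : ℝ × ℝ | z.2 + g z.1 = c}) = 0
    rw [this]
    simp
  rw [ae_iff]
  simpa using h0

/-- transport to the coordinates `D = exp (2 w)`, `N = exp (2 s)` -/
lemma ae_exp2 {Q : ℝ × ℝ → Prop} (h : ∀ᵐ z : ℝ × ℝ, Q z) :
    ∀ᵐ y : ℝ × ℝ, 0 < y.1 → 0 < y.2 → Q (Real.log y.1 / 2, Real.log y.2 / 2) := by
  rw [ae_iff] at h ⊢
  set φ : ℝ × ℝ → ℝ × ℝ := fun z => (Real.exp (2 * z.1), Real.exp (2 * z.2)) with hφ
  have hd : DifferentiableOn ℝ φ {z | ¬ Q z} := by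
    apply Differentiable.differentiableOn
    simp only [hφ]
    fun_prop
  have h1 := addHaar_image_eq_zero_of_differentiableOn_of_addHaar_eq_zero volume hd h
  refine measure_mono_null ?_ h1
  intro y hy
  simp only [mem_ofPred_eq, Classical.not_imp] at hy
  obtain ⟨h2, h3, h4⟩ := hy
  refine ⟨(Real.log y.1 / 2, Real.log y.2 / 2), h4, ?_⟩
  simp only [hφ]
  rw [mul_div_cancel₀ _ two_ne_zero, mul_div_cancel₀ _ two_ne_zero, Real.exp_log h2,
    Real.exp_log h3]

/-- the first coordinate -/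
noncomputable def PP (D N : ℝ) (n : ℕ) : ℝ :=
  Real.sqrt N * (((Real.sqrt (D - 1) + Real.sqrt D) ^ n + (Real.sqrt (D - 1) - Real.sqrt D) ^ n) / 2)

/-- the second coordinate -/
noncomputable def RR (D N : ℝ) (n : ℕ) : ℝ :=
  Real.sqrt N * (((Real.sqrt (D - 1) + Real.sqrt D) ^ n - (Real.sqrt (D - 1) - Real.sqrt D) ^ n) /
    (2 * Real.sqrt D))

lemma sqrt_exp {D : ℝ} (hD : 0 < D) : Real.exp (Real.log D / 2) = Real.sqrt D := by
  rw [← Real.log_sqrt hD.le, Real.exp_log (Real.sqrt_pos.2 hD)]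

lemma th_eq {D : ℝ} (hD : 1 < D) : Real.exp (th (Real.log D / 2)) = Real.sqrt (D - 1) + Real.sqrt D ∧
    Real.exp (-(th (Real.log D / 2))) = Real.sqrt D - Real.sqrt (D - 1) := by
  have h0 : 0 < D := by linarith
  have hw : 0 ≤ Real.log D / 2 := by
    have := Real.log_nonneg hD.le
    linarith
  obtain ⟨h1, h2⟩ := th_arg hw
  have e := sqrt_exp h0
  rw [e, Real.sq_sqrt h0.le] at h1 h2
  rw [Real.exp_neg, th, e, Real.sq_sqrt h0.le, Real.exp_log h1]
  exact ⟨add_comm _ _, h2⟩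

lemma PP_log {D N : ℝ} (hD : 1 < D) (hN : 0 < N) {n : ℕ} (hn : Odd n) :
    0 < PP D N n ∧ Real.log (PP D N n) = Real.log N / 2 + G n (Real.log D / 2) := by
  obtain ⟨e1, e2⟩ := th_eq hD
  have hw : 0 < Real.log D / 2 := by
    have := Real.log_pos hD
    linarith
  have ht := th_pos hw
  have hn0 : 0 < n := hn.pos
  have hn1 : (0 : ℝ) < n := by exact_mod_cast hn0
  have e3 : ((Real.sqrt (D - 1) + Real.sqrt D) ^ n + (Real.sqrt (D - 1) - Real.sqrt D) ^ n) / 2 =
      Real.sinh (n * th (Real.log D / 2)) := by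
    rw [show Real.sqrt (D - 1) - Real.sqrt D = -(Real.sqrt D - Real.sqrt (D - 1)) by ring, hn.neg_pow,
      ← e1, ← e2, ← Real.exp_nat_mul, ← Real.exp_nat_mul, Real.sinh_eq]
    ring_nf
  have h1 : 0 < Real.sinh (n * th (Real.log D / 2)) := Real.sinh_pos_iff.2 (by positivity)
  have h2 : 0 < Real.sqrt N := Real.sqrt_pos.2 hN
  unfold PP
  rw [e3]
  refine ⟨by positivity, ?_⟩
  rw [Real.log_mul h2.ne' h1.ne', Real.log_sqrt hN.le]
  rfl

lemma RR_log {D N : ℝ} (hD : 1 < D) (hN : 0 < N) {n : ℕ} (hn : Odd n) :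
    0 < RR D N n ∧ Real.log (RR D N n) = Real.log N / 2 + H n (Real.log D / 2) := by
  obtain ⟨e1, e2⟩ := th_eq hD
  have h0 : 0 < D := by linarith
  have e3 : ((Real.sqrt (D - 1) + Real.sqrt D) ^ n - (Real.sqrt (D - 1) - Real.sqrt D) ^ n) /
      (2 * Real.sqrt D) = Real.cosh (n * th (Real.log D / 2)) / Real.sqrt D := by
    rw [show Real.sqrt (D - 1) - Real.sqrt D = -(Real.sqrt D - Real.sqrt (D - 1)) by ring, hn.neg_pow,
      ← e1, ← e2, ← Real.exp_nat_mul, ← Real.exp_nat_mul, Real.cosh_eq]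
    have : 0 < Real.sqrt D := Real.sqrt_pos.2 h0
    field_simp
    ring_nf
  have h1 := Real.cosh_pos (n * th (Real.log D / 2))
  have h2 : 0 < Real.sqrt N := Real.sqrt_pos.2 hN
  have h3 : 0 < Real.sqrt D := Real.sqrt_pos.2 h0
  unfold RR
  rw [e3]
  refine ⟨by positivity, ?_⟩
  rw [Real.log_mul h2.ne' (by positivity), Real.log_div h1.ne' h3.ne', Real.log_sqrt hN.le,
    Real.log_sqrt h0.le]
  rfl

/-- **Both coordinates at once.** -/
theorem ae_both : ∀ᵐ y : ℝ × ℝ, 1 < y.1 → 0 < y.2 → {n : ℕ | n.Prime ∧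
    (roughPart n ⌊PP y.1 y.2 n⌋₊).Prime ∧ (roughPart n ⌊RR y.1 y.2 n⌋₊).Prime}.Finite := by
  have h1 : ∀ᵐ z : ℝ × ℝ, ∀ n m : ℕ, z.2 + G n z.1 ≠ Real.log m ∧ z.2 + H n z.1 ≠ Real.log m := by
    rw [ae_all_iff]
    intro n
    rw [ae_all_iff]
    intro m
    filter_upwards [ae_graph (measurable_G n) (Real.log m), ae_graph (measurable_H n) (Real.log m)]
      with z h1 h2
    exact ⟨h1, h2⟩
  filter_upwards [ae_exp2 (h1.and ae_log)] with y hy hD hN
  obtain ⟨h2, h3⟩ := hy (by linarith) hN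
  have hlogD : 0 < Real.log y.1 / 2 := by
    have := Real.log_pos hD
    linarith
  obtain ⟨M, hM⟩ := eventually_atTop.1 (h3 hlogD)
  refine (Set.finite_lt_nat (M + 3)).subset ?_
  rintro n ⟨hn, hp, hr⟩
  by_contra hlt
  have hlt : ¬ n < M + 3 := hlt
  push Not at hlt
  have hodd : Odd n := hn.odd_of_ne_two (by omega)
  obtain ⟨p1, p2⟩ := PP_log hD hN hodd
  obtain ⟨r1, r2⟩ := RR_log hD hN hodd
  refine hM n (by omega) ⟨?_, ?_⟩
  · rw [← p2]
    show ff n _ = 1
    rw [Pool.Agent.H447R2.ML.ff_eq_floor p1, if_pos hp]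
    intro m hm
    exact (h2 n m).1 (by rw [← p2, hm])
  · rw [← r2]
    show ff n _ = 1
    rw [Pool.Agent.H447R2.ML.ff_eq_floor r1, if_pos hr]
    intro m hm
    exact (h2 n m).2 (by rw [← r2, hm])

end Pool.Agent.X144.Pair
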