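import Mathlib

set_option autoImplicit false

namespace Pool.Agent.X144.Alt

open Filter Topology

variable {E : Type*}

/-- difference operator -/
def diff (A : Set E) (w : Set E → ℝ) : Set E → ℝ := fun K => w K - w (K ∪ A)

/-- iterated difference -/
def D : List (Set E) → (Set E → ℝ) → (Set E → ℝ)
  | [], w => w
  | A :: l, w => D l (diff A w)

/-- completely monotone (w.r.t. unions) on the class `p` -/
def CM (p : Set E → Prop) (w : Set E → ℝ) : Prop :=
  ∀ l : List (Set E), (∀ A ∈ l, p A) → ∀ K, p K → 0 ≤ D l w K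

lemma D_add (l : List (Set E)) : ∀ u w : Set E → ℝ, D l (fun K => u K + w K) =
    fun K => D l u K + D l w K := by
  induction l with
  | nil => intro u w; rfl
  | cons A l ih =>
    intro u w
    show D l (diff A fun K => u K + w K) = _
    have : (diff A fun K => u K + w K) = fun K => diff A u K + diff A w K := by
      funext K
      simp only [diff]
      ring
    rw [this, ih]
    rfl

lemma D_smul (l : List (Set E)) (c : ℝ) : ∀ w : Set E → ℝ, D l (fun K => c * w K) =
    fun K => c * D l w K := by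
  induction l with
  | nil => intro w; rfl
  | cons A l ih =>
    intro w
    show D l (diff A fun K => c * w K) = _
    have : (diff A fun K => c * w K) = fun K => c * diff A w K := by
      funext K
      simp only [diff]
      ring
    rw [this, ih]
    rfl

lemma D_shift (l : List (Set E)) (A : Set E) : ∀ w : Set E → ℝ, D l (fun K => w (K ∪ A)) =
    fun K => D l w (K ∪ A) := by
  induction l with
  | nil => intro w; rfl
  | cons B l ih =>
    intro w
    show D l (diff B fun K => w (K ∪ A)) = _
    have : (diff B fun K => w (K ∪ A)) = fun K => (diff B w) (K ∪ A) := by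
      funext K
      simp only [diff]
      rw [Set.union_right_comm]
    rw [this, ih]
    rfl

lemma D_zero (l : List (Set E)) : D l (fun _ => (0 : ℝ)) = fun _ => 0 := by
  induction l with
  | nil => rfl
  | cons B l ih =>
    show D l (diff B fun _ => 0) = _
    have : (diff B fun _ => (0 : ℝ)) = fun _ => 0 := by
      funext K
      simp [diff]
    rw [this, ih]

variable {p : Set E → Prop}

lemma CM.nonneg {w : Set E → ℝ} (h : CM p w) {K : Set E} (hK : p K) : 0 ≤ w K :=
  h [] (by simp) K hK

lemma CM.diff {w : Set E → ℝ} (h : CM p w) {A : Set E} (hA : p A) : CM p (diff A w) := by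
  intro l hl K hK
  exact h (A :: l) (by simpa using ⟨hA, hl⟩) K hK

lemma CM.shift (hp : ∀ A B, p A → p B → p (A ∪ B)) {w : Set E → ℝ} (h : CM p w) {A : Set E}
    (hA : p A) : CM p (fun K => w (K ∪ A)) := by
  intro l hl K hK
  rw [D_shift]
  exact h l hl _ (hp _ _ hK hA)

lemma CM.add {u w : Set E → ℝ} (hu : CM p u) (hw : CM p w) : CM p (fun K => u K + w K) := by
  intro l hl K hK
  rw [D_add]
  exact add_nonneg (hu l hl K hK) (hw l hl K hK)

lemma CM.smul {w : Set E → ℝ} (hw : CM p w) {c : ℝ} (hc : 0 ≤ c) : CM p (fun K => c * w K) := by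
  intro l hl K hK
  rw [D_smul]
  exact mul_nonneg hc (hw l hl K hK)

lemma CM.const {c : ℝ} (hc : 0 ≤ c) : CM p (fun _ : Set E => c) := by
  intro l hl K hK
  cases l with
  | nil => exact hc
  | cons A l =>
    show 0 ≤ D l (Alt.diff A fun _ => c) K
    have : (Alt.diff A fun _ => c) = fun _ => 0 := by
      funext K
      simp [Alt.diff]
    rw [this, D_zero]

lemma CM.mul (hp : ∀ A B, p A → p B → p (A ∪ B)) {u w : Set E → ℝ} (hu : CM p u) (hw : CM p w) :
    CM p (fun K => u K * w K) := by
  intro l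
  induction l generalizing u w with
  | nil => intro _ K hK; exact mul_nonneg (hu.nonneg hK) (hw.nonneg hK)
  | cons A l ih =>
    intro hl K hK
    have hA : p A := hl A (by simp)
    have hl' : ∀ B ∈ l, p B := fun B hB => hl B (by simp [hB])
    show 0 ≤ D l (Alt.diff A fun K => u K * w K) K
    have : (Alt.diff A fun K => u K * w K) =
        fun K => (u K * Alt.diff A w K) + (Alt.diff A u K * w (K ∪ A)) := by
      funext K
      simp only [Alt.diff]
      ring
    rw [this, D_add]
    exact add_nonneg (ih hu (hw.diff hA) hl' K hK) (ih (hu.diff hA) (hw.shift hp hA) hl' K hK)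

lemma CM.pow (hp : ∀ A B, p A → p B → p (A ∪ B)) {w : Set E → ℝ} (hw : CM p w) (n : ℕ) :
    CM p (fun K => w K ^ n) := by
  induction n with
  | zero => simpa using CM.const (p := p) zero_le_one
  | succ n ih =>
    have := ih.mul hp hw
    simpa only [pow_succ] using this

lemma CM.sum {w : ℕ → Set E → ℝ} (hw : ∀ n, CM p (w n)) (N : ℕ) :
    CM p (fun K => ∑ n ∈ Finset.range N, w n K) := by
  induction N with
  | zero => simpa using CM.const (p := p) le_rfl
  | succ N ih =>
    have := ih.add (hw N)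
    simpa only [Finset.sum_range_succ] using this

lemma D_tendsto (hp : ∀ A B, p A → p B → p (A ∪ B)) (l : List (Set E)) (hl : ∀ A ∈ l, p A) :
    ∀ (w : ℕ → Set E → ℝ) (v : Set E → ℝ), (∀ K, p K → Tendsto (fun n => w n K) atTop (𝓝 (v K))) →
    ∀ K, p K → Tendsto (fun n => D l (w n) K) atTop (𝓝 (D l v K)) := by
  induction l with
  | nil => intro w v h K hK; exact h K hK
  | cons A l ih =>
    intro w v h K hK
    have hA : p A := hl A (by simp)
    refine ih (fun B hB => hl B (by simp [hB])) (fun n => diff A (w n)) (diff A v) ?_ K hK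
    intro K' hK'
    exact (h K' hK').sub (h _ (hp _ _ hK' hA))

lemma CM.of_tendsto (hp : ∀ A B, p A → p B → p (A ∪ B)) {w : ℕ → Set E → ℝ} {v : Set E → ℝ}
    (hw : ∀ n, CM p (w n)) (h : ∀ K, p K → Tendsto (fun n => w n K) atTop (𝓝 (v K))) :
    CM p v := by
  intro l hl K hK
  exact ge_of_tendsto' (D_tendsto hp l hl w v h K hK) fun n => hw n l hl K hK

lemma D_congr (hp : ∀ A B, p A → p B → p (A ∪ B)) (l : List (Set E)) (hl : ∀ A ∈ l, p A) :
    ∀ (u v : Set E → ℝ), (∀ K, p K → u K = v K) → ∀ K, p K → D l u K = D l v K := by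
  induction l with
  | nil => intro u v h K hK; exact h K hK
  | cons A l ih =>
    intro u v h K hK
    have hA : p A := hl A (by simp)
    refine ih (fun B hB => hl B (by simp [hB])) (diff A u) (diff A v) ?_ K hK
    intro K' hK'
    simp only [diff]
    rw [h K' hK', h _ (hp _ _ hK' hA)]

lemma CM.congr (hp : ∀ A B, p A → p B → p (A ∪ B)) {u v : Set E → ℝ} (hu : CM p u)
    (h : ∀ K, p K → u K = v K) : CM p v := by
  intro l hl K hK
  rw [← D_congr hp l hl u v h K hK]
  exact hu l hl K hK

/-- reciprocals -/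
lemma CM.recip (hp : ∀ A B, p A → p B → p (A ∪ B)) {g : Set E → ℝ} (hg : CM p g) {C : ℝ}
    (hC : 0 < C) (hgC : ∀ K, p K → g K < C) : CM p (fun K => 1 / (C - g K)) := by
  refine CM.of_tendsto hp (w := fun N K => ∑ n ∈ Finset.range N, (1 / C ^ (n + 1)) * g K ^ n) ?_ ?_
  · intro N
    exact CM.sum (fun n => (hg.pow hp n).smul (by positivity)) N
  · intro K hK
    have h0 := hg.nonneg hK
    have h1 : HasSum (fun n : ℕ => (g K / C) ^ n) (1 - g K / C)⁻¹ := by
      apply hasSum_geometric_of_lt_one (by positivity)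
      rw [div_lt_one hC]
      exact hgC K hK
    have h2 := (h1.mul_left (1 / C)).tendsto_sum_nat
    have h3 : 1 / C * (1 - g K / C)⁻¹ = 1 / (C - g K) := by
      have : C - g K ≠ 0 := (sub_pos.2 (hgC K hK)).ne'
      have h4 : 1 - g K / C ≠ 0 := by
        rw [sub_ne_zero, ne_comm, Ne, div_eq_one_iff_eq hC.ne']
        exact (hgC K hK).ne
      field_simp
    rw [h3] at h2
    refine h2.congr fun N => Finset.sum_congr rfl fun n _ => ?_
    rw [div_pow, pow_succ]
    field_simp

/-- quotients -/
lemma CM.quot (hp : ∀ A B, p A → p B → p (A ∪ B)) {u h : Set E → ℝ} {m δ : ℝ} (hm : 0 ≤ m)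
    (hδ : 0 < δ) (hu : CM p u) (hh : CM p (fun K => m - h K)) (h0 : ∀ K, p K → 0 ≤ h K) :
    CM p (fun K => (u K + δ) / (h K + δ)) := by
  have h1 := hh.recip hp (C := m + δ) (by positivity) (fun K hK => by
    have := h0 K hK
    linarith)
  have h2 := (hu.add (CM.const hδ.le)).mul hp h1
  refine h2.congr hp fun K hK => ?_
  have : m + δ - (m - h K) = h K + δ := by ring
  rw [this]
  ring

/-- sum over subsets -/
lemma CM.powerset (hp : ∀ A B, p A → p B → p (A ∪ B)) {ι : Type*} (A : ι → Set E)
    (hA : ∀ i, p (A i)) (s : Finset ι) : ∀ {w : Set E → ℝ}, CM p w → ∀ K, p K →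
    0 ≤ ∑ I ∈ s.powerset, (-1 : ℝ) ^ I.card * w (K ∪ ⋃ i ∈ I, A i) := by
  classical
  induction s using Finset.induction_on with
  | empty =>
    intro w hw K hK
    simpa using hw.nonneg hK
  | insert a s ha ih =>
    intro w hw K hK
    rw [Finset.sum_powerset_insert ha, ← Finset.sum_add_distrib]
    refine (ih (hw.diff (hA a)) K hK).trans_eq ?_
    apply Finset.sum_congr rfl
    intro I hI
    have haI : a ∉ I := fun h => ha (Finset.mem_powerset.1 hI h)
    rw [Finset.card_insert_of_notMem haI]
    simp only [Alt.diff]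
    have : K ∪ ⋃ i ∈ insert a I, A i = (K ∪ ⋃ i ∈ I, A i) ∪ A a := by
      rw [Finset.set_biUnion_insert, Set.union_assoc, Set.union_comm (A a)]
    rw [this]
    ring

/-- the alternation inequalities for `1 - w` -/
lemma CM.alternating (hp : ∀ A B, p A → p B → p (A ∪ B)) {v : Set E → ℝ}
    (hv : CM p (fun K => 1 - v K)) {n : ℕ} (hn : 1 ≤ n) (A : Fin n → Set E) (hA : ∀ i, p (A i))
    (hcap : p (⋂ i, A i)) :
    v (⋂ i, A i) ≤ ∑ I ∈ Finset.univ.filter (fun I : Finset (Fin n) => I.Nonempty),
      (-1 : ℝ) ^ (I.card + 1) * v (⋃ i ∈ I, A i) := by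
  classical
  have h1 := CM.powerset hp A hA Finset.univ hv (⋂ i, A i) hcap
  rw [Finset.powerset_univ] at h1
  have h2 : ∑ I : Finset (Fin n), (-1 : ℝ) ^ I.card * (1 - v ((⋂ i, A i) ∪ ⋃ i ∈ I, A i)) =
      ∑ I : Finset (Fin n), (-1 : ℝ) ^ I.card -
      ∑ I : Finset (Fin n), (-1 : ℝ) ^ I.card * v ((⋂ i, A i) ∪ ⋃ i ∈ I, A i) := by
    rw [← Finset.sum_sub_distrib]
    apply Finset.sum_congr rfl
    intro I _
    ring
  have h3 : ∑ I : Finset (Fin n), (-1 : ℝ) ^ I.card = 0 := by
    have := Finset.sum_powerset_neg_one_pow_card_of_nonempty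
      (x := (Finset.univ : Finset (Fin n))) ⟨⟨0, hn⟩, Finset.mem_univ _⟩
    rw [Finset.powerset_univ] at this
    exact_mod_cast this
  rw [h2, h3, zero_sub] at h1
  have h4 : ∑ I : Finset (Fin n), (-1 : ℝ) ^ I.card * v ((⋂ i, A i) ∪ ⋃ i ∈ I, A i) =
      v (⋂ i, A i) + ∑ I ∈ Finset.univ.filter (fun I : Finset (Fin n) => I.Nonempty),
      (-1 : ℝ) ^ I.card * v (⋃ i ∈ I, A i) := by
    rw [← Finset.sum_filter_add_sum_filter_not Finset.univ
      (fun I : Finset (Fin n) => I.Nonempty), add_comm]
    congr 1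
    · have : (Finset.univ.filter fun I : Finset (Fin n) => ¬ I.Nonempty) = {∅} := by
        ext I
        simp
      rw [this]
      simp
    · apply Finset.sum_congr rfl
      intro I hI
      rw [Finset.mem_filter] at hI
      obtain ⟨i, hi⟩ := hI.2
      congr 2
      apply Set.union_eq_right.2
      refine (Set.iInter_subset _ i).trans ?_
      exact Set.subset_biUnion_of_mem (u := fun i => A i) (by exact hi)
  rw [h4] at h1
  have h5 : ∑ I ∈ Finset.univ.filter (fun I : Finset (Fin n) => I.Nonempty),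
      (-1 : ℝ) ^ (I.card + 1) * v (⋃ i ∈ I, A i) =
      - ∑ I ∈ Finset.univ.filter (fun I : Finset (Fin n) => I.Nonempty),
      (-1 : ℝ) ^ I.card * v (⋃ i ∈ I, A i) := by
    rw [← Finset.sum_neg_distrib]
    apply Finset.sum_congr rfl
    intro I _
    ring
  rw [h5]
  linarith

/-- maxitive functions -/
lemma CM.maxitive {h : Set E → ℝ} (hh : ∀ A B, p A → p B → h (A ∪ B) = max (h A) (h B))
    (hp : ∀ A B, p A → p B → p (A ∪ B)) (a : ℝ) : CM p (fun K => max (a - h K) 0) := by
  intro l
  induction l generalizing a with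
  | nil => intro _ K _; exact le_max_right _ _
  | cons A l ih =>
    intro hl K hK
    have hA : p A := hl A (by simp)
    have hl' : ∀ B ∈ l, p B := fun B hB => hl B (by simp [hB])
    show 0 ≤ D l (Alt.diff A fun K => max (a - h K) 0) K
    have h1 := ih (min a (h A)) hl' K hK
    refine h1.trans_eq ?_
    apply D_congr hp l hl' _ _ _ K hK
    intro K' hK'
    simp only [Alt.diff]
    rw [hh K' A hK' hA]
    rcases le_total a (h A) with h2 | h2 <;> rcases le_total (h K') (h A) with h3 | h3
    · rw [min_eq_left h2, max_eq_right h3, max_eq_right (a := a - h A) (by linarith), sub_zero]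
    · rw [min_eq_left h2, max_eq_left h3, sub_self, max_eq_right (by linarith)]
    · rw [min_eq_right h2, max_eq_right h3, max_eq_left (by linarith), max_eq_left (by linarith),
        max_eq_left (by linarith)]
      ring
    · rw [min_eq_right h2, max_eq_left h3, sub_self, max_eq_right (by linarith)]

lemma CM.maxitive' {h : Set E → ℝ} (hh : ∀ A B, p A → p B → h (A ∪ B) = max (h A) (h B))
    (hp : ∀ A B, p A → p B → p (A ∪ B)) {a : ℝ} (ha : ∀ K, p K → h K ≤ a) :
    CM p (fun K => a - h K) := by
  refine (CM.maxitive hh hp a).congr hp fun K hK => ?_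
  exact max_eq_left (sub_nonneg.2 (ha K hK))

end Pool.Agent.X144.Alt
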