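import Mathlib

set_option autoImplicit false

namespace Pool.Agent.X144.Alt

open MeasureTheory
open scoped ENNReal NNReal

/-- The set function `v` is `n`-alternating (on the measurable sets). -/
def IsAlternating {E : Type*} [MeasurableSpace E] (n : ℕ) (v : Set E → ℝ) : Prop :=
  ∀ A : Fin n → Set E, (∀ i, MeasurableSet (A i)) →
    v (⋂ i, A i) ≤ ∑ I ∈ Finset.univ.filter (fun I : Finset (Fin n) => I.Nonempty),
      (-1 : ℝ) ^ (I.card + 1) * v (⋃ i ∈ I, A i)

/-- The supremum `M(A)` of the likelihood over `A` (`0` if `A` is empty, possibly `∞`). -/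
noncomputable def supL {E : Type*} (L : E → ℝ≥0) (A : Set E) : ℝ≥0∞ := ⨆ x ∈ A, (L x : ℝ≥0∞)

/-- The posterior upper probability `v_y(A)` of the `ε`-contamination model:
`((1-ε) m(A) + ε M(A)) / ((1-ε) m(E) + ε M(A))`, with the limiting value `1` if `M(A) = ∞`. -/
noncomputable def vEps {E : Type*} [MeasurableSpace E] (ε : ℝ) (P : Measure E) (L : E → ℝ≥0)
    (A : Set E) : ℝ := open Classical in
  if supL L A = ∞ then 1 else
    ((1 - ε) * (∫⁻ x in A, L x ∂P).toReal + ε * (supL L A).toReal) /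
      ((1 - ε) * (∫⁻ x, L x ∂P).toReal + ε * (supL L A).toReal)

/-- `s(A) = E[sup_{x ∈ X ∩ A} L(x)]` -/
noncomputable def sRS {Ω E : Type*} [MeasurableSpace Ω] (P : Measure Ω) (X : Ω → Set E)
    (L : E → ℝ≥0) (A : Set E) : ℝ≥0∞ := ∫⁻ ω, ⨆ x ∈ X ω ∩ A, (L x : ℝ≥0∞) ∂P

/-- `t(A) = E[inf_{x ∈ X} L(x) 1{X ∩ A = ∅}]` -/
noncomputable def tRS {Ω E : Type*} [MeasurableSpace Ω] (P : Measure Ω) (X : Ω → Set E)
    (L : E → ℝ≥0) (A : Set E) : ℝ≥0∞ := open Classical in
  ∫⁻ ω, (if X ω ∩ A = ∅ then ⨅ x ∈ X ω, (L x : ℝ≥0∞) else 0) ∂P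

/-- The posterior upper probability `v_y(A) = s(A) / (s(A) + t(A))` for the family of the
distributions of the selections of `X`, with the limiting value `1` if `s(A) = ∞`. -/
noncomputable def vRS {Ω E : Type*} [MeasurableSpace Ω] (P : Measure Ω) (X : Ω → Set E)
    (L : E → ℝ≥0) (A : Set E) : ℝ := open Classical in
  if sRS P X L A = ∞ then 1 else
    (sRS P X L A).toReal / ((sRS P X L A).toReal + (tRS P X L A).toReal)

/-- `X` is a random closed set with nonempty values: all values are closed and nonempty, and the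
event `X ∩ K ≠ ∅` is measurable for every compact set `K`. -/
structure IsRandomClosedSet {Ω E : Type*} [MeasurableSpace Ω] [TopologicalSpace E]
    (X : Ω → Set E) : Prop where
  closed : ∀ ω, IsClosed (X ω)
  nonempty : ∀ ω, (X ω).Nonempty
  meas : ∀ K : Set E, IsCompact K → MeasurableSet {ω | (X ω ∩ K).Nonempty}

end Pool.Agent.X144.Alt
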