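import Pool.Agent.X144.AltCore

set_option autoImplicit false

namespace Pool.Agent.X144.Alt

open Filter Topology MeasureTheory
open scoped ENNReal NNReal

/-- `s / (s + t)` with the value `1` for `s = ∞` and `0` for `s = t = 0` -/
noncomputable def V (s t : ℝ≥0∞) : ℝ := open Classical in
  if s = ∞ then 1 else s.toReal / (s.toReal + t.toReal)

lemma V_lim {s t : ℝ≥0∞} {a b : ℕ → ℝ≥0∞} (ht : t ≠ ∞) (ha : Tendsto a atTop (𝓝 s))
    (hb : Tendsto b atTop (𝓝 t)) (has : ∀ m, a m ≤ s) (hbt : ∀ m, b m ≤ t) (hatop : ∀ m, a m ≠ ∞)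
    {δ : ℕ → ℝ} (hδ : ∀ m, 0 < δ m) (hδ0 : Tendsto δ atTop (𝓝 0)) :
    Tendsto (fun m => ((b m).toReal + δ m) / (((a m).toReal + (b m).toReal) + δ m)) atTop
      (𝓝 (1 - V s t)) := by
  have hb' : Tendsto (fun m => (b m).toReal) atTop (𝓝 t.toReal) :=
    (ENNReal.tendsto_toReal ht).comp hb
  by_cases hs : s = ∞
  · rw [V, if_pos hs, sub_self]
    subst hs
    have h1 : Tendsto (fun m => (a m).toReal) atTop atTop := by
      rw [ENNReal.tendsto_nhds_top_iff_nnreal] at ha
      rw [tendsto_atTop]
      intro r
      filter_upwards [ha r.toNNReal] with m hm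
      have h2 : ((r.toNNReal : ℝ≥0∞)).toReal ≤ (a m).toReal :=
        ENNReal.toReal_mono (hatop m) hm.le
      exact (Real.le_coe_toNNReal r).trans h2
    have hnum : Tendsto (fun m => (b m).toReal + δ m) atTop (𝓝 (t.toReal + 0)) := hb'.add hδ0
    have hden : Tendsto (fun m => ((a m).toReal + (b m).toReal) + δ m) atTop atTop := by
      refine tendsto_atTop_mono (fun m => ?_) h1
      have := hδ m
      have h3 : 0 ≤ (b m).toReal := ENNReal.toReal_nonneg
      linarith
    exact hnum.div_atTop hden
  · rw [V, if_neg hs]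
    have ha' : Tendsto (fun m => (a m).toReal) atTop (𝓝 s.toReal) :=
      (ENNReal.tendsto_toReal hs).comp ha
    rcases eq_or_ne (s.toReal + t.toReal) 0 with h0 | h0
    · have hs0 : s = 0 := by
        have h1 : s.toReal = 0 := le_antisymm (by
          have : 0 ≤ t.toReal := ENNReal.toReal_nonneg
          linarith) ENNReal.toReal_nonneg
        rcases (ENNReal.toReal_eq_zero_iff _).1 h1 with h | h
        · exact h
        · exact absurd h hs
      have ht0 : t = 0 := by
        have h1 : t.toReal = 0 := le_antisymm (by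
          have : 0 ≤ s.toReal := ENNReal.toReal_nonneg
          linarith) ENNReal.toReal_nonneg
        rcases (ENNReal.toReal_eq_zero_iff _).1 h1 with h | h
        · exact h
        · exact absurd h ht
      rw [h0, div_zero, sub_zero]
      refine tendsto_const_nhds.congr fun m => ?_
      have h2 : a m = 0 := le_antisymm ((has m).trans_eq hs0) (zero_le)
      have h3 : b m = 0 := le_antisymm ((hbt m).trans_eq ht0) (zero_le)
      rw [h2, h3]
      simp only [ENNReal.toReal_zero, zero_add]
      rw [div_self (hδ m).ne']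
    · have h1 : (1 : ℝ) - s.toReal / (s.toReal + t.toReal) =
          (t.toReal + 0) / ((s.toReal + t.toReal) + 0) := by
        rw [add_zero, add_zero]
        field_simp
        ring
      rw [h1]
      refine (hb'.add hδ0).div ((ha'.add hb').add hδ0) ?_
      rwa [add_zero]

end Pool.Agent.X144.Alt
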