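import Pool.Agent.X144.AltDefs
import Pool.Agent.X144.AltLim

set_option autoImplicit false

namespace Pool.Agent.X144.Alt

open Filter Topology MeasureTheory
open scoped ENNReal NNReal

variable {E : Type*} [MeasurableSpace E]

lemma hpM : ∀ A B : Set E, MeasurableSet A → MeasurableSet B → MeasurableSet (A ∪ B) :=
  fun _ _ hA hB => hA.union hB

/-- complements of measures are completely monotone -/
lemma CM.compl (ν : Measure E) [IsFiniteMeasure ν] :
    CM MeasurableSet (fun K => ν.real Kᶜ) := by
  intro l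
  induction l generalizing ν with
  | nil => intro _ K _; exact measureReal_nonneg
  | cons A l ih =>
    intro hl K hK
    have hA : MeasurableSet A := hl A (by simp)
    have hl' : ∀ B ∈ l, MeasurableSet B := fun B hB => hl B (by simp [hB])
    show 0 ≤ D l (Alt.diff A fun K => ν.real Kᶜ) K
    have h1 := ih (ν.restrict A) hl' K hK
    refine h1.trans_eq ?_
    apply D_congr hpM l hl' _ _ _ K hK
    intro K' hK'
    simp only [Alt.diff]
    rw [measureReal_restrict_apply hK'.compl]
    have h2 : ν.real (K'ᶜ ∩ A) + ν.real (K'ᶜ \ A) = ν.real K'ᶜ := measureReal_inter_add_sdiff hA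
    have h3 : K'ᶜ \ A = (K' ∪ A)ᶜ := by
      rw [Set.compl_union]
      rfl
    rw [h3] at h2
    linarith

lemma supL_union (L : E → ℝ≥0) (A B : Set E) : supL L (A ∪ B) = max (supL L A) (supL L B) := by
  unfold supL
  rw [iSup_union]

lemma toReal_min_max (a b : ℝ≥0∞) (m : ℕ) :
    (min (max a b) m).toReal = max (min a m).toReal (min b m).toReal := by
  rw [min_max_distrib_right]
  exact ENNReal.toReal_max (ne_top_of_le_ne_top (ENNReal.natCast_ne_top m) (min_le_right _ _))
    (ne_top_of_le_ne_top (ENNReal.natCast_ne_top m) (min_le_right _ _))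

theorem eps_CM (ε : ℝ) (hε0 : 0 < ε) (hε1 : ε < 1) (P : Measure E) (L : E → ℝ≥0)
    (hfin : ∫⁻ x, L x ∂P ≠ ∞) : CM MeasurableSet (fun K => 1 - vEps ε P L K) := by
  have hε2 : 0 ≤ 1 - ε := by linarith
  set ν : Measure E := P.withDensity (fun x => (L x : ℝ≥0∞)) with hν
  have hνfin : IsFiniteMeasure ν := by
    constructor
    rw [hν, withDensity_apply _ MeasurableSet.univ, Measure.restrict_univ]
    exact lt_top_iff_ne_top.2 hfin
  have hνA : ∀ A, MeasurableSet A → ν A = ∫⁻ x in A, L x ∂P := fun A hA =>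
    withDensity_apply _ hA
  have hνu : ν Set.univ = ∫⁻ x, L x ∂P := by
    rw [hνA _ MeasurableSet.univ, Measure.restrict_univ]
  let δ : ℕ → ℝ := fun m => 1 / ((m : ℝ) + 1)
  let h : ℕ → Set E → ℝ := fun m K => (1 - ε) * ν.real Set.univ + ε * (min (supL L K) m).toReal
  let u : Set E → ℝ := fun K => (1 - ε) * ν.real Kᶜ
  have hw : ∀ m : ℕ, CM MeasurableSet (fun K => (u K + δ m) / (h m K + δ m)) := by
    intro m
    have hmr : ∀ K, (min (supL L K) m).toReal ≤ m := by
      intro K
      have := ENNReal.toReal_mono (ENNReal.natCast_ne_top m) (min_le_right (supL L K) m)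
      simpa using this
    refine CM.quot hpM (m := (1 - ε) * ν.real Set.univ + ε * m) (by positivity) (by positivity)
      ((CM.compl ν).smul hε2) ?_ ?_
    · apply CM.maxitive' _ hpM
      · intro K _
        have := hmr K
        show (1 - ε) * ν.real Set.univ + ε * (min (supL L K) m).toReal ≤ _
        gcongr
      · intro A B _ _
        show (1 - ε) * ν.real Set.univ + ε * (min (supL L (A ∪ B)) m).toReal =
          max ((1 - ε) * ν.real Set.univ + ε * (min (supL L A) m).toReal)
            ((1 - ε) * ν.real Set.univ + ε * (min (supL L B) m).toReal)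
        rw [supL_union, toReal_min_max, max_add_add_left, mul_max_of_nonneg _ _ hε0.le]
    · intro K _
      show 0 ≤ (1 - ε) * ν.real Set.univ + ε * (min (supL L K) m).toReal
      have : 0 ≤ (min (supL L K) m).toReal := ENNReal.toReal_nonneg
      have h2 : 0 ≤ ν.real Set.univ := measureReal_nonneg
      positivity
  refine CM.of_tendsto hpM hw ?_
  intro K hK
  -- apply the limit lemma
  set e1 : ℝ≥0∞ := ENNReal.ofReal (1 - ε) with he1
  set e2 : ℝ≥0∞ := ENNReal.ofReal ε with he2
  have he1r : e1.toReal = 1 - ε := ENNReal.toReal_ofReal hε2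
  have he2r : e2.toReal = ε := ENNReal.toReal_ofReal hε0.le
  have he20 : e2 ≠ 0 := by
    rw [he2]
    exact (ENNReal.ofReal_pos.2 hε0).ne'
  have he1t : e1 ≠ ∞ := ENNReal.ofReal_ne_top
  have he2t : e2 ≠ ∞ := ENNReal.ofReal_ne_top
  let s : ℝ≥0∞ := e1 * ν K + e2 * supL L K
  let t : ℝ≥0∞ := e1 * ν Kᶜ
  let a : ℕ → ℝ≥0∞ := fun m => e1 * ν K + e2 * min (supL L K) m
  have hminlim : Tendsto (fun m : ℕ => min (supL L K) (m : ℝ≥0∞)) atTop (𝓝 (supL L K)) := by
    have h1 : Tendsto (fun m : ℕ => min (supL L K) (m : ℝ≥0∞)) atTop (𝓝 (min (supL L K) ∞)) :=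
      tendsto_const_nhds.min ENNReal.tendsto_nat_nhds_top
    rwa [min_eq_left le_top] at h1
  have hmt : ∀ m : ℕ, min (supL L K) (m : ℝ≥0∞) ≠ ∞ := fun m =>
    ne_top_of_le_ne_top (ENNReal.natCast_ne_top m) (min_le_right _ _)
  have hlim := V_lim (s := s) (t := t) (a := a) (b := fun _ => t) (δ := δ)
    (ENNReal.mul_ne_top he1t (measure_ne_top _ _))
    (tendsto_const_nhds.add (ENNReal.Tendsto.const_mul hminlim (Or.inr he2t)))
    tendsto_const_nhds
    (fun m => by
      show e1 * ν K + e2 * min (supL L K) m ≤ e1 * ν K + e2 * supL L K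
      gcongr
      exact min_le_left _ _)
    (fun m => le_rfl)
    (fun m => ENNReal.add_ne_top.2 ⟨ENNReal.mul_ne_top he1t (measure_ne_top _ _),
      ENNReal.mul_ne_top he2t (hmt m)⟩)
    (fun m => by positivity)
    (tendsto_one_div_add_atTop_nhds_zero_nat)
  have hV : V s t = vEps ε P L K := by
    unfold V vEps
    have hst : s = ∞ ↔ supL L K = ∞ := by
      show e1 * ν K + e2 * supL L K = ∞ ↔ _
      rw [ENNReal.add_eq_top]
      constructor
      · rintro (h1 | h1)
        · exact absurd h1 (ENNReal.mul_ne_top he1t (measure_ne_top _ _))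
        · by_contra h2
          exact ENNReal.mul_ne_top he2t h2 h1
      · intro h1
        right
        rw [h1, ENNReal.mul_top he20]
    by_cases hs : supL L K = ∞
    · rw [if_pos (hst.2 hs), if_pos hs]
    · rw [if_neg (fun h1 => hs (hst.1 h1)), if_neg hs]
      have h1 : s.toReal = (1 - ε) * (∫⁻ x in K, L x ∂P).toReal + ε * (supL L K).toReal := by
        show (e1 * ν K + e2 * supL L K).toReal = _
        rw [ENNReal.toReal_add (ENNReal.mul_ne_top he1t (measure_ne_top _ _))
          (ENNReal.mul_ne_top he2t hs), ENNReal.toReal_mul, ENNReal.toReal_mul, he1r, he2r,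
          hνA K hK]
      have h2 : s.toReal + t.toReal =
          (1 - ε) * (∫⁻ x, L x ∂P).toReal + ε * (supL L K).toReal := by
        rw [h1]
        show _ + (e1 * ν Kᶜ).toReal = _
        rw [ENNReal.toReal_mul, he1r, ← hνA K hK, ← hνu]
        have h3 := measureReal_add_measureReal_compl (μ := ν) hK
        simp only [Measure.real] at h3
        rw [← h3]
        ring
      rw [h2, h1]
  rw [hV] at hlim
  refine hlim.congr fun m => ?_
  have h3 : ((fun _ => t : ℕ → ℝ≥0∞) m).toReal = u K := by
    show (e1 * ν Kᶜ).toReal = (1 - ε) * ν.real Kᶜ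
    rw [ENNReal.toReal_mul, he1r]
    rfl
  have h4 : (a m).toReal + u K = h m K := by
    show (e1 * ν K + e2 * min (supL L K) m).toReal + (1 - ε) * ν.real Kᶜ = _
    rw [ENNReal.toReal_add (ENNReal.mul_ne_top he1t (measure_ne_top _ _))
      (ENNReal.mul_ne_top he2t (hmt m)), ENNReal.toReal_mul, ENNReal.toReal_mul, he1r, he2r]
    have h3 := measureReal_add_measureReal_compl (μ := ν) hK
    simp only [Measure.real] at h3
    show _ = (1 - ε) * (ν Set.univ).toReal + ε * (min (supL L K) m).toReal
    rw [← h3]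
    simp only [Measure.real]
    ring
  rw [h3, h4]

theorem eps_alternating (ε : ℝ) (hε0 : 0 < ε) (hε1 : ε < 1) (P : Measure E) (L : E → ℝ≥0)
    (hfin : ∫⁻ x, L x ∂P ≠ ∞) (n : ℕ) (hn : 1 ≤ n) : IsAlternating n (vEps ε P L) := by
  intro A hA
  exact CM.alternating hpM (eps_CM ε hε0 hε1 P L hfin) hn A hA (MeasurableSet.iInter hA)

end Pool.Agent.X144.Alt
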