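import Pool.Agent.X144.AltDefs
import Pool.Agent.H217R3.Beer.Ana

set_option autoImplicit false

namespace Pool.Agent.X144.Alt

open Filter Topology MeasureTheory TopologicalSpace
open scoped ENNReal NNReal

/-- closed set coded by `c` -/
def dec {E : Type*} (U : ℕ → Set E) (c : ℕ → Bool) : Set E := {x | ∀ n, x ∈ U n → c n = false}

section
variable {E : Type*} [TopologicalSpace E] [LocallyCompactSpace E] [SecondCountableTopology E]
  [T2Space E] [MeasurableSpace E] [BorelSpace E]

lemma analytic_hit (U : ℕ → Set E) (hU : ∀ n, MeasurableSet (U n)) {B : Set E}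
    (hB : MeasurableSet B) : AnalyticSet {c : ℕ → Bool | ∃ x ∈ B, x ∈ dec U c} := by
  classical
  have : MetrizableSpace E := metrizableSpace_of_t3_secondCountable E
  let _ : MetricSpace E := metrizableSpaceMetric E
  have hcover := iUnion_compactCovering E
  have hset : {c : ℕ → Bool | ∃ x ∈ B, x ∈ dec U c} =
      ⋃ m : ℕ, (Prod.fst : (ℕ → Bool) × compactCovering E m → (ℕ → Bool)) ''
        {q | (q.2 : E) ∈ B ∧ (q.2 : E) ∈ dec U q.1} := by
    ext c
    simp only [Set.mem_iUnion, Set.mem_image, Set.mem_ofPred_eq]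
    constructor
    · rintro ⟨x, hx1, hx2⟩
      have hx : x ∈ ⋃ m, compactCovering E m := by rw [hcover]; exact Set.mem_univ x
      obtain ⟨m, hm⟩ := Set.mem_iUnion.1 hx
      exact ⟨m, (c, ⟨x, hm⟩), ⟨hx1, hx2⟩, rfl⟩
    · rintro ⟨m, q, ⟨h1, h2⟩, rfl⟩
      exact ⟨q.2, h1, h2⟩
  rw [hset]
  refine AnalyticSet.iUnion fun m => ?_
  have : CompactSpace (compactCovering E m) :=
    isCompact_iff_compactSpace.1 (isCompact_compactCovering E m)
  have : PolishSpace (compactCovering E m) := inferInstance
  refine MeasurableSet.analyticSet_image ?_ measurable_fst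
  have h1 : MeasurableSet {q : (ℕ → Bool) × compactCovering E m | (q.2 : E) ∈ B} :=
    (measurable_subtype_coe.comp measurable_snd) hB
  have h2 : MeasurableSet {q : (ℕ → Bool) × compactCovering E m | (q.2 : E) ∈ dec U q.1} := by
    have : {q : (ℕ → Bool) × compactCovering E m | (q.2 : E) ∈ dec U q.1} =
        ⋂ n, ({q : (ℕ → Bool) × compactCovering E m | (q.2 : E) ∈ U n}ᶜ ∪
          {q : (ℕ → Bool) × compactCovering E m | q.1 n = false}) := by
      ext q
      simp only [dec, Set.mem_ofPred_eq, Set.mem_iInter, Set.mem_union, Set.mem_compl_iff]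
      exact forall_congr' fun n => by tauto
    rw [this]
    refine MeasurableSet.iInter fun n => MeasurableSet.union ?_ ?_
    · exact ((measurable_subtype_coe.comp measurable_snd) (hU n)).compl
    · have h5 : Measurable (fun q : (ℕ → Bool) × compactCovering E m => q.1 n) :=
        (measurable_pi_apply n).comp measurable_fst
      exact h5 (MeasurableSet.singleton false)
  exact h1.inter h2

variable {Ω : Type*} [MeasurableSpace Ω]

lemma IsRandomClosedSet.meas_open {X : Ω → Set E} (hX : IsRandomClosedSet X) {G : Set E}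
    (hG : IsOpen G) : MeasurableSet {ω | (X ω ∩ G).Nonempty} := by
  have : MetrizableSpace E := metrizableSpace_of_t3_secondCountable E
  let _ : MetricSpace E := metrizableSpaceMetric E
  obtain ⟨F, hF1, hF2, hF3, hF4⟩ := hG.exists_iUnion_isClosed
  have : {ω | (X ω ∩ G).Nonempty} =
      ⋃ n, ⋃ m, {ω | (X ω ∩ (F n ∩ compactCovering E m)).Nonempty} := by
    ext ω
    simp only [Set.mem_iUnion, Set.mem_ofPred_eq]
    constructor
    · rintro ⟨x, hx1, hx2⟩
      rw [← hF3] at hx2
      obtain ⟨n, hn⟩ := Set.mem_iUnion.1 hx2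
      have hx : x ∈ ⋃ m, compactCovering E m := by
        rw [iUnion_compactCovering E]; exact Set.mem_univ x
      obtain ⟨m, hm⟩ := Set.mem_iUnion.1 hx
      exact ⟨n, m, x, hx1, hn, hm⟩
    · rintro ⟨n, m, x, hx1, hn, hm⟩
      refine ⟨x, hx1, ?_⟩
      rw [← hF3]
      exact Set.mem_iUnion.2 ⟨n, hn⟩
  rw [this]
  refine MeasurableSet.iUnion fun n => MeasurableSet.iUnion fun m => ?_
  exact hX.meas _ ((isCompact_compactCovering E m).inter_left (hF1 n))

/-- hitting events of Borel sets are null measurable -/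
lemma IsRandomClosedSet.nullMeas {X : Ω → Set E} (hX : IsRandomClosedSet X) (P : Measure Ω)
    [IsFiniteMeasure P] {B : Set E} (hB : MeasurableSet B) :
    NullMeasurableSet {ω | (X ω ∩ B).Nonempty} P := by
  classical
  obtain ⟨b, hbc, -, hb⟩ := exists_countable_basis E
  rcases isEmpty_or_nonempty E with hE | hE
  · have : {ω | (X ω ∩ B).Nonempty} = ∅ := by
      ext ω
      simp only [Set.mem_ofPred_eq, Set.mem_empty_iff_false, iff_false]
      rintro ⟨x, _⟩
      exact hE.elim x
    rw [this]
    exact MeasurableSet.empty.nullMeasurableSet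
  obtain ⟨x0⟩ := hE
  have hbne : b.Nonempty := by
    obtain ⟨v, hv, _, _⟩ := hb.exists_subset_of_mem_open (Set.mem_univ x0) isOpen_univ
    exact ⟨v, hv⟩
  obtain ⟨U, hU⟩ := hbc.exists_eq_range hbne
  have hUo : ∀ n, IsOpen (U n) := fun n => hb.isOpen (by rw [hU]; exact ⟨n, rfl⟩)
  let code : Ω → ℕ → Bool := fun ω n => !decide ((X ω ∩ U n).Nonempty)
  have hcode : Measurable code := by
    refine measurable_pi_lambda _ fun n => ?_
    have h1 := hX.meas_open (hUo n)
    refine measurable_to_bool ?_
    have : (fun ω => code ω n) ⁻¹' {true} = {ω | (X ω ∩ U n).Nonempty}ᶜ := by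
      ext ω
      simp [code]
    rw [this]
    exact h1.compl
  have hdec : ∀ ω, dec U (code ω) = X ω := by
    intro ω
    ext x
    constructor
    · intro hx
      by_contra hxX
      obtain ⟨v, hv, hxv, hvX⟩ := hb.exists_subset_of_mem_open
        (show x ∈ (X ω)ᶜ from hxX) (hX.closed ω).isOpen_compl
      rw [hU] at hv
      obtain ⟨n, rfl⟩ := hv
      have h1 := hx n hxv
      simp only [code, Bool.not_eq_false', decide_eq_true_eq] at h1
      obtain ⟨y, hy1, hy2⟩ := h1
      exact hvX hy2 hy1
    · intro hx n hxn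
      simp only [code, Bool.not_eq_false', decide_eq_true_eq]
      exact ⟨x, hx, hxn⟩
  have hset : {ω | (X ω ∩ B).Nonempty} = code ⁻¹' {c : ℕ → Bool | ∃ x ∈ B, x ∈ dec U c} := by
    ext ω
    simp only [Set.mem_ofPred_eq, Set.mem_preimage]
    rw [hdec]
    constructor
    · rintro ⟨x, h1, h2⟩
      exact ⟨x, h2, h1⟩
    · rintro ⟨x, h2, h1⟩
      exact ⟨x, h1, h2⟩
  rw [hset]
  have h1 := Pool.Agent.H217R3.Beer.analytic_null (P.map code) _
    (analytic_hit U (fun n => (hUo n).measurableSet) hB)
  exact h1.preimage (hcode.quasiMeasurePreserving P)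

end

end Pool.Agent.X144.Alt
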