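import Pool.Agent.X144.AltMeas
import Pool.Agent.X144.AltLim
import Pool.Agent.X144.AltEps

set_option autoImplicit false

namespace Pool.Agent.X144.Alt

open Filter Topology MeasureTheory TopologicalSpace
open scoped ENNReal NNReal

section expect
variable {E Ω : Type*} [MeasurableSpace Ω] {p : Set E → Prop}

lemma D_integrable (P : Measure Ω) (hp : ∀ A B, p A → p B → p (A ∪ B)) (l : List (Set E))
    (hl : ∀ A ∈ l, p A) : ∀ (w : Ω → Set E → ℝ), (∀ K, p K → Integrable (fun ω => w ω K) P) →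
    ∀ K, p K → Integrable (fun ω => D l (w ω) K) P ∧
      D l (fun K => ∫ ω, w ω K ∂P) K = ∫ ω, D l (w ω) K ∂P := by
  induction l with
  | nil => intro w hw K hK; exact ⟨hw K hK, rfl⟩
  | cons A l ih =>
    intro w hw K hK
    have hA : p A := hl A (by simp)
    have hl' : ∀ B ∈ l, p B := fun B hB => hl B (by simp [hB])
    have h1 := ih hl' (fun ω => diff A (w ω)) (fun K' hK' => (hw K' hK').sub (hw _ (hp _ _ hK' hA)))
      K hK
    refine ⟨h1.1, ?_⟩
    show D l (diff A fun K => ∫ ω, w ω K ∂P) K = _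
    have h2 := D_congr hp l hl' (diff A fun K => ∫ ω, w ω K ∂P)
      (fun K => ∫ ω, diff A (w ω) K ∂P) (fun K' hK' => by
        simp only [diff]
        rw [integral_sub (hw K' hK') (hw _ (hp _ _ hK' hA))]) K hK
    rw [h2]
    exact h1.2

lemma CM.integral (P : Measure Ω) (hp : ∀ A B, p A → p B → p (A ∪ B)) {w : Ω → Set E → ℝ}
    (hw : ∀ K, p K → Integrable (fun ω => w ω K) P) (hcm : ∀ ω, CM p (w ω)) :
    CM p (fun K => ∫ ω, w ω K ∂P) := by
  intro l hl K hK
  rw [(D_integrable P hp l hl w hw K hK).2]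
  exact integral_nonneg fun ω => hcm ω l hl K hK

/-- avoidance indicator -/
noncomputable def av (F K : Set E) : ℝ := open Classical in if F ∩ K = ∅ then 1 else 0

lemma av_union (F K A : Set E) : av F (K ∪ A) = av F K * av F A := by
  classical
  unfold av
  have : F ∩ (K ∪ A) = ∅ ↔ F ∩ K = ∅ ∧ F ∩ A = ∅ := by
    rw [Set.inter_union_distrib_left, Set.union_empty_iff]
  by_cases h1 : F ∩ K = ∅ <;> by_cases h2 : F ∩ A = ∅ <;> simp [this, h1, h2]

lemma av_cases (F K : Set E) : av F K = 0 ∨ av F K = 1 := by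
  classical
  unfold av
  by_cases h1 : F ∩ K = ∅ <;> simp [h1]

lemma CM.av (F : Set E) {c : ℝ} (hc : 0 ≤ c) : CM p (fun K => c * Alt.av F K) := by
  intro l
  induction l generalizing c with
  | nil =>
    intro _ K _
    show 0 ≤ c * Alt.av F K
    rcases av_cases F K with h | h <;> rw [h] <;> simp [hc]
  | cons A l ih =>
    intro hl K hK
    have hl' : ∀ B ∈ l, p B := fun B hB => hl B (by simp [hB])
    show 0 ≤ D l (Alt.diff A fun K => c * Alt.av F K) K
    have h1 : (Alt.diff A fun K => c * Alt.av F K) =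
        fun K => (c * (1 - Alt.av F A)) * Alt.av F K := by
      funext K'
      simp only [Alt.diff]
      rw [av_union]
      ring
    rw [h1]
    refine ih (mul_nonneg hc ?_) hl' K hK
    rcases av_cases F A with h | h <;> rw [h] <;> norm_num

end expect

section
variable {E Ω : Type*} [MeasurableSpace Ω]

/-- inf of the likelihood -/
noncomputable def infL (L : E → ℝ≥0) (F : Set E) : ℝ≥0∞ := ⨅ x ∈ F, (L x : ℝ≥0∞)

lemma infL_le_supL {L : E → ℝ≥0} {F A : Set E} (h : (F ∩ A).Nonempty) :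
    infL L F ≤ supL L (F ∩ A) := by
  obtain ⟨x, hx⟩ := h
  exact (iInf₂_le x hx.1).trans (le_iSup₂ (f := fun x (_ : x ∈ F ∩ A) => (L x : ℝ≥0∞)) x hx)

lemma supL_empty {L : E → ℝ≥0} : supL L (∅ : Set E) = 0 := by
  simp [supL]

/-- truncation -/
noncomputable def tr (m : ℕ) (a : ℝ≥0∞) : ℝ := (min a m).toReal

lemma tr_nonneg (m : ℕ) (a : ℝ≥0∞) : 0 ≤ tr m a := ENNReal.toReal_nonneg

lemma tr_le (m : ℕ) (a : ℝ≥0∞) : tr m a ≤ m := by
  have := ENNReal.toReal_mono (ENNReal.natCast_ne_top m) (min_le_right a m)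
  simpa [tr] using this

lemma tr_mono (m : ℕ) {a b : ℝ≥0∞} (h : a ≤ b) : tr m a ≤ tr m b := by
  refine ENNReal.toReal_mono ?_ (min_le_min_right _ h)
  exact ne_top_of_le_ne_top (ENNReal.natCast_ne_top m) (min_le_right _ _)

lemma tr_zero (m : ℕ) : tr m 0 = 0 := by simp [tr]

/-- pointwise sum is a maximum -/
lemma sum_eq_max (m : ℕ) (L : E → ℝ≥0) (F A : Set E) :
    tr m (supL L (F ∩ A)) + tr m (infL L F) * av F A =
      max (tr m (infL L F)) (tr m (supL L (F ∩ A))) := by
  classical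
  by_cases h : F ∩ A = ∅
  · rw [h, supL_empty, tr_zero, av, if_pos h, max_eq_left (tr_nonneg _ _)]
    ring
  · have h2 := infL_le_supL (L := L) (Set.nonempty_iff_ne_empty.2 h)
    rw [av, if_neg h, mul_zero, add_zero, max_eq_right (tr_mono m h2)]

end

section
variable {E : Type*} [TopologicalSpace E] [LocallyCompactSpace E] [SecondCountableTopology E]
  [T2Space E] [MeasurableSpace E] [BorelSpace E] {Ω : Type*} [MeasurableSpace Ω]

lemma aemeas_of_null (P : Measure Ω) {f : Ω → ℝ≥0∞} (h : ∀ r : ℝ≥0∞, NullMeasurableSet {ω | r < f ω} P) :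
    AEMeasurable f P := by
  have h1 : @Measurable (NullMeasurableSpace Ω P) ℝ≥0∞ _ _ f := by
    apply measurable_of_Ioi
    intro r
    exact h r
  have h2 : NullMeasurable f P := h1
  exact h2.aemeasurable

lemma supL_aemeas {X : Ω → Set E} (hX : IsRandomClosedSet X) (P : Measure Ω) [IsFiniteMeasure P]
    {L : E → ℝ≥0} (hL : Measurable L) {A : Set E} (hA : MeasurableSet A) :
    AEMeasurable (fun ω => supL L (X ω ∩ A)) P := by
  apply aemeas_of_null
  intro r
  have : {ω | r < supL L (X ω ∩ A)} = {ω | (X ω ∩ (A ∩ {x | r < (L x : ℝ≥0∞)})).Nonempty} := by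
    ext ω
    simp only [supL, Set.mem_ofPred_eq, lt_iSup_iff]
    constructor
    · rintro ⟨x, ⟨h1, h2⟩, h3⟩
      exact ⟨x, h1, h2, h3⟩
    · rintro ⟨x, h1, h2, h3⟩
      exact ⟨x, ⟨h1, h2⟩, h3⟩
  rw [this]
  exact hX.nullMeas P (hA.inter (measurableSet_lt measurable_const hL.coe_nnreal_ennreal))

lemma infL_aemeas {X : Ω → Set E} (hX : IsRandomClosedSet X) (P : Measure Ω) [IsFiniteMeasure P]
    {L : E → ℝ≥0} (hL : Measurable L) : AEMeasurable (fun ω => infL L (X ω)) P := by
  have h1 : @Measurable (NullMeasurableSpace Ω P) ℝ≥0∞ _ _ (fun ω => infL L (X ω)) := by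
    apply measurable_of_Iio
    intro r
    have : {ω : Ω | infL L (X ω) < r} =
        {ω | (X ω ∩ {x | (L x : ℝ≥0∞) < r}).Nonempty} := by
      ext ω
      simp only [infL, Set.mem_ofPred_eq, iInf_lt_iff]
      constructor
      · rintro ⟨x, h1, h2⟩
        exact ⟨x, h1, h2⟩
      · rintro ⟨x, h1, h2⟩
        exact ⟨x, h1, h2⟩
    show NullMeasurableSet {ω : Ω | infL L (X ω) < r} P
    rw [this]
    exact hX.nullMeas P (measurableSet_lt hL.coe_nnreal_ennreal measurable_const)
  have h2 : NullMeasurable (fun ω => infL L (X ω)) P := h1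
  exact h2.aemeasurable

lemma av_aemeas {X : Ω → Set E} (hX : IsRandomClosedSet X) (P : Measure Ω) [IsFiniteMeasure P]
    {A : Set E} (hA : MeasurableSet A) : NullMeasurableSet {ω | X ω ∩ A = ∅} P := by
  have h := (hX.nullMeas P hA).compl
  have : {ω | (X ω ∩ A).Nonempty}ᶜ = {ω | X ω ∩ A = ∅} := by
    ext ω
    simp [Set.not_nonempty_iff_eq_empty]
  rwa [this] at h

/-- truncated integral -/
lemma tr_integral (P : Measure Ω) [IsFiniteMeasure P] {f : Ω → ℝ≥0∞} (hf : AEMeasurable f P)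
    (m : ℕ) : Integrable (fun ω => tr m (f ω)) P ∧
      ∫ ω, tr m (f ω) ∂P = (∫⁻ ω, min (f ω) m ∂P).toReal := by
  have h1 : AEMeasurable (fun ω => min (f ω) (m : ℝ≥0∞)) P := hf.min aemeasurable_const
  constructor
  · refine Integrable.of_bound h1.ennreal_toReal.aestronglyMeasurable (m : ℝ)
      (Eventually.of_forall fun ω => ?_)
    rw [Real.norm_eq_abs, abs_of_nonneg (tr_nonneg _ _)]
    exact tr_le _ _
  · refine integral_toReal h1 (Eventually.of_forall fun ω => ?_)
    exact lt_of_le_of_lt (min_le_right _ _) (ENNReal.natCast_lt_top m)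

lemma trunc_lim (P : Measure Ω) {f : Ω → ℝ≥0∞} (hf : AEMeasurable f P) :
    Tendsto (fun m : ℕ => ∫⁻ ω, min (f ω) m ∂P) atTop (𝓝 (∫⁻ ω, f ω ∂P)) := by
  apply lintegral_tendsto_of_tendsto_of_monotone
  · intro m
    exact hf.min aemeasurable_const
  · refine Eventually.of_forall fun ω => ?_
    intro m m' hmm
    exact min_le_min_left _ (by exact_mod_cast hmm)
  · refine Eventually.of_forall fun ω => ?_
    have h1 : Tendsto (fun m : ℕ => min (f ω) (m : ℝ≥0∞)) atTop (𝓝 (min (f ω) ∞)) :=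
      tendsto_const_nhds.min ENNReal.tendsto_nat_nhds_top
    rwa [min_eq_left le_top] at h1

theorem rs_CM {X : Ω → Set E} (hX : IsRandomClosedSet X) (P : Measure Ω) [IsProbabilityMeasure P]
    {L : E → ℝ≥0} (hL : Measurable L) (hfin : ∫⁻ ω, infL L (X ω) ∂P ≠ ∞) :
    CM MeasurableSet (fun K => 1 - vRS P X L K) := by
  classical
  let δ : ℕ → ℝ := fun m => 1 / ((m : ℝ) + 1)
  have hS : ∀ K, MeasurableSet K → AEMeasurable (fun ω => supL L (X ω ∩ K)) P :=
    fun K hK => supL_aemeas hX P hL hK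
  have hI : AEMeasurable (fun ω => infL L (X ω)) P := infL_aemeas hX P hL
  -- the function under t
  have hT : ∀ K, MeasurableSet K →
      AEMeasurable (fun ω => if X ω ∩ K = ∅ then infL L (X ω) else 0) P := by
    intro K hK
    have h1 := hI.indicator₀ (av_aemeas hX P hK)
    refine h1.congr (Eventually.of_forall fun ω => ?_)
    by_cases h : X ω ∩ K = ∅
    · show Set.indicator {ω | X ω ∩ K = ∅} (fun ω => infL L (X ω)) ω =
        if X ω ∩ K = ∅ then infL L (X ω) else 0
      rw [Set.indicator_of_mem (show ω ∈ {ω | X ω ∩ K = ∅} from h), if_pos h]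
    · show Set.indicator {ω | X ω ∩ K = ∅} (fun ω => infL L (X ω)) ω =
        if X ω ∩ K = ∅ then infL L (X ω) else 0
      rw [Set.indicator_of_notMem (show ω ∉ {ω | X ω ∩ K = ∅} from h), if_neg h]
  have htr : ∀ m K ω, tr m (if X ω ∩ K = ∅ then infL L (X ω) else 0) =
      tr m (infL L (X ω)) * av (X ω) K := by
    intro m K ω
    unfold av
    by_cases h : X ω ∩ K = ∅
    · rw [if_pos h, if_pos h, mul_one]
    · rw [if_neg h, if_neg h, mul_zero, tr_zero]
  let u : ℕ → Set E → ℝ := fun m K => ∫ ω, tr m (infL L (X ω)) * av (X ω) K ∂P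
  let g : ℕ → Set E → ℝ := fun m K =>
    ∫ ω, max (tr m (infL L (X ω))) (tr m (supL L (X ω ∩ K))) ∂P
  have hu_int : ∀ m K, MeasurableSet K →
      Integrable (fun ω => tr m (infL L (X ω)) * av (X ω) K) P := by
    intro m K hK
    have := (tr_integral P (hT K hK) m).1
    simpa only [htr] using this
  have hs_int : ∀ m K, MeasurableSet K → Integrable (fun ω => tr m (supL L (X ω ∩ K))) P :=
    fun m K hK => (tr_integral P (hS K hK) m).1
  have hg_int : ∀ m K, MeasurableSet K →
      Integrable (fun ω => max (tr m (infL L (X ω))) (tr m (supL L (X ω ∩ K)))) P := by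
    intro m K hK
    have h1 := (hs_int m K hK).add (hu_int m K hK)
    refine h1.congr (Eventually.of_forall fun ω => ?_)
    exact sum_eq_max m L (X ω) K
  have hu_cm : ∀ m, CM MeasurableSet (u m) := by
    intro m
    exact CM.integral P hpM (fun K hK => hu_int m K hK) fun ω => CM.av (X ω) (tr_nonneg _ _)
  have hg_cm : ∀ m : ℕ, CM MeasurableSet (fun K => (m : ℝ) - g m K) := by
    intro m
    have h1 : CM MeasurableSet (fun K => ∫ ω, ((m : ℝ) -
        max (tr m (infL L (X ω))) (tr m (supL L (X ω ∩ K)))) ∂P) := by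
      apply CM.integral P hpM
      · intro K hK
        exact (integrable_const _).sub (hg_int m K hK)
      · intro ω
        apply CM.maxitive' _ hpM
        · intro K _
          exact max_le (tr_le _ _) (tr_le _ _)
        · intro A B _ _
          rw [Set.inter_union_distrib_left, supL_union]
          have : tr m (max (supL L (X ω ∩ A)) (supL L (X ω ∩ B))) =
              max (tr m (supL L (X ω ∩ A))) (tr m (supL L (X ω ∩ B))) := toReal_min_max _ _ m
          rw [this]
          exact sup_sup_distrib_left _ _ _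
    refine h1.congr hpM fun K hK => ?_
    rw [integral_sub (integrable_const _) (hg_int m K hK)]
    simp [g]
  have hw : ∀ m : ℕ, CM MeasurableSet (fun K => (u m K + δ m) / (g m K + δ m)) := by
    intro m
    refine CM.quot hpM (m := (m : ℝ)) (by positivity) (by positivity) (hu_cm m) (hg_cm m) ?_
    intro K _
    exact integral_nonneg fun ω => le_max_of_le_left (tr_nonneg _ _)
  refine CM.of_tendsto hpM hw ?_
  intro K hK
  have hslim := trunc_lim P (hS K hK)
  have htlim := trunc_lim P (hT K hK)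
  have hsK : sRS P X L K = ∫⁻ ω, supL L (X ω ∩ K) ∂P := rfl
  have htK : tRS P X L K = ∫⁻ ω, (if X ω ∩ K = ∅ then infL L (X ω) else 0) ∂P := rfl
  have htfin : ∫⁻ ω, (if X ω ∩ K = ∅ then infL L (X ω) else 0) ∂P ≠ ∞ := by
    refine ne_top_of_le_ne_top hfin (lintegral_mono fun ω => ?_)
    by_cases h : X ω ∩ K = ∅
    · rw [if_pos h]
    · rw [if_neg h]; exact zero_le
  have hlim := V_lim (δ := δ) htfin hslim htlim
    (fun m => lintegral_mono fun ω => min_le_left _ _)
    (fun m => lintegral_mono fun ω => min_le_left _ _)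
    (fun m => by
      refine ne_top_of_le_ne_top (b := ∫⁻ _ω, (m : ℝ≥0∞) ∂P) ?_ (lintegral_mono fun ω => min_le_right _ _)
      rw [lintegral_const, measure_univ, mul_one]
      exact ENNReal.natCast_ne_top m)
    (fun m => by positivity) tendsto_one_div_add_atTop_nhds_zero_nat
  have hV : V (∫⁻ ω, supL L (X ω ∩ K) ∂P) (∫⁻ ω, (if X ω ∩ K = ∅ then infL L (X ω) else 0) ∂P) =
      vRS P X L K := rfl
  rw [hV] at hlim
  refine hlim.congr fun m => ?_
  have h1 : (∫⁻ ω, min (if X ω ∩ K = ∅ then infL L (X ω) else 0) (m : ℝ≥0∞) ∂P).toReal = u m K := by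
    rw [← (tr_integral P (hT K hK) m).2]
    apply integral_congr_ae
    exact Eventually.of_forall fun ω => htr m K ω
  have h2 : (∫⁻ ω, min (supL L (X ω ∩ K)) (m : ℝ≥0∞) ∂P).toReal =
      ∫ ω, tr m (supL L (X ω ∩ K)) ∂P := ((tr_integral P (hS K hK) m).2).symm
  have h3 : ∫ ω, tr m (supL L (X ω ∩ K)) ∂P + u m K = g m K := by
    rw [← integral_add (hs_int m K hK) (hu_int m K hK)]
    apply integral_congr_ae
    exact Eventually.of_forall fun ω => sum_eq_max m L (X ω) K
  rw [h1, h2, h3]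

theorem rs_alternating {X : Ω → Set E} (hX : IsRandomClosedSet X) (P : Measure Ω)
    [IsProbabilityMeasure P] {L : E → ℝ≥0} (hL : Measurable L)
    (hfin : ∫⁻ ω, ⨅ x ∈ X ω, (L x : ℝ≥0∞) ∂P ≠ ∞) (n : ℕ) (hn : 1 ≤ n) :
    IsAlternating n (vRS P X L) := by
  intro A hA
  exact CM.alternating hpM (rs_CM hX P hL hfin) hn A hA (MeasurableSet.iInter hA)

end

end Pool.Agent.X144.Alt
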