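import Mathlib

/-!
Helper files of helper144.
-/

set_option autoImplicit false

namespace Pool.Agent.X144

theorem basic_trivial : True := trivial

end Pool.Agent.X144
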