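import Mathlib

set_option autoImplicit false

namespace Pool.Agent.X144.Bits

open MeasureTheory ProbabilityTheory

/-- the law of a bit that is `true` with probability `p` -/
noncomputable def bern (p : unitInterval) : Measure Bool :=
  ENNReal.ofReal p • Measure.dirac true + ENNReal.ofReal (1 - p) • Measure.dirac false

instance (p : unitInterval) : IsProbabilityMeasure (bern p) := by
  constructor
  simp only [bern, Measure.coe_add, Measure.coe_smul, Pi.add_apply, Pi.smul_apply, measure_univ,
    smul_eq_mul, mul_one]
  rw [← ENNReal.ofReal_add p.2.1 (sub_nonneg.2 p.2.2)]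
  simp

lemma bern_true (p : unitInterval) : bern p {true} = ENNReal.ofReal p := by
  simp [bern]

lemma bern_false (p : unitInterval) : bern p {false} = ENNReal.ofReal (1 - p) := by
  simp [bern]

/-- independent bits, each `true` with probability `p` -/
noncomputable def BM (β : Type*) [Fintype β] (p : unitInterval) : Measure (β → Bool) :=
  Measure.pi fun _ => bern p

instance (β : Type*) [Fintype β] (p : unitInterval) : IsProbabilityMeasure (BM β p) := by
  unfold BM; infer_instance

variable {β : Type*} [Fintype β]

lemma BM_iIndep (p : unitInterval) : iIndepFun (fun (i : β) (ω : β → Bool) => ω i) (BM β p) :=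
  iIndepFun_pi (X := fun _ => id) (fun _ => aemeasurable_id)

lemma BM_coord (p : unitInterval) (i : β) : (BM β p).real {ω | ω i = true} = p := by
  classical
  have h := measurePreserving_eval (fun _ : β => bern p) i
  have h1 := h.measure_preimage (s := {true}) (MeasurableSet.singleton true).nullMeasurableSet
  have h2 : (Function.eval i ⁻¹' {true} : Set (β → Bool)) = {ω | ω i = true} := by
    ext ω; simp
  rw [h2, bern_true] at h1
  rw [Measure.real, BM, h1, ENNReal.toReal_ofReal p.2.1]

/-- all the bits in `S` are `false` -/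
lemma BM_all_false (p : unitInterval) (S : Finset β) :
    (BM β p).real {ω | ∀ i ∈ S, ω i = false} = (1 - p) ^ S.card := by
  classical
  have h1 : {ω : β → Bool | ∀ i ∈ S, ω i = false} =
      Set.pi Set.univ (fun i => if i ∈ S then {false} else Set.univ) := by
    ext ω
    simp only [Set.mem_ofPred_eq, Set.mem_pi, Set.mem_univ, true_implies]
    refine forall_congr' fun i => ?_
    by_cases h : i ∈ S <;> simp [h]
  rw [h1, Measure.real, BM, Measure.pi_pi]
  have h2 : ∀ i : β, bern p (if i ∈ S then {false} else Set.univ) =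
      if i ∈ S then ENNReal.ofReal (1 - p) else 1 := by
    intro i
    by_cases h : i ∈ S
    · rw [if_pos h, if_pos h, bern_false]
    · rw [if_neg h, if_neg h, measure_univ]
  simp only [h2]
  rw [Finset.prod_ite_mem, Finset.univ_inter, Finset.prod_const, ENNReal.toReal_pow,
    ENNReal.toReal_ofReal (sub_nonneg.2 p.2.2)]

/-- all the bits in `S` are `true` -/
lemma BM_all_true (p : unitInterval) (S : Finset β) :
    (BM β p).real {ω | ∀ i ∈ S, ω i = true} = (p : ℝ) ^ S.card := by
  classical
  have h1 : {ω : β → Bool | ∀ i ∈ S, ω i = true} =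
      Set.pi Set.univ (fun i => if i ∈ S then {true} else Set.univ) := by
    ext ω
    simp only [Set.mem_ofPred_eq, Set.mem_pi, Set.mem_univ, true_implies]
    refine forall_congr' fun i => ?_
    by_cases h : i ∈ S <;> simp [h]
  rw [h1, Measure.real, BM, Measure.pi_pi]
  have h2 : ∀ i : β, bern p (if i ∈ S then {true} else Set.univ) =
      if i ∈ S then ENNReal.ofReal p else 1 := by
    intro i
    by_cases h : i ∈ S
    · rw [if_pos h, if_pos h, bern_true]
    · rw [if_neg h, if_neg h, measure_univ]
  simp only [h2]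
  rw [Finset.prod_ite_mem, Finset.univ_inter, Finset.prod_const, ENNReal.toReal_pow,
    ENNReal.toReal_ofReal p.2.1]

/-- `F` is determined by the bits in `S` -/
def Dep (S : Finset β) (F : Set (β → Bool)) : Prop :=
  ∀ ω ω' : β → Bool, (∀ i ∈ S, ω i = ω' i) → ω ∈ F → ω' ∈ F

lemma Dep.eq_preimage {S : Finset β} {F : Set (β → Bool)} (h : Dep S F) :
    F = (fun (ω : β → Bool) (i : S) => ω i) ⁻¹' ((fun (ω : β → Bool) (i : S) => ω i) '' F) := by
  ext ω
  constructor
  · intro hω
    exact ⟨ω, hω, rfl⟩
  · rintro ⟨ω', hω', he⟩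
    refine h ω' ω (fun i hi => ?_) hω'
    exact congrFun he ⟨i, hi⟩

lemma indep2 (p : unitInterval) {S T : Finset β} (hST : Disjoint S T) {F G : Set (β → Bool)}
    (hF : Dep S F) (hG : Dep T G) :
    (BM β p).real (F ∩ G) = (BM β p).real F * (BM β p).real G := by
  classical
  have h := (BM_iIndep (β := β) p).indepFun_finset S T hST (fun i => measurable_pi_apply i)
  have hm : ∀ (T : Finset β) (A : Set (T → Bool)), MeasurableSet A :=
    fun T A => A.toFinite.measurableSet
  have h1 := h.measure_inter_preimage_eq_mul _ _ (hm S ((fun (ω : β → Bool) (i : S) => ω i) '' F))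
    (hm T ((fun (ω : β → Bool) (i : T) => ω i) '' G))
  rw [← hF.eq_preimage, ← hG.eq_preimage] at h1
  simp only [Measure.real, h1, ENNReal.toReal_mul]

lemma Dep.mono {S T : Finset β} (h : S ⊆ T) {F : Set (β → Bool)} (hF : Dep S F) : Dep T F :=
  fun ω ω' he hω => hF ω ω' (fun i hi => he i (h hi)) hω

lemma Dep.inter {S : Finset β} {F G : Set (β → Bool)} (hF : Dep S F) (hG : Dep S G) :
    Dep S (F ∩ G) :=
  fun ω ω' he hω => ⟨hF ω ω' he hω.1, hG ω ω' he hω.2⟩

lemma indep_blocks (p : unitInterval) {κ : Type*} (A : Finset κ) (S : κ → Finset β)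
    (F : κ → Set (β → Bool)) (hF : ∀ a ∈ A, Dep (S a) (F a))
    (hS : ∀ a ∈ A, ∀ b ∈ A, a ≠ b → Disjoint (S a) (S b)) :
    (BM β p).real (⋂ a ∈ A, F a) = ∏ a ∈ A, (BM β p).real (F a) := by
  classical
  induction A using Finset.induction_on with
  | empty => simp
  | insert a A ha ih =>
    rw [Finset.set_biInter_insert, Finset.prod_insert ha,
      ← ih (fun b hb => hF b (Finset.mem_insert_of_mem hb))
        (fun b hb c hc => hS b (Finset.mem_insert_of_mem hb) c (Finset.mem_insert_of_mem hc))]
    apply indep2 p (S := S a) (T := A.biUnion S)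
    · rw [Finset.disjoint_biUnion_right]
      intro b hb
      exact hS a (Finset.mem_insert_self _ _) b (Finset.mem_insert_of_mem hb) (by
        rintro rfl; exact ha hb)
    · exact hF a (Finset.mem_insert_self _ _)
    · intro ω ω' he hω
      rw [Set.mem_iInter₂] at hω ⊢
      intro b hb
      exact hF b (Finset.mem_insert_of_mem hb) ω ω'
        (fun i hi => he i (Finset.mem_biUnion.2 ⟨b, hb, hi⟩)) (hω b hb)

end Pool.Agent.X144.Bits
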