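import Pool.Agent.X144.DepRG

set_option autoImplicit false

namespace Pool.Agent.X144.Clus

open MeasureTheory ProbabilityTheory Pool.Agent.X144.Bits Pool.Agent.X144.DepRG

variable {n K : ℕ} [NeZero K]

/-- label of a vertex -/
def lab (K : ℕ) [NeZero K] (x : Fin n) : Fin K := ⟨x.val % K, Nat.mod_lt _ (NeZero.pos K)⟩

/-- the bit of a pair -/
def bb (K : ℕ) [NeZero K] (x y : Fin n) : Sym2 (Fin n) ⊕ (Fin n × Fin K) :=
  if y.val % 3 = (x.val + 1) % 3 then Sum.inr (x, lab K y)
  else if x.val % 3 = (y.val + 1) % 3 then Sum.inr (y, lab K x) else Sum.inl s(x, y)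

lemma bb_symm (x y : Fin n) : bb K x y = bb K y x := by
  unfold bb
  by_cases h1 : y.val % 3 = (x.val + 1) % 3
  · have h2 : ¬ x.val % 3 = (y.val + 1) % 3 := by omega
    rw [if_pos h1, if_neg h2, if_pos h1]
  · by_cases h2 : x.val % 3 = (y.val + 1) % 3
    · rw [if_neg h1, if_pos h2, if_pos h2]
    · rw [if_neg h1, if_neg h2, if_neg h2, if_neg h1, Sym2.eq_swap]

lemma cluster_card_le (c : Fin K) :
    (Finset.univ.filter fun y : Fin n => lab K y = c).card ≤ n / K + 1 := by
  have h1 : (Finset.univ.filter fun y : Fin n => lab K y = c).card ≤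
      (Finset.range (n / K + 1)).card := by
    apply Finset.card_le_card_of_injOn (fun y => y.val / K)
    · intro y _
      rw [Finset.mem_coe, Finset.mem_range]
      exact Nat.lt_succ_of_le (Nat.div_le_div_right y.isLt.le)
    · intro y hy z hz hyz
      rw [Finset.mem_coe, Finset.mem_filter] at hy hz
      have h2 : y.val % K = z.val % K := by
        have := hy.2.trans hz.2.symm
        simpa [lab] using this
      have hyz' : y.val / K = z.val / K := hyz
      apply Fin.ext
      rw [← Nat.div_add_mod y.val K, ← Nat.div_add_mod z.val K, h2, hyz']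
  rwa [Finset.card_range] at h1

lemma cluster_card_ge (c : Fin K) :
    n / K ≤ (Finset.univ.filter fun y : Fin n => lab K y = c).card := by
  have hK : 0 < K := NeZero.pos K
  have hlt : ∀ i, i < n / K → c.val + K * i < n := by
    intro i hi
    have h1 : K * (i + 1) ≤ K * (n / K) := Nat.mul_le_mul_left K hi
    have h2 : K * (n / K) ≤ n := Nat.mul_div_le n K
    have h3 := c.isLt
    have h4 : K * (i + 1) = K * i + K := by ring
    omega
  have h1 : (Finset.univ : Finset (Fin (n / K))).card ≤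
      (Finset.univ.filter fun y : Fin n => lab K y = c).card := by
    apply Finset.card_le_card_of_injOn (fun i => (⟨c.val + K * i.val, hlt i.val i.isLt⟩ : Fin n))
    · intro i _
      rw [Finset.mem_coe, Finset.mem_filter]
      refine ⟨Finset.mem_univ _, ?_⟩
      apply Fin.ext
      show (c.val + K * i.val) % K = c.val
      rw [Nat.add_mul_mod_self_left, Nat.mod_eq_of_lt c.isLt]
    · intro i _ j _ hij
      have h5 : c.val + K * i.val = c.val + K * j.val := by
        simpa using hij
      apply Fin.ext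
      have h6 : K * i.val = K * j.val := by omega
      exact Nat.eq_of_mul_eq_mul_left hK h6
  rwa [Finset.card_univ, Fintype.card_fin] at h1

lemma deg_bound (e : Pair n) :
    {f : Pair n | f ≠ e ∧ bitOf (bb K) bb_symm f.1 = bitOf (bb K) bb_symm e.1}.ncard ≤
      n / K + 1 := by
  classical
  rcases hbe : bitOf (bb K) bb_symm e.1 with g | ⟨x, c⟩
  · have : {f : Pair n | f ≠ e ∧ bitOf (bb K) bb_symm f.1 = Sum.inl g} = ∅ := by
      ext f
      simp only [Set.mem_ofPred_eq, Set.mem_empty_iff_false, iff_false, not_and]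
      intro hne hf
      have key : ∀ f : Pair n, bitOf (bb K) bb_symm f.1 = Sum.inl g → f.1 = g := by
        intro f
        obtain ⟨f, hf⟩ := f
        induction f using Sym2.inductionOn with
        | _ a b =>
          intro h
          simp only [bitOf, Sym2.lift_mk, bb] at h
          split_ifs at h with h1 h2
          exact Sum.inl.inj h
      exact hne (Subtype.ext ((key f hf).trans (key e hbe).symm))
    rw [this]
    simp
  · have h1 : {f : Pair n | f ≠ e ∧ bitOf (bb K) bb_symm f.1 = Sum.inr (x, c)} ⊆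
        {f : Pair n | ∃ y : Fin n, lab K y = c ∧ f.1 = s(x, y)} := by
      rintro ⟨f, hf⟩ ⟨_, h⟩
      induction f using Sym2.inductionOn with
      | _ a b =>
        simp only [bitOf, Sym2.lift_mk, bb] at h
        split_ifs at h with h1 h2
        · have h3 := Sum.inr.inj h
          refine ⟨b, (Prod.ext_iff.1 h3).2, ?_⟩
          have h4 : a = x := (Prod.ext_iff.1 h3).1
          show s(a, b) = s(x, b)
          rw [h4]
        · have h3 := Sum.inr.inj h
          refine ⟨a, (Prod.ext_iff.1 h3).2, ?_⟩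
          have h4 : b = x := (Prod.ext_iff.1 h3).1
          show s(a, b) = s(x, a)
          rw [h4]
          exact Sym2.eq_swap
    refine (Set.ncard_le_ncard h1 (Set.toFinite _)).trans ?_
    have h2 : {f : Pair n | ∃ y : Fin n, lab K y = c ∧ f.1 = s(x, y)}.ncard ≤
        ((Finset.univ.filter fun y : Fin n => lab K y = c).image fun y => s(x, y)).card := by
      rw [← Set.ncard_coe_finset]
      apply Set.ncard_le_ncard_of_injOn (fun f : Pair n => f.1)
      · rintro f ⟨y, hy1, hy2⟩
        rw [Finset.mem_coe, Finset.mem_image]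
        exact ⟨y, by simpa using hy1, hy2.symm⟩
      · intro f _ g _ h
        exact Subtype.ext h
    exact h2.trans (Finset.card_image_le.trans (cluster_card_le c))

/-- hub event -/
def H (a c : Fin K) : Set ((Sym2 (Fin n) ⊕ (Fin n × Fin K)) → Bool) :=
  {ω | ∃ x : Fin n, lab K x = a ∧ ω (Sum.inr (x, c)) = true}

/-- bits of the hub event -/
def SH (n : ℕ) {K : ℕ} [NeZero K] (a c : Fin K) : Finset (Sym2 (Fin n) ⊕ (Fin n × Fin K)) :=
  (Finset.univ.filter fun y : Fin n => lab K y = a).image fun x => Sum.inr (x, c)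

lemma H_dep (a c : Fin K) : Dep (SH n a c) (H (n := n) a c) := by
  rintro ω ω' he ⟨x, hx, hx2⟩
  refine ⟨x, hx, ?_⟩
  rw [← he (Sum.inr (x, c)) (Finset.mem_image_of_mem _ (by simpa using hx))]
  exact hx2

lemma H_prob (p : unitInterval) (a c : Fin K) :
    (1 - (1 - (p : ℝ)) ^ (n / K)) ≤ (BM (Sym2 (Fin n) ⊕ (Fin n × Fin K)) p).real (H a c) := by
  classical
  have h1 : (H (n := n) a c)ᶜ = {ω | ∀ i ∈ SH n a c, ω i = false} := by
    ext ω
    simp only [H, SH, Set.mem_compl_iff, Set.mem_ofPred_eq, not_exists, not_and,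
      Finset.mem_image, Finset.mem_filter, Finset.mem_univ, true_and]
    constructor
    · rintro h _ ⟨x, hx, rfl⟩
      have := h x hx
      simpa using this
    · intro h x hx
      have := h _ ⟨x, hx, rfl⟩
      simp [this]
  have h2 := BM_all_false p (SH n a c)
  rw [← h1] at h2
  have h3 := probReal_compl_eq_one_sub (μ := BM (Sym2 (Fin n) ⊕ (Fin n × Fin K)) p)
    (s := H (n := n) a c) (Set.toFinite _).measurableSet
  have h4 : (SH n a c).card = (Finset.univ.filter fun y : Fin n => lab K y = a).card := by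
    apply Finset.card_image_of_injective
    intro x y hxy
    have := Sum.inr.inj hxy
    exact (Prod.ext_iff.1 this).1
  have h5 : (1 - (p : ℝ)) ^ (SH n a c).card ≤ (1 - (p : ℝ)) ^ (n / K) := by
    apply pow_le_pow_of_le_one (sub_nonneg.2 p.2.2) (by linarith [p.2.1])
    rw [h4]
    exact cluster_card_ge a
  linarith

/-- failure for a pair of labels -/
lemma fail_prob (p : unitInterval) {c c' : Fin K} (hne : c ≠ c') (A : Finset (Fin K)) :
    (BM (Sym2 (Fin n) ⊕ (Fin n × Fin K)) p).real (⋂ a ∈ A, (H a c ∩ H a c')ᶜ) ≤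
      (1 - (1 - (1 - (p : ℝ)) ^ (n / K)) ^ 2) ^ A.card := by
  classical
  have hdep : ∀ a ∈ A, Dep (SH n a c ∪ SH n a c') ((H (n := n) a c ∩ H a c')ᶜ) := by
    intro a _ ω ω' he hω hω'
    apply hω
    have h1 := (H_dep (n := n) a c).mono (Finset.subset_union_left (s₂ := SH n a c'))
    have h2 := (H_dep (n := n) a c').mono (Finset.subset_union_right (s₁ := SH n a c))
    exact (h1.inter h2) ω' ω (fun i hi => (he i hi).symm) hω'
  have hdis : ∀ a ∈ A, ∀ b ∈ A, a ≠ b →
      Disjoint (SH n a c ∪ SH n a c') (SH n b c ∪ SH n b c') := by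
    intro a _ b _ hab
    rw [Finset.disjoint_left]
    intro i hi hi'
    have key : ∀ a : Fin K, i ∈ SH n a c ∪ SH n a c' → ∃ x : Fin n, ∃ d, lab K x = a ∧
        i = Sum.inr (x, d) := by
      intro a hi
      rw [Finset.mem_union] at hi
      rcases hi with hi | hi
      · obtain ⟨x, hx, rfl⟩ := Finset.mem_image.1 hi
        exact ⟨x, c, by simpa using hx, rfl⟩
      · obtain ⟨x, hx, rfl⟩ := Finset.mem_image.1 hi
        exact ⟨x, c', by simpa using hx, rfl⟩
    obtain ⟨x, d, hx, rfl⟩ := key a hi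
    obtain ⟨y, d', hy, hy'⟩ := key b hi'
    have := Sum.inr.inj hy'
    have hxy : x = y := (Prod.ext_iff.1 this).1
    subst hxy
    exact hab (hx.symm.trans hy)
  rw [indep_blocks p A _ _ hdep hdis, ← Finset.prod_const]
  apply Finset.prod_le_prod
  · intro a _; exact measureReal_nonneg
  · intro a _
    have hd : Disjoint (SH n a c) (SH n a c') := by
      rw [Finset.disjoint_left]
      intro i hi hi'
      obtain ⟨x, _, rfl⟩ := Finset.mem_image.1 hi
      obtain ⟨y, _, hy⟩ := Finset.mem_image.1 hi'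
      have := Sum.inr.inj hy
      exact hne (Prod.ext_iff.1 this).2.symm
    rw [probReal_compl_eq_one_sub (Set.toFinite _).measurableSet,
      indep2 p hd (H_dep a c) (H_dep a c')]
    have h1 := H_prob (n := n) p a c
    have h2 := H_prob (n := n) p a c'
    have h3 : 0 ≤ 1 - (1 - (p : ℝ)) ^ (n / K) := by
      have : (1 - (p : ℝ)) ^ (n / K) ≤ 1 :=
        pow_le_one₀ (sub_nonneg.2 p.2.2) (by linarith [p.2.1])
      linarith
    nlinarith

/-- good event -/
def good (n K : ℕ) [NeZero K] : Set ((Sym2 (Fin n) ⊕ (Fin n × Fin K)) → Bool) :=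
  {ω | ∀ c c' : Fin K, c ≠ c' → c.val % 3 = c'.val % 3 →
    ∃ a : Fin K, c.val % 3 = (a.val + 1) % 3 ∧ ω ∈ H a c ∩ H a c'}

lemma parts_card {M : ℕ} (hK : K = 3 * M) (r : ℕ) (hr : r < 3) :
    M ≤ (Finset.univ.filter fun a : Fin K => r = (a.val + 1) % 3).card := by
  have h1 : (Finset.univ : Finset (Fin M)).card ≤
      (Finset.univ.filter fun a : Fin K => r = (a.val + 1) % 3).card := by
    apply Finset.card_le_card_of_injOn
      (fun i => (⟨3 * i.val + (r + 2) % 3, by have := i.isLt; omega⟩ : Fin K))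
    · intro i _
      rw [Finset.mem_coe, Finset.mem_filter]
      refine ⟨Finset.mem_univ _, ?_⟩
      show r = (3 * i.val + (r + 2) % 3 + 1) % 3
      omega
    · intro i _ j _ hij
      have h5 : 3 * i.val + (r + 2) % 3 = 3 * j.val + (r + 2) % 3 := by
        simpa using hij
      apply Fin.ext
      omega
  rwa [Finset.card_univ, Fintype.card_fin] at h1

lemma good_prob (p : unitInterval) {M : ℕ} (hK : K = 3 * M) :
    (BM (Sym2 (Fin n) ⊕ (Fin n × Fin K)) p).real (good n K)ᶜ ≤
      (K : ℝ) ^ 2 * (1 - (1 - (1 - (p : ℝ)) ^ (n / K)) ^ 2) ^ M := by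
  classical
  set q : ℝ := 1 - (1 - (1 - (p : ℝ)) ^ (n / K)) ^ 2 with hq
  have hx0 : 0 ≤ (1 - (p : ℝ)) ^ (n / K) := pow_nonneg (sub_nonneg.2 p.2.2) _
  have hx1 : (1 - (p : ℝ)) ^ (n / K) ≤ 1 :=
    pow_le_one₀ (sub_nonneg.2 p.2.2) (by linarith [p.2.1])
  have hq0 : 0 ≤ q := by rw [hq]; nlinarith
  have hq1 : q ≤ 1 := by rw [hq]; nlinarith
  let T : Finset (Fin K × Fin K) := Finset.univ.filter fun cc =>
    cc.1 ≠ cc.2 ∧ cc.1.val % 3 = cc.2.val % 3
  have hsub : (good n K)ᶜ ⊆ ⋃ cc ∈ T,
      ⋂ a ∈ (Finset.univ.filter fun a : Fin K => cc.1.val % 3 = (a.val + 1) % 3),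
        (H (n := n) a cc.1 ∩ H a cc.2)ᶜ := by
    intro ω hω
    simp only [good, Set.mem_compl_iff, Set.mem_ofPred_eq, not_forall, not_exists] at hω
    obtain ⟨c, c', h1, h2, h3⟩ := hω
    rw [Set.mem_iUnion₂]
    refine ⟨(c, c'), by simp [T, h1, h2], ?_⟩
    rw [Set.mem_iInter₂]
    intro a ha hh
    rw [Finset.mem_filter] at ha
    exact h3 a ⟨ha.2, hh⟩
  refine (measureReal_mono hsub (measure_ne_top _ _)).trans ?_
  refine (measureReal_biUnion_finset_le _ _).trans ?_
  have h1 : ∀ cc ∈ T, (BM (Sym2 (Fin n) ⊕ (Fin n × Fin K)) p).real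
      (⋂ a ∈ (Finset.univ.filter fun a : Fin K => cc.1.val % 3 = (a.val + 1) % 3),
        (H (n := n) a cc.1 ∩ H a cc.2)ᶜ) ≤ q ^ M := by
    intro cc hcc
    simp only [T, Finset.mem_filter, Finset.mem_univ, true_and] at hcc
    refine (fail_prob p hcc.1 _).trans ?_
    exact pow_le_pow_of_le_one hq0 hq1 (parts_card hK _ (Nat.mod_lt _ (by norm_num)))
  refine (Finset.sum_le_sum h1).trans ?_
  rw [Finset.sum_const, nsmul_eq_mul]
  apply mul_le_mul_of_nonneg_right _ (pow_nonneg hq0 _)
  have : T.card ≤ K ^ 2 := by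
    refine (Finset.card_filter_le _ _).trans ?_
    rw [Finset.card_univ, Fintype.card_prod, Fintype.card_fin, sq]
  exact_mod_cast this

lemma conn_of_good {M : ℕ} (hK : K = 3 * M) (hM : 2 ≤ M) (hn : 0 < n)
    {ω : (Sym2 (Fin n) ⊕ (Fin n × Fin K)) → Bool} (hω : ω ∈ good n K) :
    (bitGraph (bb K) bb_symm ω).Connected := by
  classical
  set G := bitGraph (bb K) bb_symm ω with hG
  have hlab3 : ∀ x : Fin n, (lab K x).val % 3 = x.val % 3 := by
    intro x
    show (x.val % K) % 3 = x.val % 3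
    rw [hK]
    exact Nat.mod_mod_of_dvd _ ⟨M, rfl⟩
  -- hubs are adjacent
  have hadj : ∀ (z x : Fin n), (lab K x).val % 3 = ((lab K z).val + 1) % 3 →
      ω (Sum.inr (z, lab K x)) = true → G.Adj z x := by
    intro z x h1 h2
    have hz := hlab3 z
    have hx := hlab3 x
    have h3 : x.val % 3 = (z.val + 1) % 3 := by omega
    refine ⟨?_, ?_⟩
    · rintro rfl
      omega
    · show ω (bb K z x) = true
      rw [bb, if_pos h3]
      exact h2
  -- another label
  have hother : ∀ c : Fin K, ∃ c' : Fin K, c ≠ c' ∧ c.val % 3 = c'.val % 3 := by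
    intro c
    have hc := c.isLt
    by_cases h : c.val < 3
    · refine ⟨⟨c.val + 3, by omega⟩, ?_, ?_⟩
      · intro h'
        have := congrArg Fin.val h'
        simp at this
      · show c.val % 3 = (c.val + 3) % 3
        omega
    · refine ⟨⟨c.val - 3, by omega⟩, ?_, ?_⟩
      · intro h'
        have := congrArg Fin.val h'
        simp only at this
        omega
      · show c.val % 3 = (c.val - 3) % 3
        omega
  have hsame : ∀ x y : Fin n, lab K x = lab K y → G.Reachable x y := by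
    intro x y hxy
    obtain ⟨c', hc1, hc2⟩ := hother (lab K x)
    obtain ⟨a, ha, ⟨z, hz1, hz2⟩, -⟩ := hω _ _ hc1 hc2
    have h1 : G.Adj z x := hadj z x (by rw [hz1]; exact ha) hz2
    have h2 : G.Adj z y := hadj z y (by rw [hz1, ← hxy]; exact ha) (by rw [← hxy]; exact hz2)
    exact h1.symm.reachable.trans h2.reachable
  have hpart : ∀ x y : Fin n, x.val % 3 = y.val % 3 → G.Reachable x y := by
    intro x y hxy
    by_cases hl : lab K x = lab K y
    · exact hsame x y hl
    · obtain ⟨a, ha, ⟨z, hz1, hz2⟩, ⟨z', hz1', hz2'⟩⟩ := hω _ _ hl (by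
        rw [hlab3, hlab3]; exact hxy)
      have h1 : G.Adj z x := hadj z x (by rw [hz1]; exact ha) hz2
      have h2 : G.Adj z' y := hadj z' y (by
        rw [hz1', hlab3, ← hxy, ← hlab3 x]; exact ha) hz2'
      exact (h1.symm.reachable.trans (hsame z z' (hz1.trans hz1'.symm))).trans h2.reachable
  have hprev : ∀ x : Fin n, ∃ z : Fin n, x.val % 3 = (z.val + 1) % 3 ∧ G.Reachable x z := by
    intro x
    obtain ⟨c', hc1, hc2⟩ := hother (lab K x)
    obtain ⟨a, ha, ⟨z, hz1, hz2⟩, -⟩ := hω _ _ hc1 hc2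
    have h1 : G.Adj z x := hadj z x (by rw [hz1]; exact ha) hz2
    refine ⟨z, ?_, h1.symm.reachable⟩
    have h2 := hlab3 x
    have h3 := hlab3 z
    rw [hz1] at h3
    omega
  rw [SimpleGraph.connected_iff]
  refine ⟨?_, ⟨⟨0, hn⟩⟩⟩
  intro x y
  obtain ⟨z, hz1, hz2⟩ := hprev x
  obtain ⟨w, hw1, hw2⟩ := hprev z
  by_cases h0 : x.val % 3 = y.val % 3
  · exact hpart x y h0
  · by_cases h1 : z.val % 3 = y.val % 3
    · exact hz2.trans (hpart z y h1)
    · have h2 : w.val % 3 = y.val % 3 := by omega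
      exact (hz2.trans hw2).trans (hpart w y h2)

end Pool.Agent.X144.Clus
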