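import Pool.Agent.X144.Clus

set_option autoImplicit false

namespace Pool.Agent.X144.Clus

open MeasureTheory ProbabilityTheory Pool.Agent.X144.Bits Pool.Agent.X144.DepRG Filter Topology

/-- `t(n)` -/
noncomputable def tt (n : ℕ) : ℕ := ⌊(Real.log n) ^ (1 / 4 : ℝ)⌋₊ + 2

lemma tt_ge (n : ℕ) : 2 ≤ tt n := Nat.le_add_left _ _

lemma tt_tendsto : Tendsto tt atTop atTop := by
  have h1 : Tendsto (fun n : ℕ => (Real.log n) ^ (1 / 4 : ℝ)) atTop atTop :=
    (tendsto_rpow_atTop (by norm_num : (0 : ℝ) < 1 / 4)).comp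
      (Real.tendsto_log_atTop.comp tendsto_natCast_atTop_atTop)
  exact tendsto_atTop_mono (fun n => Nat.le_add_right _ _) ((tendsto_nat_floor_atTop).comp h1)

lemma log_nonneg' (n : ℕ) : 0 ≤ Real.log n := Real.log_natCast_nonneg n

lemma tt_pow (n : ℕ) : Real.log n ≤ (tt n : ℝ) ^ 4 := by
  have h0 := log_nonneg' n
  have h1 : (Real.log n) ^ (1 / 4 : ℝ) ≤ tt n := by
    have := Nat.lt_floor_add_one ((Real.log n) ^ (1 / 4 : ℝ))
    unfold tt
    push_cast
    linarith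
  have h2 : ((Real.log n) ^ (1 / 4 : ℝ)) ^ 4 = Real.log n := by
    rw [← Real.rpow_natCast, ← Real.rpow_mul h0]
    norm_num
  calc Real.log n = ((Real.log n) ^ (1 / 4 : ℝ)) ^ 4 := h2.symm
    _ ≤ (tt n : ℝ) ^ 4 := by
      apply pow_le_pow_left₀ (Real.rpow_nonneg h0 _) h1

/-- `(t - 2)^4 ≤ log n` -/
lemma tt_pow' (n : ℕ) : ((tt n : ℝ) - 2) ^ 4 ≤ Real.log n := by
  have h0 := log_nonneg' n
  have h1 : ((tt n : ℝ) - 2) ≤ (Real.log n) ^ (1 / 4 : ℝ) := by
    have := Nat.floor_le (Real.rpow_nonneg h0 (1 / 4 : ℝ))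
    unfold tt
    push_cast
    linarith
  have h2 : ((Real.log n) ^ (1 / 4 : ℝ)) ^ 4 = Real.log n := by
    rw [← Real.rpow_natCast, ← Real.rpow_mul h0]
    norm_num
  have h3 : (0 : ℝ) ≤ (tt n : ℝ) - 2 := by
    have : (2 : ℝ) ≤ tt n := by exact_mod_cast tt_ge n
    linarith
  calc ((tt n : ℝ) - 2) ^ 4 ≤ ((Real.log n) ^ (1 / 4 : ℝ)) ^ 4 := pow_le_pow_left₀ h3 h1 _
    _ = Real.log n := h2

/-- eventually `t^4 ≤ 16 log n` -/
lemma tt_upper : ∀ᶠ n : ℕ in atTop, (tt n : ℝ) ^ 4 ≤ 16 * Real.log n := by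
  filter_upwards [tt_tendsto.eventually_ge_atTop 4] with n hn
  have h1 : (4 : ℝ) ≤ tt n := by exact_mod_cast hn
  have h2 := tt_pow' n
  have h3 : (tt n : ℝ) ≤ 2 * ((tt n : ℝ) - 2) := by linarith
  calc (tt n : ℝ) ^ 4 ≤ (2 * ((tt n : ℝ) - 2)) ^ 4 := pow_le_pow_left₀ (by positivity) h3 _
    _ = 16 * ((tt n : ℝ) - 2) ^ 4 := by ring
    _ ≤ 16 * Real.log n := by linarith

/-- number of labels -/
noncomputable def KK (n : ℕ) : ℕ := 3 * (tt n) ^ 4

noncomputable instance (n : ℕ) : NeZero (KK n) := ⟨by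
  have := tt_ge n
  unfold KK
  positivity⟩

/-- edge probability -/
noncomputable def pp (n : ℕ) : unitInterval :=
  Set.projIcc 0 1 zero_le_one ((tt n : ℝ) ^ 3 / n)

/-- dependency -/
noncomputable def dd (n : ℕ) : ℕ := n / KK n + 1

lemma big : ∀ᶠ n : ℕ in atTop, 6 * (tt n : ℝ) ^ 4 ≤ n := by
  have h1 : Tendsto (fun n : ℕ => Real.log n / n) atTop (𝓝 0) :=
    Real.isLittleO_log_id_atTop.tendsto_div_nhds_zero.comp tendsto_natCast_atTop_atTop
  filter_upwards [tt_upper, h1.eventually_lt_const (show (0 : ℝ) < 1 / 96 by norm_num),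
    eventually_gt_atTop 0] with n hn h2 h3
  have hn0 : (0 : ℝ) < n := by exact_mod_cast h3
  rw [div_lt_iff₀ hn0] at h2
  linarith

lemma pp_eq : ∀ᶠ n : ℕ in atTop, (pp n : ℝ) = (tt n : ℝ) ^ 3 / n := by
  filter_upwards [big, eventually_gt_atTop 0] with n hn h3
  have hn0 : (0 : ℝ) < n := by exact_mod_cast h3
  have h2 : (2 : ℝ) ≤ tt n := by exact_mod_cast tt_ge n
  unfold pp
  rw [Set.projIcc_of_mem]
  constructor
  · positivity
  · rw [div_le_one hn0]
    have : (0 : ℝ) ≤ (tt n : ℝ) ^ 3 := by positivity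
    nlinarith

lemma pp_small : (fun n : ℕ => (pp n : ℝ)) =o[atTop] (fun n : ℕ => Real.log n / n) := by
  have h0 : (fun n : ℕ => (pp n : ℝ)) =ᶠ[atTop] (fun n : ℕ => (tt n : ℝ) ^ 3 / n) := pp_eq
  refine h0.trans_isLittleO ?_
  rw [Asymptotics.isLittleO_iff]
  intro c hc
  have h1 : ∀ᶠ n : ℕ in atTop, 16 / c ≤ (tt n : ℝ) :=
    (tendsto_natCast_atTop_atTop.comp tt_tendsto).eventually_ge_atTop _
  filter_upwards [h1, eventually_gt_atTop 0, tt_tendsto.eventually_ge_atTop 4] with n h2 h3 h4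
  have hn0 : (0 : ℝ) < n := by exact_mod_cast h3
  have ht4 : (4 : ℝ) ≤ tt n := by exact_mod_cast h4
  have hlog : (tt n : ℝ) ^ 4 ≤ 16 * Real.log n := by
    have h2 := tt_pow' n
    have h3 : (tt n : ℝ) ≤ 2 * ((tt n : ℝ) - 2) := by linarith
    calc (tt n : ℝ) ^ 4 ≤ (2 * ((tt n : ℝ) - 2)) ^ 4 := pow_le_pow_left₀ (by positivity) h3 _
      _ = 16 * ((tt n : ℝ) - 2) ^ 4 := by ring
      _ ≤ 16 * Real.log n := by linarith
  have hl0 := log_nonneg' n
  rw [Real.norm_of_nonneg (by positivity), Real.norm_of_nonneg (by positivity), ← mul_div_assoc]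
  apply div_le_div_of_nonneg_right _ hn0.le
  rw [div_le_iff₀ hc] at h2
  have h5 : (0 : ℝ) ≤ (tt n : ℝ) ^ 3 := by positivity
  have h6 : 16 * (tt n : ℝ) ^ 3 ≤ 16 * (c * Real.log n) := by
    calc 16 * (tt n : ℝ) ^ 3 ≤ ((tt n : ℝ) * c) * (tt n : ℝ) ^ 3 :=
          mul_le_mul_of_nonneg_right h2 h5
      _ = c * (tt n : ℝ) ^ 4 := by ring
      _ ≤ c * (16 * Real.log n) := mul_le_mul_of_nonneg_left hlog hc.le
      _ = 16 * (c * Real.log n) := by ring
  linarith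

lemma dd_big : (fun n : ℕ => (dd n : ℝ)) =O[atTop] (fun n : ℕ => (n : ℝ) / Real.log n) := by
  rw [Asymptotics.isBigO_iff]
  refine ⟨2, ?_⟩
  filter_upwards [eventually_ge_atTop 3] with n hn
  have hn3 : (3 : ℝ) ≤ n := by exact_mod_cast hn
  have hn0 : (0 : ℝ) < n := by linarith
  have hl1 : 1 ≤ Real.log n := by
    rw [Real.le_log_iff_exp_le hn0]
    have := Real.exp_one_lt_d9
    linarith
  have hl0 : 0 < Real.log n := by linarith
  rw [Real.norm_of_nonneg (by positivity), Real.norm_of_nonneg (by positivity)]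
  have h1 : ((n / KK n : ℕ) : ℝ) ≤ (n : ℝ) / Real.log n := by
    refine Nat.cast_div_le.trans ?_
    apply div_le_div_of_nonneg_left hn0.le hl0
    have h2 := tt_pow n
    unfold KK
    push_cast
    linarith
  have h2 : (1 : ℝ) ≤ (n : ℝ) / Real.log n := by
    rw [le_div_iff₀ hl0, one_mul]
    have := Real.log_le_sub_one_of_pos hn0
    linarith
  unfold dd
  push_cast
  push_cast at h1
  linarith

lemma fail_lim : Tendsto (fun n : ℕ =>
    (BM (Sym2 (Fin n) ⊕ (Fin n × Fin (KK n))) (pp n)).real (good n (KK n))ᶜ) atTop (𝓝 0) := by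
  have hlim : Tendsto (fun n : ℕ => 9 * (tt n : ℝ) ^ 8 * Real.exp (-((tt n : ℝ) ^ 2 / 144)))
      atTop (𝓝 0) := by
    have h1 := Real.tendsto_pow_mul_exp_neg_atTop_nhds_zero 4
    have h2 : Tendsto (fun n : ℕ => (tt n : ℝ) ^ 2 / 144) atTop atTop :=
      (((tendsto_pow_atTop (by norm_num : (2 : ℕ) ≠ 0)).comp
        (tendsto_natCast_atTop_atTop.comp tt_tendsto))).atTop_div_const (by norm_num)
    have h3 := (h1.comp h2).const_mul (9 * 144 ^ 4)
    rw [mul_zero] at h3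
    refine h3.congr fun n => ?_
    simp only [Function.comp]
    ring
  refine squeeze_zero' (Eventually.of_forall fun n => measureReal_nonneg) ?_ hlim
  filter_upwards [big, pp_eq, eventually_gt_atTop 0] with n hbig hpp h3
  have hn0 : (0 : ℝ) < n := by exact_mod_cast h3
  have ht2 : (2 : ℝ) ≤ tt n := by exact_mod_cast tt_ge n
  have ht0 : (0 : ℝ) < tt n := by linarith
  refine (good_prob (K := KK n) (pp n) (M := tt n ^ 4) rfl).trans ?_
  have hK : ((KK n : ℕ) : ℝ) = 3 * (tt n : ℝ) ^ 4 := by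
    unfold KK; push_cast; ring
  have hs : (n : ℝ) / (6 * (tt n : ℝ) ^ 4) ≤ ((n / KK n : ℕ) : ℝ) := by
    have h4 : (n : ℝ) / (KK n : ℝ) - 1 ≤ ((n / KK n : ℕ) : ℝ) := by
      have h5 := Nat.lt_floor_add_one ((n : ℝ) / (KK n : ℝ))
      rw [Nat.floor_div_natCast, Nat.floor_natCast] at h5
      linarith
    refine le_trans ?_ h4
    rw [hK, le_sub_iff_add_le]
    have h6 : 1 ≤ (n : ℝ) / (6 * (tt n : ℝ) ^ 4) := by
      rw [le_div_iff₀ (by positivity)]
      linarith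
    have h7 : (n : ℝ) / (3 * (tt n : ℝ) ^ 4) = 2 * ((n : ℝ) / (6 * (tt n : ℝ) ^ 4)) := by
      field_simp
      ring
    linarith
  -- the power
  have hq : (1 - (pp n : ℝ)) ^ (n / KK n) ≤ 1 - 1 / (12 * (tt n : ℝ)) := by
    have h8 : (1 - (pp n : ℝ)) ≤ Real.exp (-(pp n : ℝ)) := by
      have := Real.add_one_le_exp (-(pp n : ℝ))
      linarith
    have h9 : (1 - (pp n : ℝ)) ^ (n / KK n) ≤ Real.exp (-(1 / (6 * (tt n : ℝ)))) := by
      calc (1 - (pp n : ℝ)) ^ (n / KK n) ≤ Real.exp (-(pp n : ℝ)) ^ (n / KK n) :=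
            pow_le_pow_left₀ (sub_nonneg.2 (pp n).2.2) h8 _
        _ = Real.exp (-((n / KK n : ℕ) * (pp n : ℝ))) := by
            rw [← Real.exp_nat_mul]
            ring_nf
        _ ≤ Real.exp (-(1 / (6 * (tt n : ℝ)))) := by
            apply Real.exp_le_exp.2
            apply neg_le_neg
            rw [hpp]
            calc 1 / (6 * (tt n : ℝ)) = (n : ℝ) / (6 * (tt n : ℝ) ^ 4) * ((tt n : ℝ) ^ 3 / n) := by
                  field_simp
              _ ≤ _ := mul_le_mul_of_nonneg_right hs (by positivity)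
    refine h9.trans ?_
    have hx0 : 0 ≤ 1 / (6 * (tt n : ℝ)) := by positivity
    have hx1 : 1 / (6 * (tt n : ℝ)) ≤ 1 := by
      rw [div_le_one (by positivity)]
      linarith
    set x := 1 / (6 * (tt n : ℝ)) with hx
    have h10 : 1 / (12 * (tt n : ℝ)) = x / 2 := by rw [hx]; field_simp; norm_num
    rw [h10]
    have h12 : Real.exp (-x) ≤ 1 / (1 + x) := by
      rw [Real.exp_neg, ← one_div]
      apply one_div_le_one_div_of_le (by positivity)
      have := Real.add_one_le_exp x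
      linarith
    refine h12.trans ?_
    rw [div_le_iff₀ (by positivity)]
    nlinarith
  have hq0 : 0 ≤ (1 - (pp n : ℝ)) ^ (n / KK n) := pow_nonneg (sub_nonneg.2 (pp n).2.2) _
  have h13 : 1 - (1 - (1 - (pp n : ℝ)) ^ (n / KK n)) ^ 2 ≤ 1 - 1 / (144 * (tt n : ℝ) ^ 2) := by
    have h14 : (1 / (12 * (tt n : ℝ))) ^ 2 ≤ (1 - (1 - (pp n : ℝ)) ^ (n / KK n)) ^ 2 :=
      pow_le_pow_left₀ (by positivity) (by linarith) _
    have h15 : (1 / (12 * (tt n : ℝ))) ^ 2 = 1 / (144 * (tt n : ℝ) ^ 2) := by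
      rw [div_pow, mul_pow]; norm_num
    rw [h15] at h14
    linarith
  have h16 : 0 ≤ 1 - (1 - (1 - (pp n : ℝ)) ^ (n / KK n)) ^ 2 := by
    have : (1 - (pp n : ℝ)) ^ (n / KK n) ≤ 1 :=
      pow_le_one₀ (sub_nonneg.2 (pp n).2.2) (by linarith [(pp n).2.1])
    nlinarith
  have h17 : (1 - (1 - (1 - (pp n : ℝ)) ^ (n / KK n)) ^ 2) ^ (tt n ^ 4) ≤
      Real.exp (-((tt n : ℝ) ^ 2 / 144)) := by
    calc (1 - (1 - (1 - (pp n : ℝ)) ^ (n / KK n)) ^ 2) ^ (tt n ^ 4)
        ≤ (Real.exp (-(1 / (144 * (tt n : ℝ) ^ 2)))) ^ (tt n ^ 4) := by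
          apply pow_le_pow_left₀ h16
          refine h13.trans ?_
          have := Real.add_one_le_exp (-(1 / (144 * (tt n : ℝ) ^ 2)))
          linarith
      _ = Real.exp (-((tt n : ℝ) ^ 2 / 144)) := by
          rw [← Real.exp_nat_mul]
          congr 1
          push_cast
          field_simp
  calc ((KK n : ℕ) : ℝ) ^ 2 * (1 - (1 - (1 - (pp n : ℝ)) ^ (n / KK n)) ^ 2) ^ (tt n ^ 4)
      ≤ ((KK n : ℕ) : ℝ) ^ 2 * Real.exp (-((tt n : ℝ) ^ 2 / 144)) :=
        mul_le_mul_of_nonneg_left h17 (by positivity)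
    _ = 9 * (tt n : ℝ) ^ 8 * Real.exp (-((tt n : ℝ) ^ 2 / 144)) := by
        rw [hK]; ring

theorem conn_lim : Tendsto (fun n : ℕ =>
    (BM (Sym2 (Fin n) ⊕ (Fin n × Fin (KK n))) (pp n)).real
      {ω | (bitGraph (bb (KK n)) bb_symm ω).Connected}) atTop (𝓝 1) := by
  have h1 : Tendsto (fun n : ℕ => 1 -
      (BM (Sym2 (Fin n) ⊕ (Fin n × Fin (KK n))) (pp n)).real (good n (KK n))ᶜ) atTop
      (𝓝 (1 - 0)) := tendsto_const_nhds.sub fail_lim
  rw [sub_zero] at h1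
  refine tendsto_of_tendsto_of_tendsto_of_le_of_le' h1 tendsto_const_nhds ?_ ?_
  · filter_upwards [eventually_gt_atTop 0] with n hn
    have h2 := probReal_compl_eq_one_sub
      (μ := BM (Sym2 (Fin n) ⊕ (Fin n × Fin (KK n))) (pp n))
      (s := good n (KK n)) (Set.toFinite _).measurableSet
    rw [h2, sub_sub_cancel]
    apply measureReal_mono _ (measure_ne_top _ _)
    intro ω hω
    refine conn_of_good (K := KK n) (M := tt n ^ 4) rfl ?_ hn hω
    have := tt_ge n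
    calc 2 ≤ tt n := this
      _ ≤ tt n ^ 4 := Nat.le_self_pow (by norm_num) _
  · exact Eventually.of_forall fun n => measureReal_le_one

end Pool.Agent.X144.Clus
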