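import Pool.Agent.X144.Bits

set_option autoImplicit false

namespace Pool.Agent.X144.DepRG

open MeasureTheory ProbabilityTheory Pool.Agent.X144.Bits

/-- The pairs of (distinct) vertices. -/
abbrev Pair (n : ℕ) := {e : Sym2 (Fin n) // ¬ e.IsDiag}

/-- `G` is a `d`-dependent random graph on `Fin n` with edge probability `p`: every pair is an edge
with probability `p`, and the edge indicators have a dependency graph `D` of maximum degree at most
`d` (the indicator of each pair `e` is independent of the family of the indicators of all pairs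
`f ≠ e` not adjacent to `e` in `D`). -/
structure IsDepRG {Ω : Type} [MeasurableSpace Ω] (μ : Measure Ω) {n : ℕ}
    (G : Ω → SimpleGraph (Fin n)) (p : ℝ) (d : ℕ) : Prop where
  meas : ∀ e : Pair n, MeasurableSet {ω | e.1 ∈ (G ω).edgeSet}
  prob : ∀ e : Pair n, μ.real {ω | e.1 ∈ (G ω).edgeSet} = p
  dep : ∃ D : SimpleGraph (Pair n), (∀ e, (D.neighborSet e).ncard ≤ d) ∧
    ∀ e, IndepFun (fun ω => (e.1 ∈ (G ω).edgeSet : Prop))
      (fun ω (f : {f : Pair n // f ≠ e ∧ ¬ D.Adj e f}) => (f.1.1 ∈ (G ω).edgeSet : Prop)) μ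

variable {n : ℕ} {β : Type} [Fintype β]

/-- graph defined by bits: the pair `{x, y}` is an edge iff its bit is on -/
def bitGraph (b : Fin n → Fin n → β) (hb : ∀ x y, b x y = b y x) (ω : β → Bool) :
    SimpleGraph (Fin n) where
  Adj x y := x ≠ y ∧ ω (b x y) = true
  symm := ⟨fun x y h => ⟨h.1.symm, by rw [hb]; exact h.2⟩⟩
  loopless := ⟨fun _ h => h.1 rfl⟩

/-- bit of a pair -/
def bitOf (b : Fin n → Fin n → β) (hb : ∀ x y, b x y = b y x) (e : Sym2 (Fin n)) : β :=
  Sym2.lift ⟨b, hb⟩ e

omit [Fintype β] in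
lemma mem_edgeSet (b : Fin n → Fin n → β) (hb : ∀ x y, b x y = b y x) (ω : β → Bool)
    (e : Pair n) : e.1 ∈ (bitGraph b hb ω).edgeSet ↔ ω (bitOf b hb e.1) = true := by
  obtain ⟨e, he⟩ := e
  induction e using Sym2.inductionOn with
  | _ x y =>
    simp only [SimpleGraph.mem_edgeSet, bitGraph, bitOf, Sym2.lift_mk]
    constructor
    · intro h; exact h.2
    · intro h; exact ⟨fun h' => he (by simpa using h'), h⟩

lemma bitGraph_isDep (b : Fin n → Fin n → β) (hb : ∀ x y, b x y = b y x) (p : unitInterval)
    (d : ℕ) (hdeg : ∀ e : Pair n, {f : Pair n | f ≠ e ∧ bitOf b hb f.1 = bitOf b hb e.1}.ncard ≤ d) :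
    IsDepRG (BM β p) (bitGraph b hb) p d where
  meas e := (Set.toFinite _).measurableSet
  prob e := by
    simp only [mem_edgeSet]
    exact BM_coord p _
  dep := by
    classical
    refine ⟨{ Adj := fun e f => e ≠ f ∧ bitOf b hb e.1 = bitOf b hb f.1
              symm := ⟨fun e f h => ⟨h.1.symm, h.2.symm⟩⟩
              loopless := ⟨fun _ h => h.1 rfl⟩ }, ?_, ?_⟩
    · intro e
      refine le_trans (le_of_eq ?_) (hdeg e)
      congr 1
      ext f
      simp only [SimpleGraph.neighborSet, Set.mem_ofPred_eq]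
      constructor
      · rintro ⟨h1, h2⟩; exact ⟨h1.symm, h2.symm⟩
      · rintro ⟨h1, h2⟩; exact ⟨h1.symm, h2.symm⟩
    · intro e
      set i := bitOf b hb e.1 with hi
      have h := (BM_iIndep (β := β) p).indepFun_finset {i} (Finset.univ.filter fun j => j ≠ i)
        (by
          rw [Finset.disjoint_left]
          intro j hj hj'
          rw [Finset.mem_singleton] at hj
          rw [Finset.mem_filter] at hj'
          exact hj'.2 hj) (fun j => measurable_pi_apply j)
      have h2 := h.comp
        (φ := fun g : (({i} : Finset β) → Bool) => (g ⟨i, Finset.mem_singleton_self i⟩ = true : Prop))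
        (ψ := fun (g : ((Finset.univ.filter fun j => j ≠ i : Finset β) → Bool))
          (f : {f : Pair n // f ≠ e ∧ ¬ (e ≠ f ∧ bitOf b hb e.1 = bitOf b hb f.1)}) =>
            (g ⟨bitOf b hb f.1.1, by
              rw [Finset.mem_filter]
              refine ⟨Finset.mem_univ _, fun h' => f.2.2 ⟨f.2.1.symm, ?_⟩⟩
              rw [h']⟩ = true : Prop))
        (measurable_of_countable _) (measurable_of_countable _)
      convert h2 using 2
      · exact mem_edgeSet b hb _ e
      · exact funext fun f => propext (mem_edgeSet b hb _ f.1)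

end Pool.Agent.X144.DepRG
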