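import Mathlib

set_option autoImplicit false

namespace Pool.Agent.X144.Kon

open Finset

variable {n : ℕ}

/-- A matching of `G`: a set of edges of `G`, no two of which share a vertex. -/
def IsMatchingSet (G : SimpleGraph (Fin n)) (M : Finset (Sym2 (Fin n))) : Prop :=
  (∀ e ∈ M, e ∈ G.edgeSet) ∧ ∀ e ∈ M, ∀ f ∈ M, e ≠ f → ∀ v, ¬ (v ∈ e ∧ v ∈ f)

/-- A vertex cover of `G`. -/
def IsCover (G : SimpleGraph (Fin n)) (C : Finset (Fin n)) : Prop :=
  ∀ e ∈ G.edgeSet, ∃ v ∈ C, v ∈ e

/-- The matching number. -/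
noncomputable def nu (G : SimpleGraph (Fin n)) : ℕ :=
  sSup {k | ∃ M, IsMatchingSet G M ∧ M.card = k}

/-- The vertex cover number. -/
noncomputable def tau (G : SimpleGraph (Fin n)) : ℕ :=
  sInf {k | ∃ C, IsCover G C ∧ C.card = k}

/-- `G` has a perfect matching. -/
def HasPM (G : SimpleGraph (Fin n)) : Prop :=
  ∃ M, IsMatchingSet G M ∧ ∀ v : Fin n, ∃ e ∈ M, v ∈ e

/-- The pairs of distinct vertices. -/
abbrev Pair (n : ℕ) := {e : Sym2 (Fin n) // ¬ e.IsDiag}

/-- An ordering of the `N = n(n-1)/2` pairs of vertices. -/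
abbrev Ordering (n : ℕ) := Fin (Fintype.card (Pair n)) ≃ Pair n

/-- `G + e`. -/
def addEdge (G : SimpleGraph (Fin n)) (e : Pair n) : SimpleGraph (Fin n) :=
  G ⊔ SimpleGraph.fromEdgeSet {e.1}

open Classical in
/-- The Konig graph process for the ordering `σ` (constant after time `N`). -/
noncomputable def proc (σ : Ordering n) : ℕ → SimpleGraph (Fin n)
  | 0 => ⊥
  | i + 1 => if h : i < Fintype.card (Pair n) then
      (if tau (addEdge (proc σ i) (σ ⟨i, h⟩)) = nu (addEdge (proc σ i) (σ ⟨i, h⟩)) then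
        addEdge (proc σ i) (σ ⟨i, h⟩) else proc σ i)
      else proc σ i

/-- `T = i`: `i` is the first index at which there is a perfect matching. -/
def IsT (σ : Ordering n) (i : ℕ) : Prop :=
  HasPM (proc σ i) ∧ ∀ j < i, ¬ HasPM (proc σ j)

/-- The event `T = ∞`, or `G_T` has exactly one vertex cover of size `τ(G_T)`. -/
def Good (σ : Ordering n) : Prop :=
  (∀ i, ¬ HasPM (proc σ i)) ∨
    ∃ i, IsT σ i ∧ ∃! C : Finset (Fin n), IsCover (proc σ i) C ∧ C.card = tau (proc σ i)

/-- The probability of the event `Good` for a uniformly random ordering. -/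
noncomputable def prGood (n : ℕ) : ℝ :=
  ({σ : Ordering n | Good σ}.ncard : ℝ) / (Nat.card (Ordering n) : ℝ)

/-! ### proofs -/

lemma nu_spec (G : SimpleGraph (Fin n)) : ∃ M, IsMatchingSet G M ∧ M.card = nu G := by
  apply Nat.sSup_mem (s := {k | ∃ M, IsMatchingSet G M ∧ M.card = k})
  · exact ⟨0, ∅, ⟨by simp, by simp⟩, rfl⟩
  · refine ⟨Fintype.card (Sym2 (Fin n)), ?_⟩
    rintro k ⟨M, _, rfl⟩
    exact Finset.card_le_univ M

lemma le_nu {G : SimpleGraph (Fin n)} {M : Finset (Sym2 (Fin n))} (h : IsMatchingSet G M) :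
    M.card ≤ nu G := by
  apply le_csSup
  · refine ⟨Fintype.card (Sym2 (Fin n)), ?_⟩
    rintro k ⟨M, _, rfl⟩
    exact Finset.card_le_univ M
  · exact ⟨M, h, rfl⟩

lemma tau_spec (G : SimpleGraph (Fin n)) : ∃ C, IsCover G C ∧ C.card = tau G := by
  apply Nat.sInf_mem (s := {k | ∃ C, IsCover G C ∧ C.card = k})
  refine ⟨_, Finset.univ, ?_, rfl⟩
  intro e _
  induction e using Sym2.inductionOn with
  | _ a b => exact ⟨a, Finset.mem_univ _, Sym2.mem_mk_left a b⟩

lemma tau_le {G : SimpleGraph (Fin n)} {C : Finset (Fin n)} (h : IsCover G C) :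
    tau G ≤ C.card := Nat.sInf_le ⟨C, h, rfl⟩

lemma nu_le_tau (G : SimpleGraph (Fin n)) : nu G ≤ tau G := by
  classical
  obtain ⟨M, hM, hMc⟩ := nu_spec G
  obtain ⟨C, hC, hCc⟩ := tau_spec G
  rw [← hMc, ← hCc]
  have h1 : ∀ e : Sym2 (Fin n), ∃ v, e ∈ M → v ∈ C ∧ v ∈ e := by
    intro e
    by_cases he : e ∈ M
    · obtain ⟨v, hv⟩ := hC e (hM.1 e he)
      exact ⟨v, fun _ => hv⟩
    · induction e using Sym2.inductionOn with
      | _ a b => exact ⟨a, fun h => absurd h he⟩
  choose f hf using h1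
  apply Finset.card_le_card_of_injOn f
  · intro e he
    exact (hf e he).1
  · intro e he e' he' heq
    by_contra hne
    exact hM.2 e he e' he' hne (f e) ⟨(hf e he).2, by rw [heq]; exact (hf e' he').2⟩

lemma mem_addEdge {G : SimpleGraph (Fin n)} {e : Pair n} {f : Sym2 (Fin n)} :
    f ∈ (addEdge G e).edgeSet ↔ f ∈ G.edgeSet ∨ f = e.1 := by
  rw [addEdge, SimpleGraph.edgeSet_sup, SimpleGraph.edgeSet_fromEdgeSet, Set.mem_union]
  constructor
  · rintro (h | h)
    · exact Or.inl h
    · exact Or.inr h.1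
  · rintro (h | h)
    · exact Or.inl h
    · exact Or.inr ⟨h, by rw [h]; exact e.2⟩

lemma matching_mono {G H : SimpleGraph (Fin n)} (h : G.edgeSet ⊆ H.edgeSet)
    {M : Finset (Sym2 (Fin n))} (hM : IsMatchingSet G M) : IsMatchingSet H M :=
  ⟨fun e he => h (hM.1 e he), hM.2⟩

lemma nu_mono {G H : SimpleGraph (Fin n)} (h : G.edgeSet ⊆ H.edgeSet) : nu G ≤ nu H := by
  obtain ⟨M, hM, hMc⟩ := nu_spec G
  rw [← hMc]
  exact le_nu (matching_mono h hM)

lemma sub_addEdge (G : SimpleGraph (Fin n)) (e : Pair n) :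
    G.edgeSet ⊆ (addEdge G e).edgeSet := fun _ h => mem_addEdge.2 (Or.inl h)

lemma matching_sub {M M' : Finset (Sym2 (Fin n))} {G : SimpleGraph (Fin n)} (h : M' ⊆ M)
    (hM : IsMatchingSet G M) : IsMatchingSet G M' :=
  ⟨fun e he => hM.1 e (h he), fun e he f hf => hM.2 e (h he) f (h hf)⟩

lemma matching_insert {G : SimpleGraph (Fin n)} {M : Finset (Sym2 (Fin n))}
    {f : Sym2 (Fin n)} (hM : IsMatchingSet G M) (hf : f ∈ G.edgeSet)
    (hmiss : ∀ e ∈ M, ∀ v ∈ f, v ∉ e) : IsMatchingSet G (insert f M) := by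
  classical
  constructor
  · intro e he
    rcases Finset.mem_insert.1 he with rfl | he
    · exact hf
    · exact hM.1 e he
  · intro e he g hg hne v hv
    rcases Finset.mem_insert.1 he with he1 | he1
    · rcases Finset.mem_insert.1 hg with hg1 | hg1
      · exact hne (he1.trans hg1.symm)
      · exact hmiss g hg1 v (he1 ▸ hv.1) hv.2
    · rcases Finset.mem_insert.1 hg with hg1 | hg1
      · exact hmiss e he1 v (hg1 ▸ hv.2) hv.1
      · exact hM.2 e he1 g hg1 hne v hv

/-- removing the new edge -/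
lemma matching_of_addEdge {G : SimpleGraph (Fin n)} {e : Pair n} {M : Finset (Sym2 (Fin n))}
    (hM : IsMatchingSet (addEdge G e) M) : IsMatchingSet G (M.erase e.1) := by
  constructor
  · intro f hf
    rw [Finset.mem_erase] at hf
    rcases mem_addEdge.1 (hM.1 f hf.2) with h | h
    · exact h
    · exact absurd h hf.1
  · exact (matching_sub (Finset.erase_subset _ _) hM).2

lemma nu_addEdge_le (G : SimpleGraph (Fin n)) (e : Pair n) : nu (addEdge G e) ≤ nu G + 1 := by
  obtain ⟨M, hM, hMc⟩ := nu_spec (addEdge G e)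
  have h1 := le_nu (matching_of_addEdge hM)
  have h2 := Finset.pred_card_le_card_erase (s := M) (a := e.1)
  omega

lemma tau_addEdge_le (G : SimpleGraph (Fin n)) (e : Pair n) : tau (addEdge G e) ≤ tau G + 1 := by
  classical
  obtain ⟨C, hC, hCc⟩ := tau_spec G
  obtain ⟨e, he⟩ := e
  induction e using Sym2.inductionOn with
  | _ a b =>
    have h1 : IsCover (addEdge G ⟨s(a, b), he⟩) (insert a C) := by
      intro f hf
      rcases mem_addEdge.1 hf with h | h
      · obtain ⟨v, hv, hv'⟩ := hC f h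
        exact ⟨v, Finset.mem_insert_of_mem hv, hv'⟩
      · refine ⟨a, Finset.mem_insert_self _ _, ?_⟩
        rw [h]
        exact Sym2.mem_mk_left a b
    have h2 := tau_le h1
    have h3 := Finset.card_insert_le a C
    omega

/-- exchange -/
lemma exchange {G : SimpleGraph (Fin n)} {M0 M1 : Finset (Sym2 (Fin n))}
    (h0 : IsMatchingSet G M0) (h1 : IsMatchingSet G M1) (h1c : M1.card = nu G) {x y : Fin n}
    (hx : ∀ e ∈ M1, x ∉ e) (hy : ∀ e ∈ M1, y ∉ e) :
    ∃ M2, IsMatchingSet G M2 ∧ M2.card = nu G ∧ (∀ e ∈ M2, x ∉ e) ∧ (∀ e ∈ M2, y ∉ e) ∧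
      ∀ z, z ≠ x → z ≠ y → (∀ e ∈ M2, z ∉ e) → ∀ e ∈ M0, z ∉ e := by
  classical
  let S : Finset (Finset (Sym2 (Fin n))) := Finset.univ.filter fun M =>
    IsMatchingSet G M ∧ M.card = nu G ∧ (∀ e ∈ M, x ∉ e) ∧ (∀ e ∈ M, y ∉ e)
  have hS : S.Nonempty := ⟨M1, by simp only [S, Finset.mem_filter, Finset.mem_univ, true_and]; exact
    ⟨h1, h1c, hx, hy⟩⟩
  obtain ⟨M2, hM2, hmax⟩ := Finset.exists_max_image S (fun M => (M ∩ M0).card) hS
  simp only [S, Finset.mem_filter, Finset.mem_univ, true_and] at hM2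
  obtain ⟨hm, hc, hx2, hy2⟩ := hM2
  refine ⟨M2, hm, hc, hx2, hy2, ?_⟩
  intro z hzx hzy hz f hf hzf
  obtain ⟨z1, rfl⟩ := Sym2.mem_iff_exists.1 hzf
  have hfG := h0.1 _ hf
  -- z1 is covered
  have hcov : ∃ g ∈ M2, z1 ∈ g := by
    by_contra hcon
    push Not at hcon
    have h2 : IsMatchingSet G (insert s(z, z1) M2) := by
      apply matching_insert hm hfG
      intro e he v hv
      rw [Sym2.mem_iff] at hv
      rcases hv with rfl | rfl
      · exact hz e he
      · exact hcon e he
    have h3 := le_nu h2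
    rw [Finset.card_insert_of_notMem (fun h => hz _ h hzf), hc] at h3
    omega
  obtain ⟨g, hg, hz1g⟩ := hcov
  have hgM0 : g ∉ M0 := by
    intro hgM0
    by_cases hgf : g = s(z, z1)
    · exact hz g hg (by rw [hgf]; exact hzf)
    · exact h0.2 g hgM0 _ hf hgf z1 ⟨hz1g, Sym2.mem_mk_right z z1⟩
  have hfM2 : s(z, z1) ∉ M2 := fun h => hz _ h hzf
  let M3 := insert s(z, z1) (M2.erase g)
  have hM3 : IsMatchingSet G M3 := by
    apply matching_insert (matching_sub (Finset.erase_subset _ _) hm) hfG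
    intro e he v hv
    rw [Finset.mem_erase] at he
    rw [Sym2.mem_iff] at hv
    rcases hv with rfl | rfl
    · exact hz e he.2
    · intro hve
      exact hm.2 e he.2 g hg he.1 _ ⟨hve, hz1g⟩
  have hM3c : M3.card = nu G := by
    have h4 : s(z, z1) ∉ M2.erase g := fun h => hfM2 (Finset.mem_of_mem_erase h)
    rw [Finset.card_insert_of_notMem h4, Finset.card_erase_of_mem hg]
    have : 0 < M2.card := Finset.card_pos.2 ⟨g, hg⟩
    omega
  have hmiss : ∀ w : Fin n, w ≠ z → (∀ e ∈ M2, w ∉ e) → ∀ e ∈ M3, w ∉ e := by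
    intro w hwz hw e he
    rcases Finset.mem_insert.1 he with rfl | he
    · intro hwe
      rw [Sym2.mem_iff] at hwe
      rcases hwe with rfl | rfl
      · exact hwz rfl
      · exact hw g hg hz1g
    · exact hw e (Finset.mem_of_mem_erase he)
  have h5 := hmax M3 (by
    simp only [S, Finset.mem_filter, Finset.mem_univ, true_and]
    exact ⟨hM3, hM3c, hmiss x (Ne.symm hzx) hx2, hmiss y (Ne.symm hzy) hy2⟩)
  have h6 : insert s(z, z1) (M2 ∩ M0) ⊆ M3 ∩ M0 := by
    intro e he
    rcases Finset.mem_insert.1 he with rfl | he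
    · exact Finset.mem_inter.2 ⟨Finset.mem_insert_self _ _, hf⟩
    · rw [Finset.mem_inter] at he ⊢
      refine ⟨Finset.mem_insert_of_mem (Finset.mem_erase.2 ⟨?_, he.1⟩), he.2⟩
      rintro rfl
      exact hgM0 he.2
  have h7 := Finset.card_le_card h6
  rw [Finset.card_insert_of_notMem (fun h => hfM2 (Finset.mem_inter.1 h).1)] at h7
  omega

lemma proc_succ {σ : Ordering n} {i : ℕ} (h : i < Fintype.card (Pair n)) :
    (proc σ (i + 1) = addEdge (proc σ i) (σ ⟨i, h⟩) ∧
      tau (addEdge (proc σ i) (σ ⟨i, h⟩)) = nu (addEdge (proc σ i) (σ ⟨i, h⟩))) ∨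
    (proc σ (i + 1) = proc σ i ∧
      tau (addEdge (proc σ i) (σ ⟨i, h⟩)) ≠ nu (addEdge (proc σ i) (σ ⟨i, h⟩))) := by
  classical
  simp only [proc, dif_pos h]
  by_cases h2 : tau (addEdge (proc σ i) (σ ⟨i, h⟩)) = nu (addEdge (proc σ i) (σ ⟨i, h⟩))
  · left
    rw [if_pos h2]
    exact ⟨rfl, h2⟩
  · right
    rw [if_neg h2]
    exact ⟨rfl, h2⟩

lemma proc_konig (σ : Ordering n) (i : ℕ) : tau (proc σ i) = nu (proc σ i) := by
  induction i with
  | zero =>
    have h1 : IsCover (proc σ 0) (∅ : Finset (Fin n)) := by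
      intro e he
      simp [proc] at he
    have h2 := tau_le h1
    have h3 := nu_le_tau (proc σ 0)
    simp only [Finset.card_empty] at h2
    omega
  | succ i ih =>
    by_cases h : i < Fintype.card (Pair n)
    · rcases proc_succ (σ := σ) h with ⟨h1, h2⟩ | ⟨h1, _⟩
      · rw [h1]; exact h2
      · rw [h1]; exact ih
    · have : proc σ (i + 1) = proc σ i := by simp only [proc, dif_neg h]
      rw [this]; exact ih

/-- the invariant: a maximum matching all pairs of whose missed vertices are still unseen -/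
lemma invariant (σ : Ordering n) (i : ℕ) (hi : i ≤ Fintype.card (Pair n)) :
    ∃ M, IsMatchingSet (proc σ i) M ∧ M.card = nu (proc σ i) ∧
      ∀ (j : ℕ) (hj : j < i) (a b : Fin n), (σ ⟨j, lt_of_lt_of_le hj hi⟩).1 = s(a, b) →
        ¬ ((∀ e ∈ M, a ∉ e) ∧ (∀ e ∈ M, b ∉ e)) := by
  classical
  induction i with
  | zero =>
    obtain ⟨M, hM, hMc⟩ := nu_spec (proc σ 0)
    exact ⟨M, hM, hMc, fun j hj => absurd hj (Nat.not_lt_zero j)⟩
  | succ i ih =>
    have h : i < Fintype.card (Pair n) := hi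
    obtain ⟨M, hM, hMc, hMi⟩ := ih h.le
    obtain ⟨x, y, hxy⟩ : ∃ x y, (σ ⟨i, h⟩).1 = s(x, y) := by
      induction (σ ⟨i, h⟩).1 using Sym2.inductionOn with
      | _ a b => exact ⟨a, b, rfl⟩
    have hK := proc_konig σ i
    by_cases hinc : nu (addEdge (proc σ i) (σ ⟨i, h⟩)) = nu (proc σ i)
    · -- the matching number does not increase
      have hmiss : ¬ ((∀ e ∈ M, x ∉ e) ∧ (∀ e ∈ M, y ∉ e)) := by
        rintro ⟨h1, h2⟩
        have h3 : IsMatchingSet (addEdge (proc σ i) (σ ⟨i, h⟩)) (insert s(x, y) M) := by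
          apply matching_insert (matching_mono (sub_addEdge _ _) hM)
          · exact mem_addEdge.2 (Or.inr hxy.symm)
          · intro e he v hv
            rw [Sym2.mem_iff] at hv
            rcases hv with rfl | rfl
            · exact h1 e he
            · exact h2 e he
        have h4 := le_nu h3
        rw [Finset.card_insert_of_notMem (fun h => h1 _ h (Sym2.mem_mk_left x y))] at h4
        omega
      have hMi' : ∀ (j : ℕ) (hj : j < i + 1) (a b : Fin n),
          (σ ⟨j, lt_of_lt_of_le hj hi⟩).1 = s(a, b) →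
          ¬ ((∀ e ∈ M, a ∉ e) ∧ (∀ e ∈ M, b ∉ e)) := by
        intro j hj a b hab
        rcases Nat.lt_succ_iff_lt_or_eq.1 hj with hj' | hj'
        · exact hMi j hj' a b hab
        · subst hj'
          rw [hxy] at hab
          rw [Sym2.eq_iff] at hab
          rcases hab with ⟨rfl, rfl⟩ | ⟨rfl, rfl⟩
          · exact hmiss
          · exact fun h => hmiss ⟨h.2, h.1⟩
      rcases proc_succ (σ := σ) h with ⟨h1, h2⟩ | ⟨h1, _⟩
      · refine ⟨M, ?_, ?_, hMi'⟩
        · rw [h1]; exact matching_mono (sub_addEdge _ _) hM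
        · rw [h1, hinc]; exact hMc
      · refine ⟨M, ?_, ?_, hMi'⟩
        · rw [h1]; exact hM
        · rw [h1]; exact hMc
    · -- the matching number increases
      have hle := nu_addEdge_le (proc σ i) (σ ⟨i, h⟩)
      have hge := nu_mono (sub_addEdge (proc σ i) (σ ⟨i, h⟩))
      have hnu : nu (addEdge (proc σ i) (σ ⟨i, h⟩)) = nu (proc σ i) + 1 := by omega
      have htau := tau_addEdge_le (proc σ i) (σ ⟨i, h⟩)
      have hnt := nu_le_tau (addEdge (proc σ i) (σ ⟨i, h⟩))
      rcases proc_succ (σ := σ) h with ⟨h1, h2⟩ | ⟨_, h2⟩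
      swap
      · exact absurd (by omega) h2
      obtain ⟨M', hM', hM'c⟩ := nu_spec (addEdge (proc σ i) (σ ⟨i, h⟩))
      have hmem : s(x, y) ∈ M' := by
        by_contra hcon
        have h3 := le_nu (matching_of_addEdge hM')
        rw [Finset.erase_eq_of_notMem (by rw [hxy]; exact hcon)] at h3
        omega
      have hM1 := matching_of_addEdge hM'
      rw [hxy] at hM1
      have hM1c : (M'.erase s(x, y)).card = nu (proc σ i) := by
        rw [Finset.card_erase_of_mem hmem]; omega
      have hx1 : ∀ e ∈ M'.erase s(x, y), x ∉ e := by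
        intro e he hxe
        rw [Finset.mem_erase] at he
        exact hM'.2 e he.2 _ hmem he.1 x ⟨hxe, Sym2.mem_mk_left x y⟩
      have hy1 : ∀ e ∈ M'.erase s(x, y), y ∉ e := by
        intro e he hye
        rw [Finset.mem_erase] at he
        exact hM'.2 e he.2 _ hmem he.1 y ⟨hye, Sym2.mem_mk_right x y⟩
      obtain ⟨M2, hM2, hM2c, hx2, hy2, hM2z⟩ := exchange hM hM1 hM1c hx1 hy1
      have hins : s(x, y) ∉ M2 := fun h' => hx2 _ h' (Sym2.mem_mk_left x y)
      refine ⟨insert s(x, y) M2, ?_, ?_, ?_⟩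
      · rw [h1]
        apply matching_insert (matching_mono (sub_addEdge _ _) hM2)
        · exact mem_addEdge.2 (Or.inr hxy.symm)
        · intro e he v hv
          rw [Sym2.mem_iff] at hv
          rcases hv with rfl | rfl
          · exact hx2 e he
          · exact hy2 e he
      · rw [h1, Finset.card_insert_of_notMem hins, hM2c, hnu]
      · have hmiss2 : ∀ a : Fin n, (∀ e ∈ insert s(x, y) M2, a ∉ e) → ∀ e ∈ M, a ∉ e := by
          intro a ha
          apply hM2z a
          · rintro rfl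
            exact ha _ (Finset.mem_insert_self _ _) (Sym2.mem_mk_left _ _)
          · rintro rfl
            exact ha _ (Finset.mem_insert_self _ _) (Sym2.mem_mk_right _ _)
          · exact fun e he => ha e (Finset.mem_insert_of_mem he)
        rintro j hj a b hab ⟨ha, hb⟩
        rcases Nat.lt_succ_iff_lt_or_eq.1 hj with hj' | hj'
        · exact hMi j hj' a b hab ⟨hmiss2 a ha, hmiss2 b hb⟩
        · subst hj'
          rw [hxy, Sym2.eq_iff] at hab
          rcases hab with ⟨rfl, rfl⟩ | ⟨rfl, rfl⟩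
          · exact ha _ (Finset.mem_insert_self _ _) (Sym2.mem_mk_left _ _)
          · exact ha _ (Finset.mem_insert_self _ _) (Sym2.mem_mk_right _ _)

/-- vertices covered by a matching -/
lemma covered_card {G : SimpleGraph (Fin n)} {M : Finset (Sym2 (Fin n))}
    (hM : IsMatchingSet G M) : ∃ W : Finset (Fin n), W.card = 2 * M.card ∧
      ∀ v, v ∈ W ↔ ∃ e ∈ M, v ∈ e := by
  classical
  refine ⟨M.biUnion fun e => e.toFinset, ?_, ?_⟩
  · rw [Finset.card_biUnion]
    · rw [Finset.sum_congr rfl (g := fun _ => 2), Finset.sum_const, smul_eq_mul, mul_comm]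
      intro e he
      exact Sym2.card_toFinset_of_not_isDiag e (SimpleGraph.not_isDiag_of_mem_edgeSet G (hM.1 e he))
    · intro e he f hf hne
      rw [Function.onFun, Finset.disjoint_left]
      intro v hv hv'
      rw [Sym2.mem_toFinset] at hv hv'
      exact hM.2 e he f hf hne v ⟨hv, hv'⟩
  · intro v
    simp only [Finset.mem_biUnion, Sym2.mem_toFinset]

/-- The process always reaches a perfect matching. -/
lemma final_PM (hn : Even n) (σ : Ordering n) : HasPM (proc σ (Fintype.card (Pair n))) := by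
  classical
  obtain ⟨M, hM, hMc, hMi⟩ := invariant σ _ le_rfl
  obtain ⟨W, hW, hWm⟩ := covered_card hM
  refine ⟨M, hM, ?_⟩
  by_contra hcon
  push Not at hcon
  obtain ⟨v, hv⟩ := hcon
  have hvW : v ∉ W := by
    rw [hWm]
    push Not
    exact hv
  have hcard : W.card < n := by
    have := Finset.card_lt_univ_of_notMem hvW
    simpa using this
  obtain ⟨k, hk⟩ := hn
  have h2 : (insert v W).card < (Finset.univ : Finset (Fin n)).card := by
    rw [Finset.card_insert_of_notMem hvW, Finset.card_univ, Fintype.card_fin]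
    omega
  obtain ⟨w, _, hw⟩ := Finset.exists_mem_notMem_of_card_lt_card h2
  rw [Finset.mem_insert, not_or] at hw
  have hw2 : ∀ e ∈ M, w ∉ e := by
    have := hw.2
    rw [hWm] at this
    push Not at this
    exact this
  have hne : ¬ (s(v, w) : Sym2 (Fin n)).IsDiag := by
    simpa using Ne.symm hw.1
  let j := σ.symm ⟨s(v, w), hne⟩
  refine hMi j.val j.isLt v w ?_ ⟨hv, hw2⟩
  show (σ j).1 = s(v, w)
  simp [j]

/-- at time `T` there are two optimal covers -/
lemma two_covers (hn2 : 2 ≤ n) (σ : Ordering n) {i : ℕ} (hT : IsT σ i) :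
    ∃ C C' : Finset (Fin n), C ≠ C' ∧ IsCover (proc σ i) C ∧ C.card = tau (proc σ i) ∧
      IsCover (proc σ i) C' ∧ C'.card = tau (proc σ i) := by
  classical
  obtain ⟨⟨M, hM, hMv⟩, hlt⟩ := hT
  obtain ⟨W, hW, hWm⟩ := covered_card hM
  have hWuniv : W = Finset.univ := by
    ext v; simp only [Finset.mem_univ, iff_true]; exact (hWm v).2 (hMv v)
  have hMcard : 2 * M.card = n := by
    rw [← hW, hWuniv, Finset.card_univ, Fintype.card_fin]
  cases i with
  | zero =>
    exfalso
    have : M = ∅ := by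
      by_contra hne
      obtain ⟨e, he⟩ := Finset.nonempty_of_ne_empty hne
      have := hM.1 e he
      simp [proc] at this
    rw [this, Finset.card_empty] at hMcard
    omega
  | succ i =>
    have hnot := hlt i (Nat.lt_succ_self i)
    by_cases h : i < Fintype.card (Pair n)
    swap
    · exfalso
      have : proc σ (i + 1) = proc σ i := by simp only [proc, dif_neg h]
      rw [this] at hM
      exact hnot ⟨M, hM, hMv⟩
    rcases proc_succ (σ := σ) h with ⟨h1, h2⟩ | ⟨h1, _⟩
    swap
    · exfalso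
      rw [h1] at hM
      exact hnot ⟨M, hM, hMv⟩
    obtain ⟨C, hC, hCc⟩ := tau_spec (proc σ i)
    have hK := proc_konig σ i
    rw [h1]
    rw [h1] at hM
    have hnuGe := le_nu hM
    have hnuLe := nu_addEdge_le (proc σ i) (σ ⟨i, h⟩)
    -- the matching number was smaller
    have hnulow : nu (proc σ i) < M.card := by
      by_contra hcon
      push Not at hcon
      obtain ⟨M', hM', hM'c⟩ := nu_spec (proc σ i)
      obtain ⟨W', hW', hWm'⟩ := covered_card hM'
      have h5 : W'.card ≤ n := by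
        have := Finset.card_le_univ W'
        simpa using this
      have h6 : W' = Finset.univ := by
        apply Finset.eq_univ_of_card
        rw [Fintype.card_fin]
        omega
      exact hnot ⟨M', hM', fun v => (hWm' v).1 (by rw [h6]; exact Finset.mem_univ v)⟩
    obtain ⟨x, y, hxy⟩ : ∃ x y, (σ ⟨i, h⟩).1 = s(x, y) := by
      induction (σ ⟨i, h⟩).1 using Sym2.inductionOn with
      | _ a b => exact ⟨a, b, rfl⟩
    have hxyne : x ≠ y := by
      have := (σ ⟨i, h⟩).2
      rw [hxy] at this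
      simpa using this
    have htau : tau (addEdge (proc σ i) (σ ⟨i, h⟩)) = C.card + 1 := by omega
    have hnc : ¬ IsCover (addEdge (proc σ i) (σ ⟨i, h⟩)) C := by
      intro hh
      have := tau_le hh
      omega
    have hxC : x ∉ C := by
      intro hx
      apply hnc
      intro e he
      rcases mem_addEdge.1 he with he | he
      · exact hC e he
      · exact ⟨x, hx, by rw [he, hxy]; exact Sym2.mem_mk_left _ _⟩
    have hyC : y ∉ C := by
      intro hy
      apply hnc
      intro e he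
      rcases mem_addEdge.1 he with he | he
      · exact hC e he
      · exact ⟨y, hy, by rw [he, hxy]; exact Sym2.mem_mk_right _ _⟩
    refine ⟨insert x C, insert y C, ?_, ?_, ?_, ?_, ?_⟩
    · intro heq
      have : x ∈ insert y C := heq ▸ Finset.mem_insert_self x C
      rcases Finset.mem_insert.1 this with h' | h'
      · exact hxyne h'
      · exact hxC h'
    · intro e he
      rcases mem_addEdge.1 he with he | he
      · obtain ⟨v, hv, hv'⟩ := hC e he
        exact ⟨v, Finset.mem_insert_of_mem hv, hv'⟩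
      · exact ⟨x, Finset.mem_insert_self _ _, by rw [he, hxy]; exact Sym2.mem_mk_left _ _⟩
    · rw [Finset.card_insert_of_notMem hxC, htau]
    · intro e he
      rcases mem_addEdge.1 he with he | he
      · obtain ⟨v, hv, hv'⟩ := hC e he
        exact ⟨v, Finset.mem_insert_of_mem hv, hv'⟩
      · exact ⟨y, Finset.mem_insert_self _ _, by rw [he, hxy]; exact Sym2.mem_mk_right _ _⟩
    · rw [Finset.card_insert_of_notMem hyC, htau]

lemma exists_T (hn : Even n) (σ : Ordering n) :
    ∃ i, i ≤ Fintype.card (Pair n) ∧ IsT σ i := by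
  classical
  have hex : ∃ i, HasPM (proc σ i) := ⟨_, final_PM hn σ⟩
  refine ⟨Nat.find hex, Nat.find_min' hex (final_PM hn σ), Nat.find_spec hex, ?_⟩
  intro j hj
  exact Nat.find_min hex hj

lemma not_good (hn : Even n) (hn2 : 2 ≤ n) (σ : Ordering n) : ¬ Good σ := by
  rintro (h | ⟨i, hT, C, ⟨hC1, hC2⟩, huniq⟩)
  · exact h _ (final_PM hn σ)
  · obtain ⟨C1, C2, hne, h1, h2, h3, h4⟩ := two_covers hn2 σ hT
    exact hne ((huniq C1 ⟨h1, h2⟩).trans (huniq C2 ⟨h3, h4⟩).symm)

end Pool.Agent.X144.Kon
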