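import Mathlib

set_option autoImplicit false

namespace Pool.Agent.X144.Pen

open SimpleGraph

/-- In a Hamiltonian graph, a nonempty set `A` all of whose neighbours lie in a set `C` disjoint
from `A`, where `A ∪ C` is not everything, is smaller than `C`. -/
theorem card_lt_of_hamiltonian {V : Type*} [Fintype V] [DecidableEq V] (G : SimpleGraph V)
    (hG : G.IsHamiltonian) (A C : Finset V) (hA : A.Nonempty)
    (hN : ∀ a ∈ A, ∀ b, G.Adj a b → b ∈ C) (v : V) (hvA : v ∉ A) (hvC : v ∉ C) :
    A.card < C.card := by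
  classical
  obtain ⟨a0, ha0⟩ := hA
  have hne : a0 ≠ v := fun h => hvA (h ▸ ha0)
  have : Nontrivial V := ⟨a0, v, hne⟩
  obtain ⟨p, hp⟩ := hG.exists_isHamiltonianCycle a0
  have hc := hp.isCycle
  have hinj := hc.getVert_injOn'
  have hlen : 3 ≤ p.length := hc.three_le_length
  -- every vertex is `getVert j` with `1 ≤ j ≤ length`
  have hex : ∀ w : V, ∃ j, 1 ≤ j ∧ j ≤ p.length ∧ p.getVert j = w := by
    intro w
    obtain ⟨j, hj1, hj2⟩ := Walk.mem_support_iff_exists_getVert.mp (hp.mem_support w)
    rcases Nat.eq_zero_or_pos j with rfl | hj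
    · refine ⟨p.length, by omega, le_rfl, ?_⟩
      rw [Walk.getVert_length]
      simpa using hj1
    · exact ⟨j, hj, hj2, hj1⟩
  choose J hJ1 hJ2 hJ3 using hex
  by_contra hlt
  push Not at hlt
  -- pred map
  have hmaps : ∀ a ∈ A, p.getVert (J a - 1) ∈ C := by
    intro a ha
    have h1 := p.adj_getVert_succ (i := J a - 1) (by have := hJ1 a; have := hJ2 a; omega)
    rw [Nat.sub_add_cancel (hJ1 a), hJ3] at h1
    exact hN a ha _ h1.symm
  have hpinj : Set.InjOn (fun a => p.getVert (J a - 1)) (A : Set V) := by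
    intro a _ b _ hab
    have h1 := hinj (x₁ := J a - 1) (x₂ := J b - 1)
      (by have := hJ2 a; simp only [Set.mem_ofPred_eq]; omega) (by have := hJ2 b; simp only [Set.mem_ofPred_eq]; omega) hab
    have h2 : J a = J b := by have := hJ1 a; have := hJ1 b; omega
    rw [← hJ3 a, ← hJ3 b, h2]
  have hsurj := Finset.surj_on_of_inj_on_of_card_le (s := A) (t := C)
    (fun a _ => p.getVert (J a - 1)) (fun a ha => hmaps a ha)
    (fun a b ha hb hab => hpinj ha hb hab) hlt
  have hstep : ∀ i, i < p.length → (p.getVert i ∈ A ∨ p.getVert i ∈ C) →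
      (p.getVert (i + 1) ∈ A ∨ p.getVert (i + 1) ∈ C) := by
    intro i hi h
    rcases h with h | h
    · right
      exact hN _ h _ (p.adj_getVert_succ hi)
    · left
      obtain ⟨a, ha, hae⟩ := hsurj _ h
      have h1 := hinj (x₁ := i) (x₂ := J a - 1)
        (by simp only [Set.mem_ofPred_eq]; omega) (by have := hJ2 a; simp only [Set.mem_ofPred_eq]; omega) hae
      have h2 : J a = i + 1 := by have := hJ1 a; omega
      rw [← h2, hJ3]
      exact ha
  have hall : ∀ i, i ≤ p.length → (p.getVert i ∈ A ∨ p.getVert i ∈ C) := by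
    intro i
    induction i with
    | zero => intro _; left; simpa using ha0
    | succ i ih => intro hi; exact hstep i (by omega) (ih (by omega))
  rcases hall (J v) (hJ2 v) with h | h
  · rw [hJ3] at h; exact hvA h
  · rw [hJ3] at h; exact hvC h

end Pool.Agent.X144.Pen
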