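import Mathlib

set_option autoImplicit false

namespace Pool.Agent.X144.Pen

open MeasureTheory

section
variable {k : ℕ}

/-- flip of labels -/
def flip (s : Fin k → Bool) : Option (Fin k × Bool) → Option (Fin k × Bool) :=
  Option.map fun q => (q.1, xor q.2 (s q.1))

/-- number of indices with a given label -/
def cnt {n : ℕ} (y : Fin n → Option (Fin k × Bool)) (q : Fin k × Bool) : ℕ :=
  (Finset.univ.filter fun j => y j = some q).card

lemma flip_flip (s : Fin k → Bool) (l : Option (Fin k × Bool)) : flip s (flip s l) = l := by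
  cases l with
  | none => rfl
  | some q =>
    obtain ⟨i, b⟩ := q
    simp [flip]

lemma cnt_flip {n : ℕ} (s : Fin k → Bool) (y : Fin n → Option (Fin k × Bool)) (i : Fin k)
    (b : Bool) : cnt (fun j => flip s (y j)) (i, b) = cnt y (i, xor b (s i)) := by
  unfold cnt
  congr 1
  ext j
  simp only [Finset.mem_filter, Finset.mem_univ, true_and]
  constructor
  · intro h
    have := congrArg (flip s) h
    rw [flip_flip] at this
    rw [this]
    simp [flip]
  · intro h
    rw [h]
    simp [flip]

/-- sign pattern event -/
def ev (n : ℕ) (s : Fin k → Bool) : Set (Fin n → Option (Fin k × Bool)) :=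
  {y | ∀ i, cnt y (i, xor true (s i)) < cnt y (i, xor false (s i))}

lemma ev_disjoint (n : ℕ) {s t : Fin k → Bool} (h : s ≠ t) : Disjoint (ev n s) (ev n t) := by
  rw [Set.disjoint_left]
  intro y hs ht
  apply h
  funext i
  have h1 := hs i
  have h2 := ht i
  cases hsi : s i <;> cases hti : t i <;> simp_all <;> omega

end

variable {Ω : Type*} [MeasurableSpace Ω]

/-- label of a point -/
noncomputable def lab {k : ℕ} (B : Fin k × Bool → Set Ω) (x : Ω) : Option (Fin k × Bool) :=
  open Classical in if h : ∃ q, x ∈ B q then some h.choose else none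

lemma lab_eq_some {k : ℕ} {B : Fin k × Bool → Set Ω} (hB : Pairwise (Function.onFun Disjoint B))
    (x : Ω) (q : Fin k × Bool) : lab B x = some q ↔ x ∈ B q := by
  classical
  unfold lab
  constructor
  · intro h
    split_ifs at h with hx
    have := hx.choose_spec
    rw [Option.some.injEq] at h
    rwa [h] at this
  · intro h
    have hx : ∃ q, x ∈ B q := ⟨q, h⟩
    rw [dif_pos hx]
    by_contra hne
    have h1 : hx.choose ≠ q := fun h' => hne (by rw [h'])
    exact Set.disjoint_left.mp (hB h1) hx.choose_spec h

/-- discrete sigma algebra on labels -/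
instance instLab (k : ℕ) : MeasurableSpace (Option (Fin k × Bool)) := ⊤

instance instLabD (k : ℕ) : DiscreteMeasurableSpace (Option (Fin k × Bool)) :=
  ⟨fun _ => trivial⟩

lemma lab_preim {k : ℕ} {B : Fin k × Bool → Set Ω} (hB : Pairwise (Function.onFun Disjoint B))
    (q : Fin k × Bool) : lab B ⁻¹' {some q} = B q := by
  ext x
  simp [lab_eq_some hB]

lemma lab_none {k : ℕ} {B : Fin k × Bool → Set Ω} (hB : Pairwise (Function.onFun Disjoint B)) :
    lab B ⁻¹' {none} = (⋃ q, B q)ᶜ := by
  ext x
  simp only [Set.mem_preimage, Set.mem_singleton_iff, Set.mem_compl_iff, Set.mem_iUnion]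
  constructor
  · rintro h ⟨q, hq⟩
    rw [(lab_eq_some hB x q).2 hq] at h
    cases h
  · intro h
    cases hl : lab B x with
    | none => rfl
    | some q => exact absurd ⟨q, (lab_eq_some hB x q).1 hl⟩ h

lemma measurable_lab {k : ℕ} {B : Fin k × Bool → Set Ω}
    (hB : Pairwise (Function.onFun Disjoint B)) (hm : ∀ q, MeasurableSet (B q)) :
    Measurable (lab B) := by
  apply measurable_to_countable'
  intro l
  cases l with
  | none =>
    rw [lab_none hB]
    exact (MeasurableSet.iUnion hm).compl
  | some q =>
    rw [lab_preim hB]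
    exact hm q

/-- the flips preserve the law of the label -/
lemma flip_preserving {k : ℕ} {B : Fin k × Bool → Set Ω} (μ : Measure Ω)
    (hB : Pairwise (Function.onFun Disjoint B)) (hm : ∀ q, MeasurableSet (B q))
    (heq : ∀ i, μ (B (i, true)) = μ (B (i, false))) (s : Fin k → Bool) :
    MeasurePreserving (flip s) (μ.map (lab B)) (μ.map (lab B)) := by
  refine ⟨measurable_of_countable _, ?_⟩
  apply Measure.ext_of_singleton
  intro l
  rw [Measure.map_apply (measurable_of_countable _) (MeasurableSet.singleton l)]
  have hpre : flip s ⁻¹' {l} = {flip s l} := by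
    ext m
    simp only [Set.mem_preimage, Set.mem_singleton_iff]
    constructor
    · rintro rfl
      rw [flip_flip]
    · rintro rfl
      rw [flip_flip]
  rw [hpre]
  rw [Measure.map_apply (measurable_lab hB hm) (MeasurableSet.singleton _),
    Measure.map_apply (measurable_lab hB hm) (MeasurableSet.singleton _)]
  cases l with
  | none => rfl
  | some q =>
    obtain ⟨i, b⟩ := q
    have h1 : flip s (some (i, b)) = some (i, xor b (s i)) := rfl
    rw [h1, lab_preim hB, lab_preim hB]
    have := heq i
    cases b <;> cases s i <;> simp [this]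

/-- key bound -/
lemma sign_bound {k : ℕ} {B : Fin k × Bool → Set Ω} (μ : Measure Ω) [IsProbabilityMeasure μ]
    (hB : Pairwise (Function.onFun Disjoint B)) (hm : ∀ q, MeasurableSet (B q))
    (heq : ∀ i, μ (B (i, true)) = μ (B (i, false))) (n : ℕ) :
    (Measure.pi fun _ : Fin n => μ).real
      ((fun (x : Fin n → Ω) (j : Fin n) => lab B (x j)) ⁻¹' ev n (fun _ => false)) ≤
      (1 / 2) ^ k := by
  classical
  set ν := μ.map (lab B) with hν
  haveI : IsProbabilityMeasure ν := Measure.isProbabilityMeasure_map (measurable_lab hB hm).aemeasurable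
  have hmp : MeasurePreserving (fun (x : Fin n → Ω) (j : Fin n) => lab B (x j))
      (Measure.pi fun _ : Fin n => μ) (Measure.pi fun _ : Fin n => ν) :=
    measurePreserving_pi (fun _ : Fin n => μ) (fun _ : Fin n => ν)
      (fun _ => ⟨measurable_lab hB hm, rfl⟩)
  have hms : ∀ S : Set (Fin n → Option (Fin k × Bool)), MeasurableSet S :=
    fun S => S.to_countable.measurableSet
  have h1 : (Measure.pi fun _ : Fin n => μ).real
      ((fun (x : Fin n → Ω) (j : Fin n) => lab B (x j)) ⁻¹' ev n (fun _ => false)) =
      (Measure.pi fun _ : Fin n => ν).real (ev n (fun _ : Fin k => false)) := by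
    rw [Measure.real, Measure.real, hmp.measure_preimage (hms _).nullMeasurableSet]
  rw [h1]
  have h2 : ∀ s : Fin k → Bool, (Measure.pi fun _ : Fin n => ν).real (ev n s) =
      (Measure.pi fun _ : Fin n => ν).real (ev n (fun _ : Fin k => false)) := by
    intro s
    have hmp2 : MeasurePreserving (fun (y : Fin n → Option (Fin k × Bool)) (j : Fin n) =>
        flip s (y j)) (Measure.pi fun _ : Fin n => ν) (Measure.pi fun _ : Fin n => ν) :=
      measurePreserving_pi (fun _ : Fin n => ν) (fun _ : Fin n => ν)
        (fun _ => flip_preserving μ hB hm heq s)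
    have h3 : (fun (y : Fin n → Option (Fin k × Bool)) (j : Fin n) => flip s (y j)) ⁻¹'
        (ev n (fun _ : Fin k => false)) = ev n s := by
      ext y
      simp only [Set.mem_preimage, ev, Set.mem_setOf_eq, cnt_flip]
      simp
    rw [← h3, Measure.real, Measure.real, hmp2.measure_preimage (hms _).nullMeasurableSet]
  have h4 : ∑ s : Fin k → Bool, (Measure.pi fun _ : Fin n => ν).real (ev n s) ≤ 1 := by
    rw [← measureReal_biUnion_finset (fun s _ t _ h => ev_disjoint n h) (fun s _ => hms _)]
    exact measureReal_le_one
  simp only [h2] at h4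
  rw [Finset.sum_const, Finset.card_univ, nsmul_eq_mul] at h4
  simp only [Fintype.card_pi, Fintype.card_bool, Finset.prod_const, Finset.card_univ,
    Fintype.card_fin] at h4
  push_cast at h4
  rw [one_div, inv_pow]
  rw [← one_div, le_div_iff₀ (by positivity)]
  linarith

end Pool.Agent.X144.Pen
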