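import Pool.Agent.X144.PenDefs
import Pool.Agent.X144.PenComb
import Pool.Agent.X144.PenSym

set_option autoImplicit false

namespace Pool.Agent.X144.Pen

open MeasureTheory Filter Topology Set

/-- the sets `A i` (`b = true`) and `C i` (`b = false`) -/
def blk (i : ℕ) (b : Bool) : Set unitInterval :=
  {x | (x : ℝ) ∈ (if b then Ioc ((1 / 2 : ℝ) ^ (i + 1)) (3 / 4 * (1 / 2) ^ i)
    else Ioc (3 / 4 * (1 / 2 : ℝ) ^ i) ((1 / 2) ^ i))}

lemma blk_meas (i : ℕ) (b : Bool) : MeasurableSet (blk i b) := by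
  unfold blk
  cases b
  · exact measurable_subtype_coe measurableSet_Ioc
  · exact measurable_subtype_coe measurableSet_Ioc

lemma blk_vol (i : ℕ) (b : Bool) :
    (volume : Measure unitInterval) (blk i b) = ENNReal.ofReal ((1 / 2) ^ (i + 2)) := by
  have key : ∀ a c : ℝ, 0 ≤ a → c ≤ 1 →
      (volume : Measure unitInterval) {x | (x : ℝ) ∈ Ioc a c} = ENNReal.ofReal (c - a) := by
    intro a c ha hc
    have h1 := unitInterval.measurePreserving_coe.measure_preimage
      (s := Ioc a c) measurableSet_Ioc.nullMeasurableSet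
    have h2 : (Subtype.val ⁻¹' Ioc a c : Set unitInterval) = {x : unitInterval | (x : ℝ) ∈ Ioc a c} := rfl
    rw [h2] at h1
    rw [h1, Measure.restrict_apply measurableSet_Ioc]
    have h3 : Ioc a c ∩ unitInterval = Ioc a c := by
      apply inter_eq_left.2
      intro x hx
      exact ⟨ha.trans hx.1.le, hx.2.trans hc⟩
    rw [h3, Real.volume_Ioc]
  have hp : (1 / 2 : ℝ) ^ i ≤ 1 := pow_le_one₀ (by norm_num) (by norm_num)
  have hp0 : (0 : ℝ) < (1 / 2 : ℝ) ^ i := by positivity
  cases b
  · have := key (3 / 4 * (1 / 2 : ℝ) ^ i) ((1 / 2) ^ i) (by positivity) hp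
    simp only [blk, Bool.false_eq_true, if_false]
    rw [this]
    congr 1
    rw [pow_add]
    ring
  · have := key ((1 / 2 : ℝ) ^ (i + 1)) (3 / 4 * (1 / 2) ^ i) (by positivity) (by linarith)
    simp only [blk, if_true]
    rw [this]
    congr 1
    rw [pow_add, pow_add]
    ring

lemma blk_vol_pos (i : ℕ) (b : Bool) : 0 < (volume : Measure unitInterval) (blk i b) := by
  rw [blk_vol]
  exact ENNReal.ofReal_pos.2 (by positivity)

lemma blk_bounds {i : ℕ} {b : Bool} {x : unitInterval} (h : x ∈ blk i b) :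
    (1 / 2 : ℝ) ^ (i + 1) < x ∧ (x : ℝ) ≤ (1 / 2) ^ i := by
  have hp0 : (0 : ℝ) < (1 / 2 : ℝ) ^ i := by positivity
  cases b
  · simp only [blk, Bool.false_eq_true, if_false, mem_ofPred_eq, mem_Ioc] at h
    refine ⟨?_, h.2⟩
    rw [pow_succ]
    linarith [h.1]
  · simp only [blk, if_true, mem_ofPred_eq, mem_Ioc] at h
    exact ⟨h.1, by linarith [h.2]⟩

lemma blk_idx {i j : ℕ} {b c : Bool} {x : unitInterval} (h : x ∈ blk i b) (h' : x ∈ blk j c) :
    i = j ∧ b = c := by
  have key : ∀ {i j : ℕ} {b c : Bool} {x : unitInterval}, x ∈ blk i b → x ∈ blk j c → ¬ i < j := by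
    intro i j b c x h h' hij
    have h1 := (blk_bounds h).1
    have h2 := (blk_bounds h').2
    have h3 : (1 / 2 : ℝ) ^ j ≤ (1 / 2) ^ (i + 1) :=
      pow_le_pow_of_le_one (by norm_num) (by norm_num) hij
    linarith
  have hij : i = j := le_antisymm (not_lt.1 (key h' h)) (not_lt.1 (key h h'))
  subst hij
  refine ⟨rfl, ?_⟩
  cases b <;> cases c
  · rfl
  · simp only [blk, Bool.false_eq_true, if_false, if_true, mem_ofPred_eq, mem_Ioc] at h h'
    exact absurd h.1 (not_lt.2 h'.2)
  · simp only [blk, Bool.false_eq_true, if_false, if_true, mem_ofPred_eq, mem_Ioc] at h h'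
    exact absurd h'.1 (not_lt.2 h.2)
  · rfl

lemma blk_cover (x : unitInterval) (hx : (x : ℝ) ≠ 0) : ∃ i b, x ∈ blk i b := by
  have hx0 : 0 < (x : ℝ) := lt_of_le_of_ne x.2.1 (Ne.symm hx)
  have hx1 : (x : ℝ) ≤ 1 := x.2.2
  -- least n with (1/2)^(n+1) < x
  have hex : ∃ n : ℕ, (1 / 2 : ℝ) ^ (n + 1) < x := by
    obtain ⟨n, hn⟩ := exists_pow_lt_of_lt_one hx0 (by norm_num : (1 / 2 : ℝ) < 1)
    refine ⟨n, lt_of_le_of_lt ?_ hn⟩
    exact pow_le_pow_of_le_one (by norm_num) (by norm_num) (Nat.le_succ n)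
  classical
  let n := Nat.find hex
  have h1 : (1 / 2 : ℝ) ^ (n + 1) < x := Nat.find_spec hex
  have h2 : (x : ℝ) ≤ (1 / 2) ^ n := by
    rcases Nat.eq_zero_or_pos n with h0 | h0
    · rw [h0]; simpa using hx1
    · have h3 := Nat.find_min hex (m := n - 1) (by show n - 1 < n; omega)
      rw [Nat.sub_add_cancel h0] at h3
      exact not_lt.1 h3
  by_cases h3 : (x : ℝ) ≤ 3 / 4 * (1 / 2) ^ n
  · exact ⟨n, true, by simp only [blk, if_true, mem_ofPred_eq, mem_Ioc]; exact ⟨h1, h3⟩⟩
  · exact ⟨n, false, by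
      simp only [blk, Bool.false_eq_true, if_false, mem_ofPred_eq, mem_Ioc]
      exact ⟨not_le.1 h3, h2⟩⟩

/-- the union of the `C i` -/
def CC : Set unitInterval := ⋃ i, blk i false

lemma CC_meas : MeasurableSet CC := MeasurableSet.iUnion fun i => blk_meas i false

/-- the support of the graphon -/
def EE : Set (unitInterval × unitInterval) :=
  (CC ×ˢ CC) ∪ ((⋃ i, blk i true ×ˢ blk i false) ∪ (⋃ i, blk i false ×ˢ blk i true))

lemma EE_meas : MeasurableSet EE := by
  refine (CC_meas.prod CC_meas).union (MeasurableSet.union ?_ ?_)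
  · exact MeasurableSet.iUnion fun i => (blk_meas i true).prod (blk_meas i false)
  · exact MeasurableSet.iUnion fun i => (blk_meas i false).prod (blk_meas i true)

lemma EE_swap (x y : unitInterval) : (x, y) ∈ EE ↔ (y, x) ∈ EE := by
  simp only [EE, mem_union, mem_prod, mem_iUnion]
  constructor
  · rintro (⟨h1, h2⟩ | ⟨i, h1, h2⟩ | ⟨i, h1, h2⟩)
    · exact Or.inl ⟨h2, h1⟩
    · exact Or.inr (Or.inr ⟨i, h2, h1⟩)
    · exact Or.inr (Or.inl ⟨i, h2, h1⟩)
  · rintro (⟨h1, h2⟩ | ⟨i, h1, h2⟩ | ⟨i, h1, h2⟩)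
    · exact Or.inl ⟨h2, h1⟩
    · exact Or.inr (Or.inr ⟨i, h2, h1⟩)
    · exact Or.inr (Or.inl ⟨i, h2, h1⟩)

/-- the graphon -/
noncomputable def G0 : Graphon unitInterval where
  W x y := EE.indicator (fun _ => (1 : ℝ)) (x, y)
  meas := by
    have : Measurable (EE.indicator (fun _ => (1 : ℝ))) := measurable_const.indicator EE_meas
    exact this
  symm x y := by
    by_cases h : (x, y) ∈ EE
    · rw [indicator_of_mem h, indicator_of_mem ((EE_swap x y).1 h)]
    · rw [indicator_of_notMem h, indicator_of_notMem (fun h' => h ((EE_swap x y).2 h'))]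
  nonneg x y := indicator_nonneg (fun _ _ => zero_le_one) _
  le_one x y := by
    by_cases h : (x, y) ∈ EE
    · rw [indicator_of_mem h]
    · rw [indicator_of_notMem h]; norm_num

lemma G0_of_mem {x y : unitInterval} (h : (x, y) ∈ EE) : G0.W x y = 1 :=
  indicator_of_mem h (fun _ => (1 : ℝ))

lemma G0_of_notMem {x y : unitInterval} (h : (x, y) ∉ EE) : G0.W x y = 0 :=
  indicator_of_notMem h (fun _ => (1 : ℝ))

/-- If `W = 0` almost everywhere on `R` and `P × Q ⊆ R ∩ E`, one of `P`, `Q` is null. -/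
lemma null_of {R : Set (unitInterval × unitInterval)}
    (hR : ∀ᵐ z ∂((volume : Measure unitInterval).prod volume), z ∈ R → G0.W z.1 z.2 = 0)
    {P Q : Set unitInterval} (h1 : P ×ˢ Q ⊆ R) (h2 : P ×ˢ Q ⊆ EE) :
    volume P = 0 ∨ volume Q = 0 := by
  have h3 : ((volume : Measure unitInterval).prod volume) (P ×ˢ Q) = 0 := by
    rw [ae_iff] at hR
    refine measure_mono_null ?_ hR
    intro z hz
    simp only [mem_ofPred_eq, Classical.not_imp]
    refine ⟨h1 hz, ?_⟩
    have : G0.W z.1 z.2 = 1 := G0_of_mem (h2 hz)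
    rw [this]
    norm_num
  rw [Measure.prod_prod] at h3
  exact mul_eq_zero.1 h3

lemma CCCC : CC ×ˢ CC ⊆ EE := fun _ h => Or.inl h

lemma blk_prod (i : ℕ) : blk i true ×ˢ blk i false ⊆ EE :=
  fun _ h => Or.inr (Or.inl (mem_iUnion.2 ⟨i, h⟩))

lemma blk_prod' (i : ℕ) : blk i false ×ˢ blk i true ⊆ EE :=
  fun _ h => Or.inr (Or.inr (mem_iUnion.2 ⟨i, h⟩))

/-- a set of positive measure meets `CC` or some `A i` in positive measure -/
lemma pos_meets {S : Set unitInterval} (hS : volume S ≠ 0) (hC : volume (S ∩ CC) = 0) :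
    ∃ i, volume (S ∩ blk i true) ≠ 0 := by
  by_contra hcon
  push Not at hcon
  apply hS
  have h1 : S ⊆ (S ∩ CC) ∪ (⋃ i, S ∩ blk i true) ∪ {0} := by
    intro x hx
    by_cases h0 : (x : ℝ) = 0
    · right
      exact Subtype.ext h0
    · obtain ⟨i, b, hb⟩ := blk_cover x h0
      left
      cases b
      · left; exact ⟨hx, mem_iUnion.2 ⟨i, hb⟩⟩
      · right; exact mem_iUnion.2 ⟨i, hx, hb⟩
  refine measure_mono_null h1 ?_
  rw [measure_union_null_iff, measure_union_null_iff]
  exact ⟨⟨hC, measure_iUnion_null hcon⟩, measure_singleton _⟩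

lemma conn : IsConn volume G0 := by
  intro S hS h1 h2
  have h3 : (∫ z in S ×ˢ Sᶜ, G0.W z.1 z.2 ∂((volume : Measure unitInterval).prod volume)) =
      ((volume : Measure unitInterval).prod volume).real (EE ∩ S ×ˢ Sᶜ) := by
    have : (fun z : unitInterval × unitInterval => G0.W z.1 z.2) =
        EE.indicator (fun _ => (1 : ℝ)) := rfl
    rw [this, integral_indicator EE_meas]
    simp [Measure.real, EE_meas]
  rw [h3]
  have key : ∀ P Q : Set unitInterval, P ×ˢ Q ⊆ EE → P ⊆ S → Q ⊆ Sᶜ → volume P ≠ 0 →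
      volume Q ≠ 0 →
      0 < ((volume : Measure unitInterval).prod volume).real (EE ∩ S ×ˢ Sᶜ) := by
    intro P Q hPQ hP hQ hP0 hQ0
    refine ENNReal.toReal_pos ?_ (measure_ne_top _ _)
    intro h0
    have := measure_mono_null (subset_inter hPQ (prod_mono hP hQ)) h0
    rw [Measure.prod_prod, mul_eq_zero] at this
    rcases this with h | h
    · exact hP0 h
    · exact hQ0 h
  have full : ∀ (T : Set unitInterval) (i : ℕ), volume (T ∩ CC) = 0 → MeasurableSet T →
      volume (blk i false ∩ Tᶜ) ≠ 0 := by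
    intro T i hT hTm h0
    have h4 := measure_inter_add_sdiff (μ := (volume : Measure unitInterval)) (blk i false) hTm
    have h5 : volume (blk i false ∩ T) = 0 := by
      refine measure_mono_null ?_ hT
      rintro x ⟨hx1, hx2⟩
      exact ⟨hx2, mem_iUnion.2 ⟨i, hx1⟩⟩
    have h6 : volume (blk i false \ T) = 0 := h0
    rw [h5, h6, add_zero] at h4
    exact (blk_vol_pos i false).ne h4
  by_cases hc1 : volume (S ∩ CC) = 0
  · obtain ⟨i, hi⟩ := pos_meets h1.ne' hc1
    refine key (S ∩ blk i true) (blk i false ∩ Sᶜ) ?_ inter_subset_left inter_subset_right hi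
      (full S i hc1 hS)
    exact (prod_mono inter_subset_right inter_subset_left).trans (blk_prod i)
  · by_cases hc2 : volume (Sᶜ ∩ CC) = 0
    · obtain ⟨i, hi⟩ := pos_meets h2.ne' hc2
      have h7 := full Sᶜ i hc2 hS.compl
      rw [compl_compl] at h7
      refine key (blk i false ∩ S) (Sᶜ ∩ blk i true) ?_ inter_subset_right inter_subset_left h7 hi
      exact (prod_mono inter_subset_left inter_subset_right).trans (blk_prod' i)
    · refine key (S ∩ CC) (Sᶜ ∩ CC) ?_ inter_subset_left inter_subset_left hc1 hc2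
      exact (prod_mono inter_subset_right inter_subset_right).trans CCCC

lemma deg_ge {x : unitInterval} {Q : Set unitInterval} (hQ : MeasurableSet Q)
    (h : ∀ y ∈ Q, (x, y) ∈ EE) : volume.real Q ≤ deg volume G0 x := by
  have h1 : ∫ y, Q.indicator (fun _ => (1 : ℝ)) y = volume.real Q := by
    rw [integral_indicator hQ]
    simp [Measure.real]
  rw [← h1]
  unfold deg
  have hmeas : Measurable fun y => G0.W x y := G0.meas.comp (measurable_const.prodMk measurable_id)
  apply integral_mono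
  · exact (integrable_const (1 : ℝ)).indicator hQ
  · refine Integrable.of_bound hmeas.aestronglyMeasurable 1 (Eventually.of_forall fun y => ?_)
    rw [Real.norm_eq_abs, abs_of_nonneg (G0.nonneg _ _)]
    exact G0.le_one _ _
  · intro y
    by_cases hy : y ∈ Q
    · simp only [indicator_of_mem hy]
      rw [G0_of_mem (h y hy)]
    · simp only [indicator_of_notMem hy]
      exact G0.nonneg _ _

lemma lowDeg_sub {α : ℝ} (h0 : 0 < α) (h1 : α < 1 / 4) :
    lowDeg volume G0 α ⊆ {x : unitInterval | (x : ℝ) ≤ 3 * α} := by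
  intro x hx
  have hx' : deg volume G0 x ≤ α := hx
  have hreal : ∀ i b, (volume : Measure unitInterval).real (blk i b) = (1 / 2) ^ (i + 2) := by
    intro i b
    rw [Measure.real, blk_vol, ENNReal.toReal_ofReal (by positivity)]
  by_cases hz : (x : ℝ) = 0
  · simp only [mem_ofPred_eq, hz]
    positivity
  · obtain ⟨i, b, hb⟩ := blk_cover x hz
    cases b
    · exfalso
      have h2 : volume.real (blk 0 false) ≤ deg volume G0 x := by
        apply deg_ge (blk_meas 0 false)
        intro y hy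
        exact CCCC ⟨mem_iUnion.2 ⟨i, hb⟩, mem_iUnion.2 ⟨0, hy⟩⟩
      rw [hreal] at h2
      norm_num at h2
      linarith
    · have h2 : volume.real (blk i false) ≤ deg volume G0 x := by
        apply deg_ge (blk_meas i false)
        intro y hy
        exact blk_prod i ⟨hb, hy⟩
      rw [hreal, pow_add] at h2
      simp only [blk, if_true, mem_ofPred_eq, mem_Ioc] at hb
      simp only [mem_ofPred_eq]
      have := hb.2
      linarith

lemma not_ii : ¬ Tendsto (fun α => volume.real (lowDeg volume G0 α) / α) (𝓝[>] 0) atTop := by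
  intro h
  have h1 := (h.eventually_gt_atTop 3)
  have h2 : ∀ᶠ α : ℝ in 𝓝[>] 0, α < 1 / 4 :=
    mem_nhdsWithin_of_mem_nhds (Iio_mem_nhds (by norm_num))
  have h3 : ∀ᶠ α : ℝ in 𝓝[>] 0, 0 < α := self_mem_nhdsWithin
  obtain ⟨α, ha1, ha2, ha3⟩ := (h1.and (h2.and h3)).exists
  have h4 := lowDeg_sub ha3 ha2
  have h5 : volume.real (lowDeg volume G0 α) ≤ 3 * α := by
    refine (measureReal_mono h4 (measure_ne_top _ _)).trans ?_
    have h6 : {x : unitInterval | (x : ℝ) ≤ 3 * α} = Iic ⟨3 * α, by constructor <;> linarith⟩ := by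
      ext x
      simp only [mem_ofPred_eq, mem_Iic]
      exact Iff.rfl
    rw [h6, Measure.real, unitInterval.volume_Iic, ENNReal.toReal_ofReal (by positivity)]
  have h7 : volume.real (lowDeg volume G0 α) / α ≤ 3 := by
    rw [div_le_iff₀ ha3]
    exact h5
  linarith

lemma not_iv : ¬ BalancedBipartite volume G0 := by
  rintro ⟨S, hS, h1, h2, h3⟩
  have k1 : volume (S ∩ CC) = 0 := by
    have := null_of (R := S ×ˢ S ∪ Sᶜ ×ˢ Sᶜ) h3 (P := S ∩ CC) (Q := S ∩ CC)
      (fun z hz => Or.inl ⟨hz.1.1, hz.2.1⟩)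
      ((prod_mono inter_subset_right inter_subset_right).trans CCCC)
    simpa using this
  have k2 : volume (Sᶜ ∩ CC) = 0 := by
    have := null_of (R := S ×ˢ S ∪ Sᶜ ×ˢ Sᶜ) h3 (P := Sᶜ ∩ CC) (Q := Sᶜ ∩ CC)
      (fun z hz => Or.inr ⟨hz.1.1, hz.2.1⟩)
      ((prod_mono inter_subset_right inter_subset_right).trans CCCC)
    simpa using this
  have k3 : volume (blk 0 false) = 0 := by
    refine measure_mono_null (t := (S ∩ CC) ∪ (Sᶜ ∩ CC)) ?_ ?_
    · intro x hx
      by_cases hxS : x ∈ S
      · exact Or.inl ⟨hxS, mem_iUnion.2 ⟨0, hx⟩⟩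
      · exact Or.inr ⟨hxS, mem_iUnion.2 ⟨0, hx⟩⟩
    · rw [measure_union_null_iff]
      exact ⟨k1, k2⟩
  exact (blk_vol_pos 0 false).ne' k3

lemma not_iii : ¬ NarrowPeninsula volume G0 := by
  rintro ⟨a, ha0, ha1, A, B, hA, hB, hAB, h1, h2, h3⟩
  have h3' : ∀ᵐ z ∂((volume : Measure unitInterval).prod volume), z ∈ A ×ˢ (A ∪ B) →
      G0.W z.1 z.2 = 0 := by
    filter_upwards [h3] with z hz hz'
    exact hz hz'.1 hz'.2
  have k1 : volume (A ∩ CC) = 0 := by
    have := null_of h3' (P := A ∩ CC) (Q := A ∩ CC)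
      (fun z hz => ⟨hz.1.1, Or.inl hz.2.1⟩)
      ((prod_mono inter_subset_right inter_subset_right).trans CCCC)
    simpa using this
  classical
  let J : Set ℕ := {i | volume (A ∩ blk i true) ≠ 0}
  have k2 : ∀ i ∈ J, volume (B ∩ blk i false) = 0 := by
    intro i hi
    have := null_of h3' (P := A ∩ blk i true) (Q := B ∩ blk i false)
      (fun z hz => ⟨hz.1.1, Or.inr hz.2.1⟩)
      ((prod_mono inter_subset_right inter_subset_right).trans (blk_prod i))
    rcases this with h | h
    · exact absurd h hi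
    · exact h
  have k3 : volume A ≤ volume (⋃ i ∈ J, blk i true) := by
    have : A ≤ᵐ[volume] ⋃ i ∈ J, blk i true := by
      rw [ae_le_set]
      by_contra hne
      obtain ⟨i, hi⟩ := pos_meets hne (measure_mono_null (by
        rintro x ⟨⟨hx, _⟩, hx2⟩; exact ⟨hx, hx2⟩) k1)
      by_cases hiJ : i ∈ J
      · apply hi
        have : (A \ ⋃ i ∈ J, blk i true) ∩ blk i true = ∅ := by
          ext x
          simp only [mem_inter_iff, Set.mem_sdiff, mem_iUnion, not_exists, mem_empty_iff_false,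
            iff_false, not_and]
          rintro ⟨_, hx⟩ hx'
          exact hx i hiJ hx'
        rw [this]
        exact measure_empty
      · apply hi
        have : volume (A ∩ blk i true) = 0 := by
          by_contra hh
          exact hiJ hh
        refine measure_mono_null ?_ this
        rintro x ⟨⟨hx, _⟩, hx2⟩
        exact ⟨hx, hx2⟩
    exact measure_mono_ae this
  have hpd : ∀ b : Bool, J.PairwiseDisjoint (fun i => blk i b) := by
    intro b i _ j _ hij
    rw [Function.onFun, Set.disjoint_left]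
    intro x hx hx'
    exact hij (blk_idx hx hx').1
  have k4 : volume (⋃ i ∈ J, blk i true) = volume (⋃ i ∈ J, blk i false) := by
    rw [measure_biUnion J.to_countable (hpd true) (fun i _ => blk_meas i true),
      measure_biUnion J.to_countable (hpd false) (fun i _ => blk_meas i false)]
    simp only [blk_vol]
  have k5 : volume (A ∪ B) + volume (⋃ i ∈ J, blk i false) ≤ 1 := by
    have hd : AEDisjoint (volume : Measure unitInterval) (A ∪ B) (⋃ i ∈ J, blk i false) := by
      show volume ((A ∪ B) ∩ ⋃ i ∈ J, blk i false) = 0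
      have : (A ∪ B) ∩ (⋃ i ∈ J, blk i false) ⊆ (A ∩ CC) ∪ ⋃ i ∈ J, (B ∩ blk i false) := by
        rintro x ⟨hx, hx2⟩
        simp only [mem_iUnion] at hx2
        obtain ⟨i, hi, hx2⟩ := hx2
        rcases hx with hx | hx
        · exact Or.inl ⟨hx, mem_iUnion.2 ⟨i, hx2⟩⟩
        · right
          simp only [mem_iUnion]
          exact ⟨i, hi, hx, hx2⟩
      refine measure_mono_null this ?_
      rw [measure_union_null_iff]
      refine ⟨k1, ?_⟩
      rw [measure_biUnion_null_iff J.to_countable]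
      exact k2
    rw [← measure_union₀ (MeasurableSet.biUnion J.to_countable
      (fun i _ => blk_meas i false)).nullMeasurableSet hd]
    exact prob_le_one
  rw [measure_union hAB hB, ← k4] at k5
  have k6 : volume A + volume B + volume A ≤ 1 := le_trans (by gcongr) k5
  have k7 := ENNReal.toReal_mono (by norm_num) k6
  rw [ENNReal.toReal_add (by finiteness) (by finiteness),
    ENNReal.toReal_add (by finiteness) (by finiteness)] at k7
  simp only [Measure.real] at h1 h2
  simp only [ENNReal.toReal_one] at k7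
  linarith

end Pool.Agent.X144.Pen
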