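import Mathlib

set_option autoImplicit false

namespace Pool.Agent.X144.Pen

open MeasureTheory Filter Topology

/-- A graphon on a measurable space `Ω`: a symmetric measurable function with values in `[0,1]`. -/
structure Graphon (Ω : Type) [MeasurableSpace Ω] where
  /-- the underlying function -/
  W : Ω → Ω → ℝ
  meas : Measurable fun z : Ω × Ω => W z.1 z.2
  symm : ∀ x y, W x y = W y x
  nonneg : ∀ x y, 0 ≤ W x y
  le_one : ∀ x y, W x y ≤ 1

/-- The graph on the vertex set `Fin n` with vertex types `x` and edge variables `u`: the pair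
`{i, j}` is an edge iff `u {i, j} < W (x i) (x j)`. -/
def sample {Ω : Type} [MeasurableSpace Ω] (W : Graphon Ω) {n : ℕ} (x : Fin n → Ω)
    (u : Sym2 (Fin n) → unitInterval) : SimpleGraph (Fin n) where
  Adj i j := i ≠ j ∧ (u s(i, j) : ℝ) < W.W (x i) (x j)
  symm := ⟨by
    intro i j h
    refine ⟨h.1.symm, ?_⟩
    rw [Sym2.eq_swap, W.symm]
    exact h.2⟩
  loopless := ⟨fun i h => h.1 rfl⟩

/-- The probability that `G(n,W)` is Hamiltonian: the types `x i` are independent with law `μ`, the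
variables `u e` are independent of them and of each other and uniform on `[0,1]`. -/
noncomputable def prHam {Ω : Type} [MeasurableSpace Ω] (μ : Measure Ω) (W : Graphon Ω) (n : ℕ) :
    ℝ :=
  ((Measure.pi fun _ : Fin n => μ).prod
    (Measure.pi fun _ : Sym2 (Fin n) => (volume : Measure unitInterval))).real
      {ω | (sample W ω.1 ω.2).IsHamiltonian}

/-- `W` is connected. -/
def IsConn {Ω : Type} [MeasurableSpace Ω] (μ : Measure Ω) (W : Graphon Ω) : Prop :=
  ∀ S : Set Ω, MeasurableSet S → 0 < μ S → 0 < μ Sᶜ →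
    0 < ∫ z in S ×ˢ Sᶜ, W.W z.1 z.2 ∂(μ.prod μ)

/-- The degree of a point. -/
noncomputable def deg {Ω : Type} [MeasurableSpace Ω] (μ : Measure Ω) (W : Graphon Ω) (x : Ω) : ℝ :=
  ∫ y, W.W x y ∂μ

/-- The set `D_W(α)` of the points of degree at most `α`. -/
def lowDeg {Ω : Type} [MeasurableSpace Ω] (μ : Measure Ω) (W : Graphon Ω) (α : ℝ) : Set Ω :=
  {x | deg μ W x ≤ α}

/-- `W` has a narrow peninsula (with `W = 0` almost everywhere on `A × (A ∪ B)`). -/
def NarrowPeninsula {Ω : Type} [MeasurableSpace Ω] (μ : Measure Ω) (W : Graphon Ω) : Prop :=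
  ∃ a : ℝ, 0 < a ∧ a ≤ 1 / 2 ∧ ∃ A B : Set Ω, MeasurableSet A ∧ MeasurableSet B ∧ Disjoint A B ∧
    a < μ.real A ∧ μ.real B = 1 - 2 * a ∧
    ∀ᵐ z ∂(μ.prod μ), z.1 ∈ A → z.2 ∈ A ∪ B → W.W z.1 z.2 = 0

/-- `W` is bipartite with both parts of measure `1/2`. -/
def BalancedBipartite {Ω : Type} [MeasurableSpace Ω] (μ : Measure Ω) (W : Graphon Ω) : Prop :=
  ∃ S : Set Ω, MeasurableSet S ∧ μ.real S = 1 / 2 ∧ μ.real Sᶜ = 1 / 2 ∧
    ∀ᵐ z ∂(μ.prod μ), (z ∈ S ×ˢ S ∪ Sᶜ ×ˢ Sᶜ) → W.W z.1 z.2 = 0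

end Pool.Agent.X144.Pen
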