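import Pool.Agent.X144.PenCon

set_option autoImplicit false

namespace Pool.Agent.X144.Pen

open MeasureTheory Filter Topology Set

/-- edges of the sampled graph come from the support of the graphon -/
lemma sample_adj {n : ℕ} {x : Fin n → unitInterval} {u : Sym2 (Fin n) → unitInterval}
    {i j : Fin n} (h : (sample G0 x u).Adj i j) : (x i, x j) ∈ EE := by
  by_contra hE
  have h1 : ((u s(i, j) : unitInterval) : ℝ) < G0.W (x i) (x j) := h.2
  rw [G0_of_notMem hE] at h1
  exact absurd h1 (not_lt.2 (u s(i, j)).2.1)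

lemma EE_A {x y : unitInterval} {i : ℕ} (hx : x ∈ blk i true) (h : (x, y) ∈ EE) :
    y ∈ blk i false := by
  rcases h with h | h | h
  · exfalso
    obtain ⟨j, hj⟩ := mem_iUnion.1 h.1
    have := (blk_idx hx hj).2
    cases this
  · obtain ⟨j, hj⟩ := mem_iUnion.1 h
    have := (blk_idx hx hj.1).1
    subst this
    exact hj.2
  · exfalso
    obtain ⟨j, hj⟩ := mem_iUnion.1 h
    have := (blk_idx hx hj.1).2
    cases this

/-- blocks indexed by `Fin k × Bool` -/
def Bk (k : ℕ) (q : Fin k × Bool) : Set unitInterval := blk q.1 q.2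

lemma Bk_disj (k : ℕ) : Pairwise (Function.onFun Disjoint (Bk k)) := by
  intro q r hqr
  rw [Function.onFun, Set.disjoint_left]
  intro x hx hx'
  apply hqr
  obtain ⟨h1, h2⟩ := blk_idx hx hx'
  exact Prod.ext (Fin.ext h1) h2

/-- some block `A i`, `i < k`, is missed -/
def bad1 (k n : ℕ) : Set (Fin n → unitInterval) :=
  ⋃ i : Fin k, {x | ∀ j, x j ∉ blk i true}

/-- all the differences have the right sign -/
def bad2 (k n : ℕ) : Set (Fin n → unitInterval) :=
  (fun (x : Fin n → unitInterval) (j : Fin n) => lab (Bk k) (x j)) ⁻¹' ev n (fun _ => false)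

lemma ham_sub {k n : ℕ} (hk : 2 ≤ k) (x : Fin n → unitInterval)
    (u : Sym2 (Fin n) → unitInterval) (h : (sample G0 x u).IsHamiltonian) :
    x ∈ bad1 k n ∪ bad2 k n := by
  classical
  by_cases h1 : x ∈ bad1 k n
  · exact Or.inl h1
  right
  have h2 : ∀ i : Fin k, ∃ j, x j ∈ blk i true := by
    intro i
    by_contra hcon
    push Not at hcon
    exact h1 (mem_iUnion.2 ⟨i, hcon⟩)
  intro i
  have e1 : cnt (fun j => lab (Bk k) (x j)) (i, xor true false) =
      (Finset.univ.filter fun j => x j ∈ blk i true).card := by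
    unfold cnt
    congr 1
    ext j
    simp only [Finset.mem_filter, Finset.mem_univ, true_and]
    rw [lab_eq_some (Bk_disj k)]
    rfl
  have e2 : cnt (fun j => lab (Bk k) (x j)) (i, xor false false) =
      (Finset.univ.filter fun j => x j ∈ blk i false).card := by
    unfold cnt
    congr 1
    ext j
    simp only [Finset.mem_filter, Finset.mem_univ, true_and]
    rw [lab_eq_some (Bk_disj k)]
    rfl
  show cnt (fun j => lab (Bk k) (x j)) (i, xor true false) <
    cnt (fun j => lab (Bk k) (x j)) (i, xor false false)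
  rw [e1, e2]
  -- another index
  obtain ⟨i', hi'⟩ : ∃ i' : Fin k, i' ≠ i := by
    by_cases h0 : (i : ℕ) = 0
    · exact ⟨⟨1, by omega⟩, fun hh => by rw [← hh] at h0; simp at h0⟩
    · exact ⟨⟨0, by omega⟩, fun hh => h0 (by rw [← hh])⟩
  obtain ⟨v, hv⟩ := h2 i'
  obtain ⟨a, ha⟩ := h2 i
  apply card_lt_of_hamiltonian (sample G0 x u) h _ _ ⟨a, by simpa using ha⟩ _ v
  · simp only [Finset.mem_filter, Finset.mem_univ, true_and]
    intro hv'
    exact hi' (Fin.ext (blk_idx hv hv').1)
  · simp only [Finset.mem_filter, Finset.mem_univ, true_and]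
    intro hv'
    exact hi' (Fin.ext (blk_idx hv hv').1)
  · intro b hb c hbc
    simp only [Finset.mem_filter, Finset.mem_univ, true_and] at hb ⊢
    exact EE_A hb (sample_adj hbc)

lemma prHam_le {k : ℕ} (hk : 2 ≤ k) (n : ℕ) :
    prHam volume G0 n ≤ ∑ i : Fin k, (1 - (1 / 2 : ℝ) ^ ((i : ℕ) + 2)) ^ n + (1 / 2) ^ k := by
  set P : Measure (Fin n → unitInterval) := Measure.pi fun _ : Fin n => volume with hP
  set Q : Measure (Sym2 (Fin n) → unitInterval) := Measure.pi fun _ => volume with hQ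
  have h1 : prHam volume G0 n ≤ P.real (bad1 k n ∪ bad2 k n) := by
    have h2 : {ω : (Fin n → unitInterval) × (Sym2 (Fin n) → unitInterval) |
        (sample G0 ω.1 ω.2).IsHamiltonian} ⊆ (bad1 k n ∪ bad2 k n) ×ˢ univ := by
      intro ω hω
      exact ⟨ham_sub hk ω.1 ω.2 hω, mem_univ _⟩
    have h3 : (P.prod Q) ((bad1 k n ∪ bad2 k n) ×ˢ univ) = P (bad1 k n ∪ bad2 k n) := by
      rw [Measure.prod_prod]
      simp
    have h4 : (P.prod Q).real {ω : (Fin n → unitInterval) × (Sym2 (Fin n) → unitInterval) |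
        (sample G0 ω.1 ω.2).IsHamiltonian} ≤ (P.prod Q).real ((bad1 k n ∪ bad2 k n) ×ˢ univ) :=
      measureReal_mono h2 (measure_ne_top _ _)
    refine h4.trans ?_
    rw [Measure.real, Measure.real, h3]
  refine h1.trans ?_
  refine (measureReal_union_le _ _).trans ?_
  apply add_le_add
  · refine (measureReal_iUnion_fintype_le _).trans ?_
    apply Finset.sum_le_sum
    intro i _
    have h5 : {x : Fin n → unitInterval | ∀ j, x j ∉ blk i true} =
        Set.pi univ (fun _ => (blk i true)ᶜ) := by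
      ext x
      simp
    rw [h5, Measure.real, hP, Measure.pi_pi, Finset.prod_const, Finset.card_univ,
      Fintype.card_fin, ENNReal.toReal_pow]
    have h6 : (volume ((blk i true)ᶜ : Set unitInterval)).toReal = 1 - (1 / 2) ^ ((i : ℕ) + 2) := by
      have := probReal_compl_eq_one_sub (μ := (volume : Measure unitInterval)) (blk_meas i true)
      rw [Measure.real, Measure.real, blk_vol, ENNReal.toReal_ofReal (by positivity)] at this
      exact this
    rw [h6]
  · apply sign_bound volume (Bk_disj k) (fun q => blk_meas _ _)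
    intro i
    show volume (blk i true) = volume (blk i false)
    rw [blk_vol, blk_vol]

lemma prHam_nonneg (n : ℕ) : 0 ≤ prHam volume G0 n := measureReal_nonneg

lemma tendsto_prHam : Tendsto (fun n => prHam volume G0 n) atTop (𝓝 0) := by
  rw [Metric.tendsto_atTop]
  intro ε hε
  obtain ⟨k, hk⟩ := exists_pow_lt_of_lt_one (half_pos hε) (by norm_num : (1 / 2 : ℝ) < 1)
  have hk2 : (1 / 2 : ℝ) ^ (k + 2) < ε / 2 :=
    lt_of_le_of_lt (pow_le_pow_of_le_one (by norm_num) (by norm_num) (by omega)) hk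
  have hlim : Tendsto (fun n : ℕ => ∑ i : Fin (k + 2), (1 - (1 / 2 : ℝ) ^ ((i : ℕ) + 2)) ^ n)
      atTop (𝓝 0) := by
    have : Tendsto (fun n : ℕ => ∑ i : Fin (k + 2), (1 - (1 / 2 : ℝ) ^ ((i : ℕ) + 2)) ^ n)
      atTop (𝓝 (∑ _i : Fin (k + 2), (0 : ℝ))) := by
      apply tendsto_finsetSum
      intro i _
      apply tendsto_pow_atTop_nhds_zero_of_lt_one
      · have : (1 / 2 : ℝ) ^ ((i : ℕ) + 2) ≤ 1 := pow_le_one₀ (by norm_num) (by norm_num)
        linarith
      · have : (0 : ℝ) < (1 / 2 : ℝ) ^ ((i : ℕ) + 2) := by positivity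
        linarith
    simpa using this
  obtain ⟨N, hN⟩ := (Metric.tendsto_atTop.1 hlim) (ε / 2) (half_pos hε)
  refine ⟨N, fun n hn => ?_⟩
  have h1 := hN n hn
  rw [Real.dist_eq, sub_zero] at h1 ⊢
  rw [abs_of_nonneg (prHam_nonneg n)]
  have h2 := prHam_le (k := k + 2) (by omega) n
  have h3 := le_abs_self (∑ i : Fin (k + 2), (1 - (1 / 2 : ℝ) ^ ((i : ℕ) + 2)) ^ n)
  linarith

end Pool.Agent.X144.Pen
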