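import Pool.Agent.X144.ShellDet

set_option autoImplicit false

namespace Pool.Agent.X144.Shell

open Finset

/-- families containing none of the disjoint small sets `S z` -/
lemma count_le {α β : Type*} [DecidableEq α] (k : ℕ) (Z : Finset β) (S : β → Finset α) :
    ∀ (U : Finset α), (∀ z ∈ Z, S z ⊆ U) → (∀ z ∈ Z, (S z).card ≤ k) →
    (∀ z ∈ Z, ∀ w ∈ Z, z ≠ w → Disjoint (S z) (S w)) →
    ((U.powerset.filter fun 𝓕 => ∀ z ∈ Z, ¬ S z ⊆ 𝓕).card : ℝ) ≤
      2 ^ U.card * (1 - (1 / 2) ^ k) ^ Z.card := by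
  classical
  induction Z using Finset.induction_on with
  | empty =>
    intro U _ _ _
    simp
  | insert z Z hz ih =>
    intro U h1 h2 h3
    have hzU : S z ⊆ U := h1 z (Finset.mem_insert_self _ _)
    have hdis : ∀ w ∈ Z, Disjoint (S z) (S w) := fun w hw =>
      h3 z (Finset.mem_insert_self _ _) w (Finset.mem_insert_of_mem hw) (by
        rintro rfl; exact hz hw)
    have ih' := ih (U \ S z) (fun w hw => by
        rw [Finset.subset_sdiff]
        exact ⟨h1 w (Finset.mem_insert_of_mem hw), (hdis w hw).symm⟩)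
      (fun w hw => h2 w (Finset.mem_insert_of_mem hw))
      (fun w hw w' hw' => h3 w (Finset.mem_insert_of_mem hw) w' (Finset.mem_insert_of_mem hw'))
    have hinj : (U.powerset.filter fun 𝓕 => ∀ w ∈ insert z Z, ¬ S w ⊆ 𝓕).card ≤
        (((S z).powerset.erase (S z)) ×ˢ
          ((U \ S z).powerset.filter fun 𝓕 => ∀ w ∈ Z, ¬ S w ⊆ 𝓕)).card := by
      apply Finset.card_le_card_of_injOn (fun 𝓕 => (𝓕 ∩ S z, 𝓕 \ S z))
      · intro 𝓕 h𝓕
        rw [Finset.mem_coe, Finset.mem_filter, Finset.mem_powerset] at h𝓕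
        rw [Finset.mem_coe, Finset.mem_product, Finset.mem_erase, Finset.mem_filter,
          Finset.mem_powerset, Finset.mem_powerset]
        refine ⟨⟨?_, Finset.inter_subset_right⟩, Finset.sdiff_subset_sdiff h𝓕.1 le_rfl, ?_⟩
        · intro he
          apply h𝓕.2 z (Finset.mem_insert_self _ _)
          have he' : 𝓕 ∩ S z = S z := he
          rw [← he']
          exact Finset.inter_subset_left
        · intro w hw hsub
          exact h𝓕.2 w (Finset.mem_insert_of_mem hw) (hsub.trans Finset.sdiff_subset)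
      · intro 𝓕 _ 𝓖 _ h
        have e1 : 𝓕 ∩ S z = 𝓖 ∩ S z := congrArg Prod.fst h
        have e2 : 𝓕 \ S z = 𝓖 \ S z := congrArg Prod.snd h
        rw [← Finset.sdiff_union_inter 𝓕 (S z), ← Finset.sdiff_union_inter 𝓖 (S z), e1, e2]
    rw [Finset.card_product, Finset.card_erase_of_mem (Finset.mem_powerset_self _),
      Finset.card_powerset] at hinj
    have hs : (S z).card ≤ U.card := Finset.card_le_card hzU
    have hUc : (U \ S z).card + (S z).card = U.card := Finset.card_sdiff_add_card_eq_card hzU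
    have hinj' : ((U.powerset.filter fun 𝓕 => ∀ w ∈ insert z Z, ¬ S w ⊆ 𝓕).card : ℝ) ≤
        (2 ^ (S z).card - 1) * (2 ^ (U \ S z).card * (1 - (1 / 2) ^ k) ^ Z.card) := by
      refine (Nat.cast_le.2 hinj).trans ?_
      push_cast [Nat.one_le_two_pow]
      have : (0 : ℝ) ≤ 2 ^ (S z).card - 1 := by
        have := one_le_pow₀ (M₀ := ℝ) (by norm_num : (1 : ℝ) ≤ 2) (n := (S z).card)
        linarith
      exact mul_le_mul_of_nonneg_left ih' this
    refine hinj'.trans ?_
    rw [Finset.card_insert_of_notMem hz, ← hUc, pow_succ, pow_add]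
    have h4 : (2 : ℝ) ^ (S z).card - 1 ≤ 2 ^ (S z).card * (1 - (1 / 2) ^ k) := by
      have h5 : (1 : ℝ) ≤ 2 ^ (S z).card * (1 / 2) ^ (S z).card → True := fun _ => trivial
      have h6 : (2 : ℝ) ^ (S z).card * (1 / 2) ^ (S z).card = 1 := by
        rw [← mul_pow]; norm_num
      have h7 : (1 / 2 : ℝ) ^ k ≤ (1 / 2) ^ (S z).card :=
        pow_le_pow_of_le_one (by norm_num) (by norm_num) (h2 z (Finset.mem_insert_self _ _))
      have h8 : (0 : ℝ) < 2 ^ (S z).card := by positivity
      nlinarith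
    have h9 : (0 : ℝ) ≤ 2 ^ (U \ S z).card * (1 - (1 / 2) ^ k) ^ Z.card := by
      have : (1 / 2 : ℝ) ^ k ≤ 1 := pow_le_one₀ (by norm_num) (by norm_num)
      have : (0 : ℝ) ≤ 1 - (1 / 2) ^ k := by linarith
      positivity
    calc (2 ^ (S z).card - 1) * (2 ^ (U \ S z).card * (1 - (1 / 2) ^ k) ^ Z.card)
        ≤ (2 ^ (S z).card * (1 - (1 / 2) ^ k)) *
          (2 ^ (U \ S z).card * (1 - (1 / 2) ^ k) ^ Z.card) :=
          mul_le_mul_of_nonneg_right h4 h9
      _ = _ := by ring

variable {m : ℕ}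

/-- the first `j` vertices -/
def I (m j : ℕ) : Finset (Fin m) := Finset.univ.filter fun i => i.val < j

/-- the others -/
def V (m j : ℕ) : Finset (Fin m) := Finset.univ.filter fun i => j ≤ i.val

/-- iterated link -/
def lk (d : ℕ) (𝓕 : Finset (Finset (Fin m))) (j : ℕ) : Finset (Finset (Fin m)) :=
  ((V m j).powersetCard (d - j)).filter fun τ => τ ∪ I m j ∈ 𝓕

/-- facets used at `z` -/
def SS (j : ℕ) (σ : Finset (Fin m)) (z : Fin m) : Finset (Finset (Fin m)) :=
  insert (insert z σ ∪ I m j) (σ.image fun a => insert z (σ.erase a) ∪ I m (j + 1))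

/-- good event -/
def Good (d : ℕ) (𝓕 : Finset (Finset (Fin m))) : Prop :=
  ∀ j < d - 1, ∀ σ ∈ (V m (j + 1)).powersetCard (d - (j + 1)),
    ∃ z ∈ V m (j + 1) \ σ, SS j σ z ⊆ 𝓕

lemma I_disj (m j : ℕ) : Disjoint (V m j) (I m j) := by
  rw [Finset.disjoint_left]
  intro a ha hb
  simp only [V, I, Finset.mem_filter, Finset.mem_univ, true_and] at ha hb
  omega

lemma V_card {m j : ℕ} (h : j ≤ m) : (V m j).card = m - j := by
  have h1 : V m j = Finset.univ.filter fun i : Fin m => ¬ i.val < j := by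
    ext i
    simp [V]
  have h2 := Finset.card_filter_add_card_filter_not (s := (Finset.univ : Finset (Fin m)))
    (fun i : Fin m => i.val < j)
  have h3 : (Finset.univ.filter fun i : Fin m => i.val < j).card = j := by
    rw [Fin.card_filter_val_lt]
    omega
  rw [h1]
  rw [h3, Finset.card_univ, Fintype.card_fin] at h2
  omega

lemma shell_of_good {d : ℕ} (hd : 1 ≤ d) (hm : d ≤ m) {𝓕 : Finset (Finset (Fin m))}
    (h𝓕 : ∀ F ∈ 𝓕, F.card = d) (hg : Good d 𝓕) : Sh d 𝓕 := by
  classical
  have key : ∀ k, k < d → Sh (k + 1) (lk d 𝓕 (d - (k + 1))) := by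
    intro k
    induction k with
    | zero =>
      intro _
      apply Sh.one
      intro F hF
      rw [lk, Finset.mem_filter, Finset.mem_powersetCard] at hF
      rw [hF.1.2]
      omega
    | succ k ih =>
      intro hk
      have ih' := ih (by omega)
      set j := d - (k + 1 + 1) with hj
      have hj1 : d - (k + 1) = j + 1 := by omega
      rw [hj1] at ih'
      have hjm : j < m := by omega
      set v : Fin m := ⟨j, hjm⟩ with hv
      have hvV : v ∉ V m (j + 1) := by
        simp [V, hv]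
      have hVins : V m j = insert v (V m (j + 1)) := by
        ext i
        simp only [V, Finset.mem_filter, Finset.mem_univ, true_and, Finset.mem_insert, hv,
          Fin.ext_iff]
        omega
      have hIins : I m (j + 1) = insert v (I m j) := by
        ext i
        simp only [I, Finset.mem_filter, Finset.mem_univ, true_and, Finset.mem_insert, hv,
          Fin.ext_iff]
        omega
      have hdj : d - j = k + 1 + 1 := by omega
      have hdj1 : d - (j + 1) = k + 1 := by omega
      refine Sh.step (by omega) hvV (𝓛 := lk d 𝓕 (j + 1)) ?_ ?_ ?_ ih' ?_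
      · intro F hF
        rw [lk, Finset.mem_filter, Finset.mem_powersetCard, hVins, hdj] at hF
        exact hF.1
      · intro τ hτ
        rw [lk, Finset.mem_filter, Finset.mem_powersetCard, hdj1] at hτ
        exact hτ.1
      · intro τ hτV hτc
        have hvτ : v ∉ τ := fun h => hvV (hτV h)
        rw [lk, lk, Finset.mem_filter, Finset.mem_filter, Finset.mem_powersetCard,
          Finset.mem_powersetCard, hdj, hdj1, hVins, Finset.card_insert_of_notMem hvτ]
        have he : insert v τ ∪ I m j = τ ∪ I m (j + 1) := by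
          rw [hIins, Finset.union_insert, Finset.insert_union]
        rw [he]
        constructor
        · rintro ⟨_, h⟩
          exact ⟨⟨Finset.insert_subset_insert _ hτV, by omega⟩, h⟩
        · rintro ⟨_, h⟩
          exact ⟨⟨hτV, hτc⟩, h⟩
      · intro σ hσV hσc _
        obtain ⟨z, hz, hzS⟩ := hg j (by omega) σ (by
          rw [Finset.mem_powersetCard, hdj1]
          exact ⟨hσV, hσc⟩)
        rw [Finset.mem_sdiff] at hz
        refine ⟨z, hz.1, hz.2, ?_, ?_⟩
        · rw [lk, Finset.mem_filter, Finset.mem_powersetCard, hdj, hVins]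
          refine ⟨⟨?_, ?_⟩, hzS (Finset.mem_insert_self _ _)⟩
          · exact (Finset.insert_subset hz.1 hσV).trans (Finset.subset_insert _ _)
          · rw [Finset.card_insert_of_notMem hz.2, hσc]
        · intro a ha
          rw [lk, Finset.mem_filter, Finset.mem_powersetCard, hdj1]
          refine ⟨⟨?_, ?_⟩, hzS (Finset.mem_insert_of_mem (Finset.mem_image_of_mem _ ha))⟩
          · exact Finset.insert_subset hz.1 ((Finset.erase_subset _ _).trans hσV)
          · rw [Finset.card_insert_of_notMem (fun h => hz.2 (Finset.mem_of_mem_erase h)),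
              Finset.card_erase_of_mem ha, hσc]
            omega
  have h0 := key (d - 1) (by omega)
  have h1 : d - (d - 1 + 1) = 0 := by omega
  have h2 : d - 1 + 1 = d := by omega
  rw [h1, h2] at h0
  have h3 : lk d 𝓕 0 = 𝓕 := by
    ext F
    rw [lk, Finset.mem_filter, Finset.mem_powersetCard]
    have hI : I m 0 = ∅ := by simp [I]
    have hV : V m 0 = Finset.univ := by simp [V]
    rw [hI, hV, Finset.union_empty, Nat.sub_zero]
    constructor
    · intro h; exact h.2
    · intro h; exact ⟨⟨Finset.subset_univ _, h𝓕 F h⟩, h⟩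
  rwa [h3] at h0

lemma z_of_mem {j : ℕ} {σ : Finset (Fin m)} {z w : Fin m}
    (hz : z ∈ V m (j + 1) \ σ) {F : Finset (Fin m)}
    (h1 : F ∈ SS j σ z) (h2 : F ∈ SS j σ w) : z = w := by
  classical
  rw [Finset.mem_sdiff] at hz
  have hzI : z ∈ F := by
    rw [SS, Finset.mem_insert, Finset.mem_image] at h1
    rcases h1 with rfl | ⟨a, _, rfl⟩
    · exact Finset.mem_union_left _ (Finset.mem_insert_self _ _)
    · exact Finset.mem_union_left _ (Finset.mem_insert_self _ _)
  by_contra hne
  have hzV := hz.1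
  simp only [V, Finset.mem_filter, Finset.mem_univ, true_and] at hzV
  rw [SS, Finset.mem_insert, Finset.mem_image] at h2
  rcases h2 with rfl | ⟨a, _, rfl⟩
  · rcases Finset.mem_union.1 hzI with h | h
    · rcases Finset.mem_insert.1 h with h | h
      · exact hne h
      · exact hz.2 h
    · simp only [I, Finset.mem_filter, Finset.mem_univ, true_and] at h
      omega
  · rcases Finset.mem_union.1 hzI with h | h
    · rcases Finset.mem_insert.1 h with h | h
      · exact hne h
      · exact hz.2 (Finset.mem_of_mem_erase h)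
    · simp only [I, Finset.mem_filter, Finset.mem_univ, true_and] at h
      omega

lemma I_card {m j : ℕ} (h : j ≤ m) : (I m j).card = j := by
  rw [I, Fin.card_filter_val_lt]
  omega

lemma SS_sub {d : ℕ} (hm : d ≤ m) {j : ℕ} (hj : j < d - 1) {σ : Finset (Fin m)}
    (hσ : σ ∈ (V m (j + 1)).powersetCard (d - (j + 1))) {z : Fin m} (hz : z ∈ V m (j + 1) \ σ) :
    SS j σ z ⊆ (Finset.univ : Finset (Fin m)).powersetCard d := by
  classical
  rw [Finset.mem_powersetCard] at hσ
  rw [Finset.mem_sdiff] at hz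
  have hVV : V m (j + 1) ⊆ V m j := by
    intro i hi
    simp only [V, Finset.mem_filter, Finset.mem_univ, true_and] at hi ⊢
    omega
  intro F hF
  rw [Finset.mem_powersetCard]
  refine ⟨Finset.subset_univ _, ?_⟩
  rw [SS, Finset.mem_insert, Finset.mem_image] at hF
  rcases hF with rfl | ⟨a, ha, rfl⟩
  · rw [Finset.card_union_of_disjoint, Finset.card_insert_of_notMem hz.2, hσ.2,
      I_card (by omega)]
    · omega
    · exact Finset.disjoint_of_subset_left
        ((Finset.insert_subset hz.1 hσ.1).trans hVV) (I_disj m j)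
  · have hpos : 0 < σ.card := Finset.card_pos.2 ⟨a, ha⟩
    rw [Finset.card_union_of_disjoint, Finset.card_insert_of_notMem
      (fun h => hz.2 (Finset.mem_of_mem_erase h)), Finset.card_erase_of_mem ha, hσ.2,
      I_card (by omega)]
    · omega
    · exact Finset.disjoint_of_subset_left
        (Finset.insert_subset hz.1 ((Finset.erase_subset _ _).trans hσ.1)) (I_disj m (j + 1))

open Classical in
/-- number of bad families -/
lemma bad_count {d : ℕ} (hd : 1 ≤ d) (hm : d ≤ m) :
    ((((Finset.univ : Finset (Fin m)).powersetCard d).powerset.filter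
      (fun 𝓕 => ¬ IsShellable d 𝓕)).card : ℝ) ≤
      d * (m : ℝ) ^ d * (2 ^ (m.choose d) * (1 - (1 / 2) ^ d) ^ (m - d)) := by
  classical
  set U := (Finset.univ : Finset (Fin m)).powersetCard d with hU
  have hUc : U.card = m.choose d := by
    rw [hU, Finset.card_powersetCard, Finset.card_univ, Fintype.card_fin]
  have h1 : U.powerset.filter (fun 𝓕 => ¬ IsShellable d 𝓕) ⊆
      (Finset.range (d - 1)).biUnion fun j =>
        ((V m (j + 1)).powersetCard (d - (j + 1))).biUnion fun σ =>
          U.powerset.filter fun 𝓕 => ∀ z ∈ V m (j + 1) \ σ, ¬ SS j σ z ⊆ 𝓕 := by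
    intro 𝓕 h𝓕
    rw [Finset.mem_filter, Finset.mem_powerset] at h𝓕
    have hng : ¬ Good d 𝓕 := by
      intro hg
      apply h𝓕.2
      refine (shell_of_good hd hm ?_ hg).isShellable
      intro F hF
      have := h𝓕.1 hF
      rw [hU, Finset.mem_powersetCard] at this
      exact this.2
    unfold Good at hng
    push Not at hng
    obtain ⟨j, hj, σ, hσ, hz⟩ := hng
    rw [Finset.mem_biUnion]
    refine ⟨j, Finset.mem_range.2 hj, ?_⟩
    rw [Finset.mem_biUnion]
    refine ⟨σ, hσ, ?_⟩
    rw [Finset.mem_filter, Finset.mem_powerset]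
    exact ⟨h𝓕.1, hz⟩
  have hterm : ∀ j ∈ Finset.range (d - 1), ∀ σ ∈ (V m (j + 1)).powersetCard (d - (j + 1)),
      ((U.powerset.filter fun 𝓕 => ∀ z ∈ V m (j + 1) \ σ, ¬ SS j σ z ⊆ 𝓕).card : ℝ) ≤
      2 ^ (m.choose d) * (1 - (1 / 2) ^ d) ^ (m - d) := by
    intro j hj σ hσ
    have hj' := Finset.mem_range.1 hj
    have hσ' := Finset.mem_powersetCard.1 hσ
    have h2 := count_le d (V m (j + 1) \ σ) (SS j σ) U (fun z hz => SS_sub hm hj' hσ hz)
      (fun z _ => by
        refine (Finset.card_insert_le _ _).trans ?_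
        have := Finset.card_image_le (s := σ) (f := fun a => insert z (σ.erase a) ∪ I m (j + 1))
        have h3 := hσ'.2
        omega)
      (fun z hz w hw hne => by
        rw [Finset.disjoint_left]
        intro F hF hF'
        exact hne (z_of_mem hz hF hF'))
    have h4 : (V m (j + 1) \ σ).card = m - d := by
      rw [Finset.card_sdiff_of_subset hσ'.1, V_card (by omega), hσ'.2]
      omega
    rw [h4, hUc] at h2
    refine le_trans (le_of_eq ?_) h2
    congr!
  have hpos : (0 : ℝ) ≤ 2 ^ (m.choose d) * (1 - (1 / 2) ^ d) ^ (m - d) := by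
    have : (1 / 2 : ℝ) ^ d ≤ 1 := pow_le_one₀ (by norm_num) (by norm_num)
    have : (0 : ℝ) ≤ 1 - (1 / 2) ^ d := by linarith
    positivity
  have h5 : ((U.powerset.filter (fun 𝓕 => ¬ IsShellable d 𝓕)).card : ℝ) ≤
      ∑ j ∈ Finset.range (d - 1), ∑ σ ∈ (V m (j + 1)).powersetCard (d - (j + 1)),
        ((U.powerset.filter fun 𝓕 => ∀ z ∈ V m (j + 1) \ σ, ¬ SS j σ z ⊆ 𝓕).card : ℝ) := by
    have h6 := (Finset.card_le_card h1).trans Finset.card_biUnion_le
    refine (Nat.cast_le.2 h6).trans ?_
    push_cast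
    apply Finset.sum_le_sum
    intro j _
    exact_mod_cast Finset.card_biUnion_le
  refine h5.trans ?_
  have h7 : ∀ j ∈ Finset.range (d - 1), ∑ σ ∈ (V m (j + 1)).powersetCard (d - (j + 1)),
        ((U.powerset.filter fun 𝓕 => ∀ z ∈ V m (j + 1) \ σ, ¬ SS j σ z ⊆ 𝓕).card : ℝ) ≤
        (m : ℝ) ^ d * (2 ^ (m.choose d) * (1 - (1 / 2) ^ d) ^ (m - d)) := by
    intro j hj
    refine (Finset.sum_le_sum (hterm j hj)).trans ?_
    rw [Finset.sum_const, nsmul_eq_mul]
    apply mul_le_mul_of_nonneg_right _ hpos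
    rw [Finset.card_powersetCard]
    have h8 : (V m (j + 1)).card ≤ m := by
      have := Finset.card_le_univ (V m (j + 1))
      simpa using this
    have h9 : (V m (j + 1)).card.choose (d - (j + 1)) ≤ (V m (j + 1)).card ^ (d - (j + 1)) :=
      Nat.choose_le_pow _ _
    have hm1 : 1 ≤ m := by omega
    have h10 : (V m (j + 1)).card ^ (d - (j + 1)) ≤ m ^ d :=
      (Nat.pow_le_pow_left h8 _).trans (Nat.pow_le_pow_right hm1 (by omega))
    exact_mod_cast h9.trans h10
  refine (Finset.sum_le_sum h7).trans ?_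
  rw [Finset.sum_const, nsmul_eq_mul, Finset.card_range, mul_assoc]
  apply mul_le_mul_of_nonneg_right
  · exact_mod_cast Nat.sub_le d 1
  · positivity

/-- The probability that a uniformly random family of `d`-subsets of `Fin m` is shellable. -/
noncomputable def prob (d m : ℕ) : ℝ :=
  ({𝓕 : Finset (Finset (Fin m)) | (∀ F ∈ 𝓕, F.card = d) ∧ IsShellable d 𝓕}.ncard : ℝ) /
    ({𝓕 : Finset (Finset (Fin m)) | ∀ F ∈ 𝓕, F.card = d}.ncard : ℝ)

lemma tot_eq (d m : ℕ) : {𝓕 : Finset (Finset (Fin m)) | ∀ F ∈ 𝓕, F.card = d}.ncard =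
    2 ^ (m.choose d) := by
  classical
  have : {𝓕 : Finset (Finset (Fin m)) | ∀ F ∈ 𝓕, F.card = d} =
      (((Finset.univ : Finset (Fin m)).powersetCard d).powerset : Set (Finset (Finset (Fin m)))) := by
    ext 𝓕
    simp only [Set.mem_ofPred_eq, Finset.coe_powerset, Set.mem_preimage, Set.mem_powerset_iff,
      Finset.coe_subset, Finset.subset_iff, Finset.mem_powersetCard, Finset.mem_univ]
    constructor
    · intro h F hF
      exact ⟨fun _ _ => trivial, h F hF⟩
    · intro h F hF
      exact (h hF).2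
  rw [this, Set.ncard_coe_finset, Finset.card_powerset, Finset.card_powersetCard,
    Finset.card_univ, Fintype.card_fin]

lemma prob_ge {d m : ℕ} (hd : 1 ≤ d) (hm : d ≤ m) :
    1 - d * (m : ℝ) ^ d * (1 - (1 / 2) ^ d) ^ (m - d) ≤ prob d m ∧ prob d m ≤ 1 := by
  classical
  have h1 := bad_count hd hm
  set U := (Finset.univ : Finset (Fin m)).powersetCard d with hU
  have hA : {𝓕 : Finset (Finset (Fin m)) | (∀ F ∈ 𝓕, F.card = d) ∧ IsShellable d 𝓕}.ncard =
      (U.powerset.filter (fun 𝓕 => IsShellable d 𝓕)).card := by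
    rw [← Set.ncard_coe_finset]
    congr 1
    ext 𝓕
    simp only [Set.mem_ofPred_eq, Finset.coe_filter, Finset.mem_powerset, hU,
      Finset.subset_iff, Finset.mem_powersetCard, Finset.mem_univ]
    constructor
    · rintro ⟨h, h'⟩
      exact ⟨fun F hF => ⟨fun _ _ => trivial, h F hF⟩, h'⟩
    · rintro ⟨h, h'⟩
      exact ⟨fun F hF => (h hF).2, h'⟩
  have hUc : U.powerset.card = 2 ^ (m.choose d) := by
    rw [Finset.card_powerset, hU, Finset.card_powersetCard, Finset.card_univ, Fintype.card_fin]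
  have h2 := Finset.card_filter_add_card_filter_not (s := U.powerset)
    (fun 𝓕 => IsShellable d 𝓕)
  have hpos : (0 : ℝ) < 2 ^ (m.choose d) := by positivity
  unfold prob
  rw [hA, tot_eq]
  push_cast
  have h3 : ((U.powerset.filter (fun 𝓕 => IsShellable d 𝓕)).card : ℝ) +
      ((U.powerset.filter (fun 𝓕 => ¬ IsShellable d 𝓕)).card : ℝ) = 2 ^ (m.choose d) := by
    rw [hUc] at h2
    exact_mod_cast h2
  constructor
  · rw [le_div_iff₀ hpos]
    have h4 : ((U.powerset.filter (fun 𝓕 => ¬ IsShellable d 𝓕)).card : ℝ) ≤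
      d * (m : ℝ) ^ d * (2 ^ (m.choose d) * (1 - (1 / 2) ^ d) ^ (m - d)) := by
      refine le_trans (le_of_eq ?_) h1
      congr!
    nlinarith
  · rw [div_le_one hpos, ← h3]
    have : (0 : ℝ) ≤ ((U.powerset.filter (fun 𝓕 => ¬ IsShellable d 𝓕)).card : ℝ) := by positivity
    linarith

open Filter Topology in
theorem prob_tendsto {d : ℕ} (hd : 1 ≤ d) : Tendsto (fun m => prob d m) atTop (𝓝 1) := by
  set r : ℝ := 1 - (1 / 2) ^ d with hr
  have hr1 : (1 / 2 : ℝ) ^ d ≤ 1 := pow_le_one₀ (by norm_num) (by norm_num)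
  have hr2 : (0 : ℝ) < (1 / 2 : ℝ) ^ d := by positivity
  have hd1 : (1 / 2 : ℝ) ^ d ≤ 1 / 2 := by
    calc (1 / 2 : ℝ) ^ d ≤ (1 / 2) ^ 1 := pow_le_pow_of_le_one (by norm_num) (by norm_num) hd
      _ = 1 / 2 := by norm_num
  have hr3 : 0 < r := by rw [hr]; linarith
  have hr4 : |r| < 1 := by rw [abs_of_pos hr3, hr]; linarith
  have h1 := tendsto_pow_const_mul_const_pow_of_abs_lt_one d hr4
  have h2 : Tendsto (fun m : ℕ => 1 - (d / r ^ d) * ((m : ℝ) ^ d * r ^ m)) atTop
      (𝓝 (1 - (d / r ^ d) * 0)) := tendsto_const_nhds.sub (h1.const_mul _)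
  rw [mul_zero, sub_zero] at h2
  refine tendsto_of_tendsto_of_tendsto_of_le_of_le' h2 tendsto_const_nhds ?_ ?_
  · filter_upwards [eventually_ge_atTop d] with m hm
    refine le_trans (le_of_eq ?_) (prob_ge hd hm).1
    have h3 : r ^ m = r ^ (m - d) * r ^ d := by
      rw [← pow_add, Nat.sub_add_cancel hm]
    rw [h3]
    field_simp
    rw [hr]
  · filter_upwards [eventually_ge_atTop d] with m hm
    exact (prob_ge hd hm).2

end Pool.Agent.X144.Shell
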