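import Mathlib

set_option autoImplicit false

namespace Pool.Agent.X144.Shell

open Finset

/-- `l` is a shelling (of facets of size `d`): for every `j ≥ 1` (0-based), all the maximal faces of
the intersection of the subcomplex generated by `l[j]` with the subcomplex generated by the earlier
facets have exactly `d - 1` elements. -/
def IsShelling {α : Type*} (d : ℕ) (l : List (Finset α)) : Prop :=
  ∀ (j : ℕ) (hj : j < l.length), 1 ≤ j → ∀ τ : Finset α,
    Maximal (fun τ => τ ⊆ l[j] ∧ ∃ (i : ℕ) (hi : i < j), τ ⊆ l[i]) τ → τ.card = d - 1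

/-- A family `𝓕` of `d`-sets is (the facet set of) a shellable complex. -/
def IsShellable {α : Type*} (d : ℕ) (𝓕 : Finset (Finset α)) : Prop :=
  ∃ l : List (Finset α), l.Nodup ∧ (∀ F, F ∈ l ↔ F ∈ 𝓕) ∧ IsShelling d l

variable {α : Type*} [DecidableEq α]

/-- inductive form of shellability -/
inductive Sh (d : ℕ) : Finset (Finset α) → Prop
  | nil : Sh d ∅
  | add (𝓖 : Finset (Finset α)) (F : Finset α) : Sh d 𝓖 → F ∉ 𝓖 →
      (∀ G ∈ 𝓖, ∃ K ∈ 𝓖, G ∩ F ⊆ K ∧ (K ∩ F).card = d - 1) → Sh d (insert F 𝓖)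

lemma Sh.isShellable {d : ℕ} {𝓕 : Finset (Finset α)} (h : Sh d 𝓕) : IsShellable d 𝓕 := by
  have key : ∃ l : List (Finset α), l.Nodup ∧ (∀ F, F ∈ l ↔ F ∈ 𝓕) ∧
      ∀ (j : ℕ) (hj : j < l.length) (i : ℕ) (hi : i < j), ∃ (k : ℕ) (hk : k < j),
        l[i] ∩ l[j] ⊆ l[k] ∧ (l[k] ∩ l[j]).card = d - 1 := by
    induction h with
    | nil => exact ⟨[], List.nodup_nil, by simp, by simp⟩
    | add 𝓖 F h1 h2 h3 ih =>
      obtain ⟨l, hl1, hl2, hl3⟩ := ih
      refine ⟨l ++ [F], ?_, ?_, ?_⟩
      · rw [List.nodup_append]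
        refine ⟨hl1, List.nodup_singleton _, ?_⟩
        intro a ha b hb
        rw [List.mem_singleton] at hb
        subst hb
        intro hab
        subst hab
        exact h2 ((hl2 _).1 ha)
      · intro G
        rw [List.mem_append, List.mem_singleton, hl2, Finset.mem_insert]
        tauto
      · intro j hj i hi
        rw [List.length_append, List.length_singleton] at hj
        rcases Nat.lt_or_ge j l.length with hjl | hjl
        · obtain ⟨k, hk, h4, h5⟩ := hl3 j hjl i hi
          refine ⟨k, hk, ?_, ?_⟩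
          · rw [List.getElem_append_left (by omega), List.getElem_append_left hjl,
              List.getElem_append_left (by omega)]
            exact h4
          · rw [List.getElem_append_left (by omega), List.getElem_append_left hjl]
            exact h5
        · have hjeq : j = l.length := by omega
          subst hjeq
          have hmem : l[i] ∈ 𝓖 := (hl2 _).1 (List.getElem_mem _)
          obtain ⟨K, hK, h4, h5⟩ := h3 _ hmem
          obtain ⟨k, hk, hkK⟩ := List.getElem_of_mem ((hl2 K).2 hK)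
          refine ⟨k, hk, ?_, ?_⟩
          · rw [List.getElem_append_left hi, List.getElem_append_right (le_refl _),
              List.getElem_append_left hk]
            simp only [Nat.sub_self, List.getElem_cons_zero]
            rw [hkK]
            exact h4
          · rw [List.getElem_append_right (le_refl _), List.getElem_append_left hk]
            simp only [Nat.sub_self, List.getElem_cons_zero]
            rw [hkK]
            exact h5
  obtain ⟨l, hl1, hl2, hl3⟩ := key
  refine ⟨l, hl1, hl2, ?_⟩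
  intro j hj h1 τ hτ
  obtain ⟨⟨hτ1, i, hi, hτ2⟩, hmax⟩ := hτ
  obtain ⟨k, hk, h4, h5⟩ := hl3 j hj i hi
  have h6 : τ ⊆ l[k] ∩ l[j] :=
    Finset.subset_inter ((Finset.subset_inter hτ2 hτ1).trans h4) hτ1
  have h7 := hmax (y := l[k] ∩ l[j]) ⟨Finset.inter_subset_right, k, hk, Finset.inter_subset_left⟩ h6
  have h8 : τ = l[k] ∩ l[j] := Finset.Subset.antisymm h6 h7
  rw [h8]
  exact h5

/-- adding facets attached to `𝓐` -/
lemma Sh.extend {d : ℕ} {𝓐 : Finset (Finset α)} (h : Sh d 𝓐) (𝓑 : Finset (Finset α))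
    (hB : ∀ F ∈ 𝓑, ∀ G ∈ 𝓐 ∪ 𝓑, G ≠ F → ∃ K ∈ 𝓐, G ∩ F ⊆ K ∧ (K ∩ F).card = d - 1) :
    Sh d (𝓐 ∪ 𝓑) := by
  induction 𝓑 using Finset.induction_on with
  | empty => simpa using h
  | insert F 𝓑 hF ih =>
    have ih' := ih (fun F' hF' G hG hne => hB F' (Finset.mem_insert_of_mem hF') G (by
      rw [Finset.mem_union] at hG ⊢
      exact hG.imp id Finset.mem_insert_of_mem) hne)
    rw [Finset.union_insert]
    by_cases hFA : F ∈ 𝓐 ∪ 𝓑
    · rw [Finset.insert_eq_of_mem hFA]
      exact ih'
    · refine Sh.add _ _ ih' hFA ?_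
      intro G hG
      have hne : G ≠ F := fun h' => hFA (h' ▸ hG)
      obtain ⟨K, hK, h1, h2⟩ := hB F (Finset.mem_insert_self _ _) G (by
        rw [Finset.mem_union] at hG ⊢
        exact hG.imp id Finset.mem_insert_of_mem) hne
      exact ⟨K, Finset.mem_union_left _ hK, h1, h2⟩

lemma Sh.one (𝓕 : Finset (Finset α)) (h : ∀ F ∈ 𝓕, F.card = 1) : Sh 1 𝓕 := by
  induction 𝓕 using Finset.induction_on with
  | empty => exact Sh.nil
  | insert F 𝓕 hF ih =>
    refine Sh.add _ _ (ih fun G hG => h G (Finset.mem_insert_of_mem hG)) hF ?_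
    intro G hG
    refine ⟨G, hG, Finset.inter_subset_left, ?_⟩
    obtain ⟨a, rfl⟩ := Finset.card_eq_one.1 (h F (Finset.mem_insert_self _ _))
    obtain ⟨b, rfl⟩ := Finset.card_eq_one.1 (h G (Finset.mem_insert_of_mem hG))
    have hab : b ≠ a := by
      rintro rfl
      exact hF hG
    rw [Finset.card_eq_zero]
    ext x
    simp only [Finset.mem_inter, Finset.mem_singleton, Finset.notMem_empty, iff_false, not_and]
    rintro rfl h'
    exact hab h'

/-- cones -/
lemma Sh.cone {d : ℕ} (hd : 1 ≤ d) {𝓛 : Finset (Finset α)} (h : Sh d 𝓛) (v : α)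
    (hv : ∀ τ ∈ 𝓛, v ∉ τ) : Sh (d + 1) (𝓛.image (insert v)) := by
  induction h with
  | nil => simpa using Sh.nil
  | add 𝓖 F h1 h2 h3 ih =>
    rw [Finset.image_insert]
    have hvF : v ∉ F := hv F (Finset.mem_insert_self _ _)
    have hvG : ∀ τ ∈ 𝓖, v ∉ τ := fun τ hτ => hv τ (Finset.mem_insert_of_mem hτ)
    refine Sh.add _ _ (ih hvG) ?_ ?_
    · intro hmem
      obtain ⟨τ, hτ, hτe⟩ := Finset.mem_image.1 hmem
      apply h2
      have : τ = F := by
        rw [← Finset.erase_insert (hvG τ hτ), hτe, Finset.erase_insert hvF]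
      rwa [← this]
    · intro G hG
      obtain ⟨τ, hτ, rfl⟩ := Finset.mem_image.1 hG
      obtain ⟨K, hK, h4, h5⟩ := h3 τ hτ
      refine ⟨insert v K, Finset.mem_image_of_mem _ hK, ?_, ?_⟩
      · rw [← Finset.insert_inter_distrib]
        exact Finset.insert_subset_insert _ h4
      · rw [← Finset.insert_inter_distrib, Finset.card_insert_of_notMem, h5]
        · omega
        · intro h'
          exact hvF (Finset.mem_inter.1 h').2

/-- the main step -/
lemma Sh.step {d : ℕ} (hd : 1 ≤ d) {V : Finset α} {v : α} (hv : v ∉ V)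
    {𝓕 𝓛 : Finset (Finset α)} (hF : ∀ F ∈ 𝓕, F ⊆ insert v V ∧ F.card = d + 1)
    (hL : ∀ τ ∈ 𝓛, τ ⊆ V ∧ τ.card = d)
    (hFL : ∀ τ ⊆ V, τ.card = d → (τ ∈ 𝓛 ↔ insert v τ ∈ 𝓕)) (hsh : Sh d 𝓛)
    (hC : ∀ σ ⊆ V, σ.card = d → σ ∉ 𝓛 → ∃ z ∈ V, z ∉ σ ∧ insert z σ ∈ 𝓕 ∧
      ∀ a ∈ σ, insert z (σ.erase a) ∈ 𝓛) : Sh (d + 1) 𝓕 := by
  classical
  have hstar := hsh.cone hd v (fun τ hτ h' => hv ((hL τ hτ).1 h'))
  set 𝓐 := 𝓛.image (insert v) with hA
  -- cover by the star
  have hcov : ∀ ρ ∈ 𝓛, ∃ K ∈ 𝓐, ρ ⊆ K ∧ v ∈ K :=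
    fun ρ hρ => ⟨insert v ρ, Finset.mem_image_of_mem _ hρ, Finset.subset_insert _ _,
      Finset.mem_insert_self _ _⟩
  -- missing sets
  set M := (V.powersetCard d).filter (fun σ => σ ∉ 𝓛) with hM
  have hMm : ∀ σ ∈ M, σ ⊆ V ∧ σ.card = d ∧ σ ∉ 𝓛 := by
    intro σ hσ
    rw [hM, Finset.mem_filter, Finset.mem_powersetCard] at hσ
    exact ⟨hσ.1.1, hσ.1.2, hσ.2⟩
  have : Nonempty α := ⟨v⟩
  choose! z hz1 hz2 hz3 hz4 using hC
  set 𝓑 := M.image (fun σ => insert (z σ) σ) with hB
  -- a codimension one intersection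
  have hcard : ∀ F K : Finset α, F.card = d + 1 → K.card = d + 1 → K ≠ F → ∀ a ∈ F,
      F.erase a ⊆ K → (K ∩ F).card = d + 1 - 1 := by
    intro F K hFc hKc hne a ha hsub
    have h1 : F.erase a ⊆ K ∩ F := Finset.subset_inter hsub (Finset.erase_subset _ _)
    have h2 := Finset.card_le_card h1
    rw [Finset.card_erase_of_mem ha, hFc] at h2
    have h3 : (K ∩ F).card ≠ d + 1 := by
      intro h3
      have h4 : K ∩ F = F := Finset.eq_of_subset_of_card_le Finset.inter_subset_right (by omega)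
      have h5 : K ∩ F = K := Finset.eq_of_subset_of_card_le Finset.inter_subset_left (by omega)
      exact hne (h5.symm.trans h4)
    have h6 := Finset.card_le_card (Finset.inter_subset_right (s₁ := K) (s₂ := F))
    omega
  have hinter : ∀ F G : Finset α, F.card = d + 1 → G.card = d + 1 → G ≠ F →
      ∃ a ∈ F, G ∩ F ⊆ F.erase a := by
    intro F G hFc hGc hne
    have : ¬ F ⊆ G := by
      intro h
      exact hne (Finset.eq_of_subset_of_card_le h (by omega)).symm
    obtain ⟨a, ha, haG⟩ := Finset.not_subset.1 this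
    refine ⟨a, ha, fun x hx => ?_⟩
    rw [Finset.mem_inter] at hx
    rw [Finset.mem_erase]
    refine ⟨?_, hx.2⟩
    rintro rfl
    exact haG hx.1
  have hAF : ∀ G ∈ 𝓐, G ∈ 𝓕 := by
    intro G hG
    obtain ⟨τ, hτ, rfl⟩ := Finset.mem_image.1 hG
    exact (hFL τ (hL τ hτ).1 (hL τ hτ).2).1 hτ
  have hBF : ∀ G ∈ 𝓑, G ∈ 𝓕 := by
    intro G hG
    obtain ⟨σ, hσ, rfl⟩ := Finset.mem_image.1 hG
    obtain ⟨h1, h2, h3⟩ := hMm σ hσ
    exact hz3 σ h1 h2 h3
  have hAB : Sh (d + 1) (𝓐 ∪ 𝓑) := by
    apply hstar.extend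
    intro F hFB G hG hne
    obtain ⟨σ, hσ, rfl⟩ := Finset.mem_image.1 hFB
    obtain ⟨h1, h2, h3⟩ := hMm σ hσ
    have hGF : G ∈ 𝓕 := by
      rcases Finset.mem_union.1 hG with h | h
      · exact hAF G h
      · exact hBF G h
    have hGc := (hF G hGF).2
    have hFc := (hF _ (hBF _ hFB)).2
    -- G ∩ F misses an element of σ
    have hex : ∃ a ∈ σ, a ∉ G := by
      by_contra hcon
      push Not at hcon
      have hσG : σ ⊆ G := hcon
      rcases Finset.mem_union.1 hG with h | h
      · obtain ⟨τ, hτ, rfl⟩ := Finset.mem_image.1 h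
        have : σ ⊆ τ := by
          intro x hx
          rcases Finset.mem_insert.1 (hσG hx) with h' | h'
          · exact absurd (h1 hx) (h' ▸ hv)
          · exact h'
        have h4 : σ = τ := Finset.eq_of_subset_of_card_le this (by rw [(hL τ hτ).2, h2])
        exact h3 (h4 ▸ hτ)
      · obtain ⟨σ', hσ', rfl⟩ := Finset.mem_image.1 h
        obtain ⟨h1', h2', h3'⟩ := hMm σ' hσ'
        have hne' : σ ≠ σ' := by
          rintro rfl
          exact hne rfl
        -- σ is a codim one face of insert (z σ') σ'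
        have hzσ : z σ' ∈ σ := by
          by_contra hh
          apply hne'
          refine Finset.eq_of_subset_of_card_le ?_ (by omega)
          intro x hx
          rcases Finset.mem_insert.1 (hσG hx) with h' | h'
          · exact absurd (h' ▸ hx) hh
          · exact h'
        have hnot : ¬ σ' ⊆ σ := by
          intro hh
          exact hne' (Finset.eq_of_subset_of_card_le hh (by omega)).symm
        obtain ⟨a, ha, haσ⟩ := Finset.not_subset.1 hnot
        have h5 : σ ⊆ insert (z σ') (σ'.erase a) := by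
          intro x hx
          rcases Finset.mem_insert.1 (hσG hx) with h' | h'
          · rw [h']; exact Finset.mem_insert_self _ _
          · refine Finset.mem_insert_of_mem (Finset.mem_erase.2 ⟨?_, h'⟩)
            rintro rfl
            exact haσ hx
        have h6 : (insert (z σ') (σ'.erase a)).card = d := by
          rw [Finset.card_insert_of_notMem, Finset.card_erase_of_mem ha]
          · have : 0 < σ'.card := Finset.card_pos.2 ⟨a, ha⟩
            omega
          · intro h'
            exact hz2 σ' h1' h2' h3' (Finset.mem_of_mem_erase h')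
        have h7 : σ = insert (z σ') (σ'.erase a) := Finset.eq_of_subset_of_card_le h5 (by omega)
        exact h3 (h7 ▸ hz4 σ' h1' h2' h3' a ha)
    obtain ⟨a, ha, haG⟩ := hex
    have h8 := hz4 σ h1 h2 h3 a ha
    obtain ⟨K, hK, hK1, hK2⟩ := hcov _ h8
    have haz : a ≠ z σ := by
      rintro rfl
      exact hz2 σ h1 h2 h3 ha
    have h9 : (insert (z σ) σ).erase a = insert (z σ) (σ.erase a) := by
      rw [Finset.erase_insert_of_ne haz.symm]
    refine ⟨K, hK, ?_, ?_⟩
    · refine Finset.Subset.trans ?_ hK1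
      rw [← h9]
      intro x hx
      rw [Finset.mem_inter] at hx
      refine Finset.mem_erase.2 ⟨?_, hx.2⟩
      rintro rfl
      exact haG hx.1
    · refine hcard _ K hFc (hF K (hAF K hK)).2 ?_ a (Finset.mem_insert_of_mem ha) (h9 ▸ hK1)
      rintro rfl
      rcases Finset.mem_insert.1 hK2 with h' | h'
      · exact hv (h' ▸ hz1 σ h1 h2 h3)
      · exact hv (h1 h')
  -- everything else
  have hrest : Sh (d + 1) ((𝓐 ∪ 𝓑) ∪ (𝓕 \ (𝓐 ∪ 𝓑))) := by
    apply hAB.extend
    intro F hFr G hG hne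
    rw [Finset.mem_sdiff] at hFr
    obtain ⟨hFF, hFn⟩ := hFr
    have hFc := (hF F hFF).2
    have hGF : G ∈ 𝓕 := by
      rcases Finset.mem_union.1 hG with h | h
      · rcases Finset.mem_union.1 h with h | h
        · exact hAF G h
        · exact hBF G h
      · exact (Finset.mem_sdiff.1 h).1
    have hvF : v ∉ F := by
      intro hvF
      apply hFn
      apply Finset.mem_union_left
      have h1 : F.erase v ⊆ V := by
        intro x hx
        rw [Finset.mem_erase] at hx
        rcases Finset.mem_insert.1 ((hF F hFF).1 hx.2) with h | h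
        · exact absurd h hx.1
        · exact h
      have h2 : (F.erase v).card = d := by
        rw [Finset.card_erase_of_mem hvF, hFc]; omega
      refine Finset.mem_image.2 ⟨F.erase v, ?_, Finset.insert_erase hvF⟩
      rw [hFL _ h1 h2, Finset.insert_erase hvF]
      exact hFF
    obtain ⟨a, ha, hGa⟩ := hinter F G hFc (hF G hGF).2 hne
    have h1 : F.erase a ⊆ V := by
      intro x hx
      have hx' := Finset.mem_of_mem_erase hx
      rcases Finset.mem_insert.1 ((hF F hFF).1 hx') with h | h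
      · exact absurd hx' (h ▸ hvF)
      · exact h
    have h2 : (F.erase a).card = d := by
      rw [Finset.card_erase_of_mem ha, hFc]; omega
    obtain ⟨K, hK, hK1⟩ : ∃ K ∈ 𝓐 ∪ 𝓑, F.erase a ⊆ K := by
      by_cases h3 : F.erase a ∈ 𝓛
      · obtain ⟨K, hK, hK1, -⟩ := hcov _ h3
        exact ⟨K, Finset.mem_union_left _ hK, hK1⟩
      · refine ⟨insert (z (F.erase a)) (F.erase a), Finset.mem_union_right _ ?_,
          Finset.subset_insert _ _⟩
        apply Finset.mem_image_of_mem (fun σ => insert (z σ) σ)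
        rw [hM, Finset.mem_filter, Finset.mem_powersetCard]
        exact ⟨⟨h1, h2⟩, h3⟩
    refine ⟨K, hK, hGa.trans hK1, ?_⟩
    have hKF : K ∈ 𝓕 := by
      rcases Finset.mem_union.1 hK with h | h
      · exact hAF K h
      · exact hBF K h
    refine hcard F K hFc (hF K hKF).2 ?_ a ha hK1
    rintro rfl
    exact hFn hK
  have hfin : (𝓐 ∪ 𝓑) ∪ (𝓕 \ (𝓐 ∪ 𝓑)) = 𝓕 := by
    apply Finset.union_sdiff_of_subset
    intro G hG
    rcases Finset.mem_union.1 hG with h | h
    · exact hAF G h
    · exact hBF G h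
  rwa [hfin] at hrest

end Pool.Agent.X144.Shell
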