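import Pool.Agent.X144.DepRG

set_option autoImplicit false

namespace Pool.Agent.X144.Thr

open MeasureTheory ProbabilityTheory Pool.Agent.X144.Bits Pool.Agent.X144.DepRG

section general
variable {Ω : Type} [MeasurableSpace Ω] {μ : Measure Ω} {n : ℕ} {G : Ω → SimpleGraph (Fin n)}
  {p : ℝ} {d : ℕ}

/-- the event that a pair is an edge -/
def EA (G : Ω → SimpleGraph (Fin n)) (e : Pair n) : Set Ω := {ω | e.1 ∈ (G ω).edgeSet}

lemma pair_card (n : ℕ) : Fintype.card (Pair n) = n.choose 2 := by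
  rw [Sym2.card_subtype_not_diag, Fintype.card_fin]

open Classical in
/-- number of edges -/
lemma ncard_eq (H : SimpleGraph (Fin n)) :
    H.edgeSet.ncard = (Finset.univ.filter fun e : Pair n => e.1 ∈ H.edgeSet).card := by
  have h1 : H.edgeSet = (((Finset.univ.filter fun e : Pair n => e.1 ∈ H.edgeSet).image
      Subtype.val : Finset (Sym2 (Fin n))) : Set (Sym2 (Fin n))) := by
    ext e
    simp only [Finset.coe_image, Set.mem_image, Finset.mem_coe, Finset.mem_filter,
      Finset.mem_univ, true_and]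
    constructor
    · intro he
      exact ⟨⟨e, SimpleGraph.not_isDiag_of_mem_edgeSet H he⟩, he, rfl⟩
    · rintro ⟨e', he', rfl⟩
      exact he'
  refine (congrArg Set.ncard h1).trans ?_
  rw [Set.ncard_coe_finset, Finset.card_image_of_injective _ Subtype.val_injective]

lemma indep_pair (h : IsDepRG μ G p d) :
    ∃ D : SimpleGraph (Pair n), (∀ e, (D.neighborSet e).ncard ≤ d) ∧
      ∀ e f, f ≠ e → ¬ D.Adj e f → μ.real (EA G e ∩ EA G f) = p ^ 2 := by
  obtain ⟨D, hD, hI⟩ := h.dep
  refine ⟨D, hD, fun e f hfe hnad => ?_⟩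
  have hmeas : Measurable (fun g : ({f : Pair n // f ≠ e ∧ ¬ D.Adj e f} → Prop) =>
      g ⟨f, hfe, hnad⟩) := measurable_pi_apply _
  have h1 := (hI e).comp (φ := id)
    (ψ := fun g : ({f : Pair n // f ≠ e ∧ ¬ D.Adj e f} → Prop) => g ⟨f, hfe, hnad⟩)
    measurable_id hmeas
  have h2 := h1.measure_inter_preimage_eq_mul {True} {True} (MeasurableSet.singleton _)
    (MeasurableSet.singleton _)
  have e1 : (id ∘ fun ω => (e.1 ∈ (G ω).edgeSet : Prop)) ⁻¹' {True} = EA G e := by
    ext ω; simp [EA]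
  have e2 : ((fun g : ({f : Pair n // f ≠ e ∧ ¬ D.Adj e f} → Prop) => g ⟨f, hfe, hnad⟩) ∘
      fun ω (f : {f : Pair n // f ≠ e ∧ ¬ D.Adj e f}) => (f.1.1 ∈ (G ω).edgeSet : Prop)) ⁻¹'
        {True} = EA G f := by
    ext ω; simp [EA]
  rw [e1, e2] at h2
  have h3 : μ.real (EA G e) = p := h.prob e
  have h4 : μ.real (EA G f) = p := h.prob f
  rw [Measure.real, h2, ENNReal.toReal_mul]
  rw [Measure.real] at h3 h4
  rw [h3, h4, sq]

lemma choose_le (n : ℕ) : (n.choose 2 : ℝ) ≤ (n : ℝ) ^ 2 := by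
  have : n.choose 2 ≤ n ^ 2 := Nat.choose_le_pow _ _
  exact_mod_cast this

/-- union bound for the presence of an edge -/
lemma any_edge (h : IsDepRG μ G p d) (hp : 0 ≤ p) :
    μ.real {ω | ∃ e : Pair n, e.1 ∈ (G ω).edgeSet} ≤ (n : ℝ) ^ 2 * p := by
  have h1 : {ω | ∃ e : Pair n, e.1 ∈ (G ω).edgeSet} = ⋃ e : Pair n, EA G e := by
    ext ω; simp [EA]
  rw [h1]
  refine (measureReal_iUnion_fintype_le _).trans ?_
  have h2 : ∀ e : Pair n, μ.real (EA G e) = p := h.prob
  simp only [h2]
  rw [Finset.sum_const, nsmul_eq_mul, Finset.card_univ, pair_card]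
  exact mul_le_mul_of_nonneg_right (choose_le n) hp

/-- number of edges as a real random variable -/
noncomputable def NE (G : Ω → SimpleGraph (Fin n)) (ω : Ω) : ℝ := ((G ω).edgeSet.ncard : ℝ)

omit [MeasurableSpace Ω] in
lemma NE_eq (ω : Ω) : NE G ω = ∑ e : Pair n, (EA G e).indicator (fun _ => (1 : ℝ)) ω := by
  classical
  unfold NE
  rw [ncard_eq, Finset.card_filter]
  push_cast
  apply Finset.sum_congr rfl
  intro e _
  by_cases h : e.1 ∈ (G ω).edgeSet
  · rw [if_pos h, Set.indicator_of_mem (show ω ∈ EA G e from h)]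
  · rw [if_neg h, Set.indicator_of_notMem (show ω ∉ EA G e from h)]

lemma NE_int [IsProbabilityMeasure μ] (h : IsDepRG μ G p d) :
    Integrable (NE G) μ ∧ ∫ ω, NE G ω ∂μ = (n.choose 2 : ℝ) * p := by
  have h1 : ∀ e : Pair n, Integrable ((EA G e).indicator (fun _ => (1 : ℝ))) μ := fun e =>
    (integrable_const _).indicator (h.meas e)
  have h2 : NE G = fun ω => ∑ e : Pair n, (EA G e).indicator (fun _ => (1 : ℝ)) ω :=
    funext NE_eq
  constructor
  · rw [h2]
    exact integrable_finsetSum _ fun e _ => h1 e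
  · rw [h2, integral_finsetSum _ fun e _ => h1 e]
    have h3 : ∀ e : Pair n, ∫ ω, (EA G e).indicator (fun _ => (1 : ℝ)) ω ∂μ = p := by
      intro e
      have hm : MeasurableSet (EA G e) := h.meas e
      rw [integral_indicator hm]
      simp only [integral_const, smul_eq_mul, mul_one, measureReal_restrict_apply_univ]
      exact h.prob e
    simp only [h3]
    rw [Finset.sum_const, nsmul_eq_mul, Finset.card_univ, pair_card]

/-- Markov's bound for the number of edges -/
lemma many_edges [IsProbabilityMeasure μ] (h : IsDepRG μ G p d) (hp : 0 ≤ p) {k : ℕ} (hk : 0 < k) :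
    μ.real {ω | k ≤ (G ω).edgeSet.ncard} ≤ (n : ℝ) ^ 2 * p / k := by
  have h1 := mul_meas_ge_le_integral_of_nonneg (μ := μ) (f := NE G)
    (Filter.Eventually.of_forall fun ω => by unfold NE; positivity) (NE_int h).1 (k : ℝ)
  have h2 : {x | (k : ℝ) ≤ NE G x} = {ω | k ≤ (G ω).edgeSet.ncard} := by
    ext ω; simp [NE]
  rw [h2, (NE_int h).2] at h1
  have hk0 : (0 : ℝ) < k := by exact_mod_cast hk
  rw [le_div_iff₀ hk0, mul_comm]
  exact h1.trans (mul_le_mul_of_nonneg_right (choose_le n) hp)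

lemma EA_int [IsFiniteMeasure μ] (A : Set Ω) (hA : MeasurableSet A) :
    Integrable (A.indicator (fun _ => (1 : ℝ))) μ ∧
      ∫ ω, A.indicator (fun _ => (1 : ℝ)) ω ∂μ = μ.real A := by
  refine ⟨(integrable_const _).indicator hA, ?_⟩
  rw [integral_indicator hA]
  simp only [integral_const, smul_eq_mul, mul_one, measureReal_restrict_apply_univ]

lemma NE_sq (ω : Ω) : NE G ω ^ 2 =
    ∑ e : Pair n, ∑ f : Pair n, (EA G e ∩ EA G f).indicator (fun _ => (1 : ℝ)) ω := by
  classical
  rw [NE_eq, sq, Finset.sum_mul_sum]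
  apply Finset.sum_congr rfl
  intro e _
  apply Finset.sum_congr rfl
  intro f _
  by_cases h1 : ω ∈ EA G e <;> by_cases h2 : ω ∈ EA G f <;> simp [h1, h2]

lemma NE_sq_int [IsProbabilityMeasure μ] (h : IsDepRG μ G p d) (hp : 0 ≤ p) :
    Integrable (fun ω => NE G ω ^ 2) μ ∧ ∫ ω, NE G ω ^ 2 ∂μ ≤
      ((n.choose 2 : ℝ) * p) ^ 2 + (n.choose 2 : ℝ) * ((d : ℝ) + 1) * p := by
  classical
  obtain ⟨D, hD, hI⟩ := indep_pair h
  have hm : ∀ e f, MeasurableSet (EA G e ∩ EA G f) := fun e f => (h.meas e).inter (h.meas f)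
  have h2 : (fun ω => NE G ω ^ 2) = fun ω =>
      ∑ e : Pair n, ∑ f : Pair n, (EA G e ∩ EA G f).indicator (fun _ => (1 : ℝ)) ω :=
    funext NE_sq
  have hi : ∀ e, Integrable (fun ω => ∑ f : Pair n,
      (EA G e ∩ EA G f).indicator (fun _ => (1 : ℝ)) ω) μ := fun e =>
    integrable_finsetSum _ fun f _ => (EA_int _ (hm e f)).1
  constructor
  · rw [h2]
    exact integrable_finsetSum _ fun e _ => hi e
  · rw [h2, integral_finsetSum _ fun e _ => hi e]
    have h3 : ∀ e : Pair n, ∫ ω, ∑ f : Pair n,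
        (EA G e ∩ EA G f).indicator (fun _ => (1 : ℝ)) ω ∂μ ≤
        (n.choose 2 : ℝ) * p ^ 2 + ((d : ℝ) + 1) * p := by
      intro e
      rw [integral_finsetSum _ fun f _ => (EA_int _ (hm e f)).1]
      have h4 : ∀ f : Pair n, ∫ ω, (EA G e ∩ EA G f).indicator (fun _ => (1 : ℝ)) ω ∂μ ≤
          p ^ 2 + (if f = e ∨ D.Adj e f then p else 0) := by
        intro f
        rw [(EA_int _ (hm e f)).2]
        by_cases hf : f = e ∨ D.Adj e f
        · rw [if_pos hf]
          have h5 : μ.real (EA G e ∩ EA G f) ≤ p := by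
            rw [← h.prob e]
            exact measureReal_mono Set.inter_subset_left (measure_ne_top _ _)
          have : 0 ≤ p ^ 2 := by positivity
          linarith
        · rw [if_neg hf, add_zero]
          push Not at hf
          exact (hI e f hf.1 hf.2).le
      refine (Finset.sum_le_sum fun f _ => h4 f).trans ?_
      rw [Finset.sum_add_distrib, Finset.sum_const, nsmul_eq_mul, Finset.card_univ, pair_card,
        ← Finset.sum_filter, Finset.sum_const, nsmul_eq_mul]
      have h6 : (Finset.univ.filter fun f : Pair n => f = e ∨ D.Adj e f).card ≤ d + 1 := by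
        have h7 : (Finset.univ.filter fun f : Pair n => f = e ∨ D.Adj e f) ⊆
            insert e (Finset.univ.filter fun f : Pair n => D.Adj e f) := by
          intro f hf
          rw [Finset.mem_filter] at hf
          rw [Finset.mem_insert, Finset.mem_filter]
          rcases hf.2 with hf | hf
          · exact Or.inl hf
          · exact Or.inr ⟨Finset.mem_univ _, hf⟩
        refine (Finset.card_le_card h7).trans ((Finset.card_insert_le _ _).trans ?_)
        have h8 := hD e
        rw [← Set.ncard_coe_finset] at *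
        have h9 : (((Finset.univ.filter fun f : Pair n => D.Adj e f) : Finset (Pair n)) :
            Set (Pair n)) = D.neighborSet e := by
          ext f; simp
        rw [h9]
        omega
      have h6' : (((Finset.univ.filter fun f : Pair n => f = e ∨ D.Adj e f).card : ℕ) : ℝ) ≤
          (d : ℝ) + 1 := by exact_mod_cast h6
      have := mul_le_mul_of_nonneg_right h6' hp
      linarith
    refine (Finset.sum_le_sum fun e _ => h3 e).trans ?_
    rw [Finset.sum_const, nsmul_eq_mul, Finset.card_univ, pair_card]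
    apply le_of_eq
    ring

/-- second moment -/
lemma few_edges [IsProbabilityMeasure μ] (h : IsDepRG μ G p d) (hp : 0 < p) (hn : 2 ≤ n) {k : ℕ}
    (hk : (k : ℝ) ≤ (n : ℝ) ^ 2 * p / 8) :
    μ.real {ω | (G ω).edgeSet.ncard < k} ≤ 16 * ((d : ℝ) + 1) / ((n : ℝ) ^ 2 * p) := by
  classical
  have hn2 : (2 : ℝ) ≤ n := by exact_mod_cast hn
  have hNval : (n.choose 2 : ℝ) = (n : ℝ) * (n - 1) / 2 := Nat.cast_choose_two _ _
  have hNge : (n : ℝ) ^ 2 / 4 ≤ (n.choose 2 : ℝ) := by rw [hNval]; nlinarith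
  set N : ℝ := (n.choose 2 : ℝ) with hN
  have hNpos : 0 < N := lt_of_lt_of_le (by positivity) hNge
  obtain ⟨h1, h2⟩ := NE_int h
  obtain ⟨h3, h4⟩ := NE_sq_int h hp.le
  set m : ℝ := N * p with hm
  have hmpos : 0 < m := by positivity
  have h5 : ∫ ω, (NE G ω - m) ^ 2 ∂μ ≤ N * ((d : ℝ) + 1) * p := by
    have e1 : (fun ω => (NE G ω - m) ^ 2) = fun ω => NE G ω ^ 2 - (2 * m) * NE G ω + m ^ 2 := by
      funext ω; ring
    have a1 : Integrable (fun ω => NE G ω ^ 2 - (2 * m) * NE G ω) μ := h3.sub (h1.const_mul _)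
    have a2 : Integrable (fun ω => (2 * m) * NE G ω) μ := h1.const_mul _
    rw [e1, integral_add a1 (integrable_const _), integral_sub h3 a2, integral_const_mul, h2]
    simp only [integral_const, smul_eq_mul, probReal_univ, one_mul]
    nlinarith
  have h6 : Integrable (fun ω => (NE G ω - m) ^ 2) μ := by
    have e1 : (fun ω => (NE G ω - m) ^ 2) = fun ω => NE G ω ^ 2 - (2 * m) * NE G ω + m ^ 2 := by
      funext ω; ring
    rw [e1]
    exact (h3.sub (h1.const_mul _)).add (integrable_const _)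
  have h7 := mul_meas_ge_le_integral_of_nonneg (μ := μ)
    (Filter.Eventually.of_forall fun ω => by positivity : 0 ≤ᵐ[μ] fun ω => (NE G ω - m) ^ 2)
    h6 ((m / 2) ^ 2)
  have h8 : {ω | (G ω).edgeSet.ncard < k} ⊆ {x | (m / 2) ^ 2 ≤ (NE G x - m) ^ 2} := by
    intro ω hω
    have h9 : NE G ω < k := by
      unfold NE
      exact_mod_cast hω
    have h10 : (n : ℝ) ^ 2 * p / 8 ≤ m / 2 := by
      rw [hm]
      nlinarith
    have h11 : NE G ω ≤ m / 2 := by linarith
    show (m / 2) ^ 2 ≤ (NE G ω - m) ^ 2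
    nlinarith
  have h12 : μ.real {ω | (G ω).edgeSet.ncard < k} ≤ μ.real {x | (m / 2) ^ 2 ≤ (NE G x - m) ^ 2} :=
    measureReal_mono h8 (measure_ne_top _ _)
  refine h12.trans ?_
  have h13 : μ.real {x | (m / 2) ^ 2 ≤ (NE G x - m) ^ 2} ≤
      (N * ((d : ℝ) + 1) * p) / (m / 2) ^ 2 := by
    rw [le_div_iff₀ (by positivity), mul_comm]
    exact h7.trans h5
  refine h13.trans ?_
  have h14 : (N * ((d : ℝ) + 1) * p) / (m / 2) ^ 2 = 4 * ((d : ℝ) + 1) / (N * p) := by
    rw [hm]; field_simp; norm_num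
  rw [h14, div_le_div_iff₀ (by positivity) (by positivity)]
  have h15 : (n : ℝ) ^ 2 * p ≤ 4 * (N * p) := by nlinarith
  have h16 : (0 : ℝ) ≤ (d : ℝ) + 1 := by positivity
  nlinarith

/-- cherries in the independent case -/
lemma cherry_zero (h : IsDepRG μ G p 0) :
    μ.real {ω | ∃ x y z : Fin n, y ≠ z ∧ (G ω).Adj x y ∧ (G ω).Adj x z} ≤ (n : ℝ) ^ 3 * p ^ 2 := by
  classical
  obtain ⟨D, hD, hI⟩ := indep_pair h
  have hD0 : ∀ e f, ¬ D.Adj e f := by
    intro e f hef
    have h1 := hD e
    rw [Nat.le_zero, Set.ncard_eq_zero (Set.toFinite _)] at h1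
    have : f ∈ D.neighborSet e := hef
    rw [h1] at this
    exact this
  let F : Fin n × Fin n × Fin n → Set Ω := fun t =>
    {ω | t.2.1 ≠ t.2.2 ∧ (G ω).Adj t.1 t.2.1 ∧ (G ω).Adj t.1 t.2.2}
  have h1 : {ω | ∃ x y z : Fin n, y ≠ z ∧ (G ω).Adj x y ∧ (G ω).Adj x z} = ⋃ t, F t := by
    ext ω
    simp only [F, Set.mem_ofPred_eq, Set.mem_iUnion, Prod.exists]
  rw [h1]
  refine (measureReal_iUnion_fintype_le _).trans ?_
  have h2 : ∀ t, μ.real (F t) ≤ p ^ 2 := by
    rintro ⟨x, y, z⟩
    by_cases hyz : y = z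
    · have : F (x, y, z) = ∅ := by
        ext ω; simp [F, hyz]
      rw [this]
      simp only [measureReal_empty]
      positivity
    · by_cases hxy : x = y
      · have : F (x, y, z) = ∅ := by
          ext ω; simp [F, hxy]
        rw [this]
        simp only [measureReal_empty]
        positivity
      · by_cases hxz : x = z
        · have : F (x, y, z) = ∅ := by
            ext ω; simp [F, hxz]
          rw [this]
          simp only [measureReal_empty]
          positivity
        · let e : Pair n := ⟨s(x, y), by simpa using hxy⟩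
          let f : Pair n := ⟨s(x, z), by simpa using hxz⟩
          have hfe : f ≠ e := by
            intro hh
            have h3 : s(x, z) = s(x, y) := congrArg Subtype.val hh
            rw [Sym2.eq_iff] at h3
            rcases h3 with h3 | h3
            · exact hyz h3.2.symm
            · exact hxy h3.1
          have h4 := hI e f hfe (hD0 e f)
          have h5 : F (x, y, z) = EA G e ∩ EA G f := by
            ext ω
            simp only [F, EA, e, f, Set.mem_ofPred_eq, Set.mem_inter_iff,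
              SimpleGraph.mem_edgeSet]
            exact ⟨fun h => ⟨h.2.1, h.2.2⟩, fun h => ⟨hyz, h.1, h.2⟩⟩
          rw [h5, h4]
  refine (Finset.sum_le_sum fun t _ => h2 t).trans ?_
  rw [Finset.sum_const, nsmul_eq_mul, Finset.card_univ]
  simp only [Fintype.card_prod, Fintype.card_fin]
  push_cast
  apply le_of_eq
  ring

end general

end Pool.Agent.X144.Thr
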