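import Pool.Agent.X144.Thr

set_option autoImplicit false

namespace Pool.Agent.X144.Thr

open MeasureTheory ProbabilityTheory Pool.Agent.X144.Bits Pool.Agent.X144.DepRG

variable {n : ℕ}

/-- the bit of a pair: the smaller end, and the block of the larger end -/
def bw (w : ℕ) (x y : Fin n) : Fin n × Fin n :=
  (min x y, ⟨(max x y).val / w, lt_of_le_of_lt (Nat.div_le_self _ _) (max x y).isLt⟩)

lemma bw_symm (w : ℕ) (x y : Fin n) : bw w x y = bw w y x := by
  unfold bw
  simp only [min_comm x y, max_comm x y]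

lemma blk_card (w : ℕ) (hw : 0 < w) (j : ℕ) :
    (Finset.univ.filter fun c : Fin n => c.val / w = j).card ≤ w := by
  have h1 : (Finset.univ.filter fun c : Fin n => c.val / w = j).card ≤ (Finset.range w).card := by
    apply Finset.card_le_card_of_injOn (fun c => c.val % w)
    · intro c _
      rw [Finset.mem_coe, Finset.mem_range]
      exact Nat.mod_lt _ hw
    · intro c hc c' hc' h
      rw [Finset.mem_coe, Finset.mem_filter] at hc hc'
      have h' : c.val % w = c'.val % w := h
      apply Fin.ext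
      rw [← Nat.div_add_mod c.val w, ← Nat.div_add_mod c'.val w, h', hc.2, hc'.2]
  rwa [Finset.card_range] at h1

lemma bw_deg (w : ℕ) (hw : 0 < w) (e : Pair n) :
    {f : Pair n | f ≠ e ∧ bitOf (bw w) (bw_symm w) f.1 = bitOf (bw w) (bw_symm w) e.1}.ncard ≤
      w - 1 := by
  classical
  set B := {f : Pair n | bitOf (bw w) (bw_symm w) f.1 = bitOf (bw w) (bw_symm w) e.1} with hB
  have h1 : {f : Pair n | f ≠ e ∧ bitOf (bw w) (bw_symm w) f.1 = bitOf (bw w) (bw_symm w) e.1} =
      B \ {e} := by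
    ext f
    simp only [hB, Set.mem_ofPred_eq, Set.mem_sdiff, Set.mem_singleton_iff]
    tauto
  have heB : e ∈ B := rfl
  rw [h1, Set.ncard_sdiff_singleton_of_mem heB]
  apply Nat.sub_le_sub_right
  obtain ⟨x, j, hxj⟩ : ∃ x j, bitOf (bw w) (bw_symm w) e.1 = (x, j) := ⟨_, _, rfl⟩
  have h2 : B ⊆ {f : Pair n | ∃ c : Fin n, c.val / w = j.val ∧ f.1 = s(x, c)} := by
    rintro ⟨f, hf⟩ h
    have h' : bitOf (bw w) (bw_symm w) f = (x, j) := h.trans hxj
    induction f using Sym2.inductionOn with
    | _ a b =>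
      simp only [bitOf, Sym2.lift_mk, bw, Prod.mk.injEq, Fin.ext_iff] at h'
      refine ⟨max a b, h'.2, ?_⟩
      show s(a, b) = s(x, max a b)
      have h3 : min a b = x := Fin.ext h'.1
      rw [← h3]
      rcases le_total a b with h4 | h4
      · rw [min_eq_left h4, max_eq_right h4]
      · rw [min_eq_right h4, max_eq_left h4]
        exact Sym2.eq_swap
  refine (Set.ncard_le_ncard h2 (Set.toFinite _)).trans ?_
  have h3 : {f : Pair n | ∃ c : Fin n, c.val / w = j.val ∧ f.1 = s(x, c)}.ncard ≤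
      ((Finset.univ.filter fun c : Fin n => c.val / w = j.val).image fun c => s(x, c)).card := by
    rw [← Set.ncard_coe_finset]
    apply Set.ncard_le_ncard_of_injOn (fun f : Pair n => f.1)
    · rintro f ⟨y, hy1, hy2⟩
      rw [Finset.mem_coe, Finset.mem_image]
      exact ⟨y, by simpa using hy1, hy2.symm⟩
    · intro f _ g _ h
      exact Subtype.ext h
  exact h3.trans (Finset.card_image_le.trans (blk_card w hw _))

/-- the block graph -/
lemma bw_isDep (w : ℕ) (hw : 0 < w) (p : unitInterval) :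
    IsDepRG (BM (Fin n × Fin n) p) (bitGraph (bw w) (bw_symm w)) p (w - 1) :=
  bitGraph_isDep _ _ _ _ (fun e => bw_deg w hw e)

/-- the block graph is empty -/
lemma bw_empty (w : ℕ) (p : unitInterval) :
    (BM (Fin n × Fin n) p).real
      {ω | ∃ e : Pair n, e.1 ∈ (bitGraph (bw w) (bw_symm w) ω).edgeSet} ≤
      (n : ℝ) * ((n : ℝ) / w + 1) * p := by
  classical
  let S : Finset (Fin n × Fin n) := Finset.univ.filter fun q => q.2.val < n / w + 1
  have h1 : {ω | ∃ e : Pair n, e.1 ∈ (bitGraph (bw w) (bw_symm w) ω).edgeSet} ⊆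
      ⋃ q ∈ S, {ω | ω q = true} := by
    rintro ω ⟨⟨e, he⟩, h⟩
    rw [mem_edgeSet] at h
    rw [Set.mem_iUnion₂]
    refine ⟨bitOf (bw w) (bw_symm w) e, ?_, h⟩
    simp only [S, Finset.mem_filter, Finset.mem_univ, true_and]
    induction e using Sym2.inductionOn with
    | _ a b =>
      simp only [bitOf, Sym2.lift_mk, bw]
      exact Nat.lt_succ_of_le (Nat.div_le_div_right (max a b).isLt.le)
  refine (measureReal_mono h1 (measure_ne_top _ _)).trans ?_
  refine (measureReal_biUnion_finset_le _ _).trans ?_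
  simp only [BM_coord]
  rw [Finset.sum_const, nsmul_eq_mul]
  apply mul_le_mul_of_nonneg_right _ p.2.1
  have h2 : S.card ≤ n * (n / w + 1) := by
    have h3 : S.card ≤ ((Finset.univ : Finset (Fin n)) ×ˢ (Finset.range (n / w + 1))).card := by
      apply Finset.card_le_card_of_injOn (fun q => (q.1, q.2.val))
      · intro q hq
        simp only [S, Finset.coe_filter, Finset.mem_univ, true_and, Set.mem_ofPred_eq] at hq
        rw [Finset.mem_coe, Finset.mem_product, Finset.mem_range]
        exact ⟨Finset.mem_univ _, hq⟩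
      · intro q _ q' _ h
        have h4 := Prod.ext_iff.1 h
        exact Prod.ext h4.1 (Fin.ext h4.2)
    rwa [Finset.card_product, Finset.card_univ, Fintype.card_fin, Finset.card_range] at h3
  have h5 : ((n / w : ℕ) : ℝ) ≤ (n : ℝ) / w := Nat.cast_div_le
  calc (S.card : ℝ) ≤ ((n * (n / w + 1) : ℕ) : ℝ) := by exact_mod_cast h2
    _ = (n : ℝ) * (((n / w : ℕ) : ℝ) + 1) := by push_cast; ring
    _ ≤ (n : ℝ) * ((n : ℝ) / w + 1) := by gcongr

/-- cherries in the two-block graph -/
lemma bw_cherry (p : unitInterval) :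
    1 - (1 - (p : ℝ)) ^ ((n / 4) ^ 2) ≤ (BM (Fin n × Fin n) p).real
      {ω | ∃ x y z : Fin n, y ≠ z ∧ (bitGraph (bw 2) (bw_symm 2) ω).Adj x y ∧
        (bitGraph (bw 2) (bw_symm 2) ω).Adj x z} := by
  classical
  let S : Finset (Fin n × Fin n) := Finset.univ.filter fun q =>
    q.1.val < n / 4 ∧ n / 4 ≤ q.2.val ∧ q.2.val < n / 4 + n / 4
  have hS : (n / 4) ^ 2 ≤ S.card := by
    have h3 : (Finset.univ : Finset (Fin (n / 4) × Fin (n / 4))).card ≤ S.card := by
      apply Finset.card_le_card_of_injOn (fun q : Fin (n / 4) × Fin (n / 4) =>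
        ((⟨q.1.val, by have := q.1.isLt; omega⟩, ⟨n / 4 + q.2.val, by
          have := q.2.isLt; omega⟩) : Fin n × Fin n))
      · intro q _
        simp only [S, Finset.coe_filter, Finset.mem_univ, true_and, Set.mem_ofPred_eq]
        have h1 := q.1.isLt
        have h2 := q.2.isLt
        refine ⟨h1, ?_, ?_⟩ <;> omega
      · intro q _ q' _ h
        have h4 := Prod.ext_iff.1 h
        have h5 := Fin.ext_iff.1 h4.1
        have h6 := Fin.ext_iff.1 h4.2
        simp only at h5 h6
        exact Prod.ext (Fin.ext h5) (Fin.ext (by omega))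
    rwa [Finset.card_univ, Fintype.card_prod, Fintype.card_fin, ← sq] at h3
  have h1 : {ω : Fin n × Fin n → Bool | ∀ i ∈ S, ω i = false}ᶜ ⊆
      {ω | ∃ x y z : Fin n, y ≠ z ∧ (bitGraph (bw 2) (bw_symm 2) ω).Adj x y ∧
        (bitGraph (bw 2) (bw_symm 2) ω).Adj x z} := by
    intro ω hω
    simp only [Set.mem_compl_iff, Set.mem_ofPred_eq, not_forall, Bool.not_eq_false] at hω
    obtain ⟨⟨x, j⟩, hq, hω⟩ := hω
    simp only [S, Finset.mem_filter, Finset.mem_univ, true_and] at hq
    obtain ⟨hx, hj1, hj2⟩ := hq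
    let y : Fin n := ⟨2 * j.val, by omega⟩
    let z : Fin n := ⟨2 * j.val + 1, by omega⟩
    have hxy : x < y := by
      show x.val < 2 * j.val
      omega
    have hxz : x < z := by
      show x.val < 2 * j.val + 1
      omega
    have e1 : bw 2 x y = (x, j) := by
      refine Prod.ext (min_eq_left hxy.le) (Fin.ext ?_)
      show (max x y).val / 2 = j.val
      rw [max_eq_right hxy.le]
      show 2 * j.val / 2 = j.val
      omega
    have e2 : bw 2 x z = (x, j) := by
      refine Prod.ext (min_eq_left hxz.le) (Fin.ext ?_)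
      show (max x z).val / 2 = j.val
      rw [max_eq_right hxz.le]
      show (2 * j.val + 1) / 2 = j.val
      omega
    refine ⟨x, y, z, ?_, ⟨hxy.ne, ?_⟩, ⟨hxz.ne, ?_⟩⟩
    · intro h
      have := congrArg Fin.val h
      simp [y, z] at this
    · rw [e1]; exact hω
    · rw [e2]; exact hω
  have h2 := measureReal_mono (μ := BM (Fin n × Fin n) p) h1 (measure_ne_top _ _)
  rw [probReal_compl_eq_one_sub (Set.toFinite _).measurableSet, BM_all_false] at h2
  have h3 : (1 - (p : ℝ)) ^ S.card ≤ (1 - (p : ℝ)) ^ ((n / 4) ^ 2) :=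
    pow_le_pow_of_le_one (sub_nonneg.2 p.2.2) (by linarith [p.2.1]) hS
  linarith

end Pool.Agent.X144.Thr
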