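import Pool.Agent.X144.DepRG

set_option autoImplicit false

namespace Pool.Agent.X144.Thr

open MeasureTheory Filter Topology Pool.Agent.X144.DepRG

/-- A random graph on the vertex set `Fin n`. -/
structure RandomGraph (n : ℕ) where
  /-- the probability space -/
  Ω : Type
  /-- its sigma-algebra -/
  mΩ : MeasurableSpace Ω
  /-- the probability measure -/
  μ : Measure Ω
  isProb : IsProbabilityMeasure μ
  /-- the random graph -/
  G : Ω → SimpleGraph (Fin n)

/-- Probability that a random graph has a property. -/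
noncomputable def RandomGraph.Pr {n : ℕ} (R : RandomGraph n) (A : SimpleGraph (Fin n) → Prop) : ℝ :=
  (@Measure.real R.Ω R.mΩ R.μ {ω | A (R.G ω)})

/-- `R ~ G_{n,p,d}`: `R` is a `d`-dependent random graph with edge probability `p`. -/
def RandomGraph.IsDep {n : ℕ} (R : RandomGraph n) (p : ℝ) (d : ℕ) : Prop :=
  @IsDepRG R.Ω R.mΩ R.μ n R.G p d

/-- Monotone (increasing) graph properties. -/
structure IsMonotoneProperty (P : ∀ n, SimpleGraph (Fin n) → Prop) : Prop where
  iso : ∀ (n : ℕ) (G H : SimpleGraph (Fin n)), Nonempty (G ≃g H) → P n G → P n H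
  mono : ∀ (n : ℕ) (G H : SimpleGraph (Fin n)), G ≤ H → P n G → P n H

/-- `(L, U)` is a threshold pair for `P`: for all `d(n) = O(n / ln n)` and all `p(n) ∈ [0,1]`,
(i) if `p ≪ L`, every `d`-dependent random graph almost surely lacks `P`;
(ii) if `p ≫ U`, every `d`-dependent random graph almost surely has `P`;
(iii) if `L ≪ p ≪ U`, some `d`-dependent random graph almost surely has `P` and some other almost
surely lacks it. -/
def IsThresholdPair (P : ∀ n, SimpleGraph (Fin n) → Prop) (L U : ℕ → ℕ → ℝ) : Prop :=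
  (∀ n d, 0 < n → 0 < L n d ∧ L n d ≤ U n d) ∧
  ∀ (d : ℕ → ℕ) (p : ℕ → ℝ), (∀ n, 0 ≤ p n ∧ p n ≤ 1) →
    (fun n : ℕ => (d n : ℝ)) =O[atTop] (fun n : ℕ => (n : ℝ) / Real.log n) →
    (Tendsto (fun n => p n / L n (d n)) atTop (𝓝 0) →
      ∀ R : ∀ n, RandomGraph n, (∀ n, (R n).IsDep (p n) (d n)) →
        Tendsto (fun n => (R n).Pr (P n)) atTop (𝓝 0)) ∧
    (Tendsto (fun n => p n / U n (d n)) atTop atTop →
      ∀ R : ∀ n, RandomGraph n, (∀ n, (R n).IsDep (p n) (d n)) →
        Tendsto (fun n => (R n).Pr (P n)) atTop (𝓝 1)) ∧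
    (Tendsto (fun n => p n / L n (d n)) atTop atTop →
      Tendsto (fun n => p n / U n (d n)) atTop (𝓝 0) →
      (∃ R : ∀ n, RandomGraph n, (∀ n, (R n).IsDep (p n) (d n)) ∧
        Tendsto (fun n => (R n).Pr (P n)) atTop (𝓝 1)) ∧
      (∃ R : ∀ n, RandomGraph n, (∀ n, (R n).IsDep (p n) (d n)) ∧
        Tendsto (fun n => (R n).Pr (P n)) atTop (𝓝 0)))

end Pool.Agent.X144.Thr
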