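import Pool.Agent.X144.ThrDefs
import Pool.Agent.X144.ThrBlk

set_option autoImplicit false

namespace Pool.Agent.X144.Thr

open MeasureTheory Filter Topology Pool.Agent.X144.DepRG Pool.Agent.X144.Bits

lemma _root_.Pool.Agent.X144.DepRG.IsDepRG.mono {Ω : Type} [MeasurableSpace Ω] {μ : Measure Ω}
    {n : ℕ} {G : Ω → SimpleGraph (Fin n)} {p : ℝ} {d d' : ℕ} (h : IsDepRG μ G p d) (hd : d ≤ d') :
    IsDepRG μ G p d' :=
  ⟨h.meas, h.prob, let ⟨D, h1, h2⟩ := h.dep; ⟨D, fun e => (h1 e).trans hd, h2⟩⟩

/-- number of edges required -/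
noncomputable def kk (n : ℕ) : ℕ := ⌈(n : ℝ) ^ (1 / 4 : ℝ)⌉₊ + 1

lemma kk_pos (n : ℕ) : 0 < kk n := Nat.succ_pos _

lemma kk_tendsto : Tendsto kk atTop atTop := by
  have h1 : Tendsto (fun n : ℕ => (n : ℝ) ^ (1 / 4 : ℝ)) atTop atTop :=
    (tendsto_rpow_atTop (by norm_num : (0 : ℝ) < 1 / 4)).comp tendsto_natCast_atTop_atTop
  exact tendsto_atTop_mono (fun n => Nat.le_add_right _ _) ((tendsto_nat_ceil_atTop).comp h1)

lemma kk_sq : ∀ n : ℕ, 0 < n → (kk n : ℝ) ^ 2 / n ≤ 9 := by
  intro n hn
  have hn0 : (0 : ℝ) < n := by exact_mod_cast hn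
  have hn1 : (1 : ℝ) ≤ n := by exact_mod_cast hn
  set x : ℝ := (n : ℝ) ^ (1 / 4 : ℝ) with hx
  have hx1 : 1 ≤ x := Real.one_le_rpow hn1 (by norm_num)
  have h1 : (kk n : ℝ) ≤ 3 * x := by
    unfold kk
    have := Nat.ceil_lt_add_one (show 0 ≤ x by linarith)
    push_cast
    linarith
  have h2 : x ^ 4 = n := by
    rw [hx, ← Real.rpow_natCast, ← Real.rpow_mul hn0.le]
    norm_num
  rw [div_le_iff₀ hn0]
  have h3 : x ^ 2 ≤ n := by
    rw [← h2]
    nlinarith [sq_nonneg (x ^ 2 - 1), sq_nonneg x]
  calc (kk n : ℝ) ^ 2 ≤ (3 * x) ^ 2 := pow_le_pow_left₀ (by positivity) h1 _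
    _ = 9 * x ^ 2 := by ring
    _ ≤ 9 * n := by linarith

/-- the property: a vertex of degree at least two, or at least `kk n` edges -/
def PP (n : ℕ) (G : SimpleGraph (Fin n)) : Prop :=
  (∃ x y z : Fin n, y ≠ z ∧ G.Adj x y ∧ G.Adj x z) ∨ kk n ≤ G.edgeSet.ncard

/-- lower threshold -/
noncomputable def LL (n d : ℕ) : ℝ := if d = 0 then (kk n : ℝ) / (n : ℝ) ^ 2 else 1 / (n : ℝ) ^ 2

/-- upper threshold -/
noncomputable def UU (n d : ℕ) : ℝ := (max (kk n) (d + 1) : ℕ) / (n : ℝ) ^ 2

lemma PP_mono : IsMonotoneProperty PP where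
  iso n G H := by
    rintro ⟨φ⟩ h
    rcases h with ⟨x, y, z, h1, h2, h3⟩ | h
    · exact Or.inl ⟨φ x, φ y, φ z, fun h => h1 (φ.injective h), φ.map_adj_iff.2 h2,
        φ.map_adj_iff.2 h3⟩
    · right
      refine h.trans (le_of_eq ?_)
      exact Nat.card_congr φ.mapEdgeSet
  mono n G H hGH h := by
    rcases h with ⟨x, y, z, h1, h2, h3⟩ | h
    · exact Or.inl ⟨x, y, z, h1, hGH h2, hGH h3⟩
    · right
      exact h.trans (Set.ncard_le_ncard (SimpleGraph.edgeSet_mono hGH) (Set.toFinite _))

section bounds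
variable {Ω : Type} [MeasurableSpace Ω] {μ : Measure Ω} [IsProbabilityMeasure μ] {n : ℕ}
  {G : Ω → SimpleGraph (Fin n)} {p : ℝ} {d : ℕ}

lemma PP_sub : {ω | PP n (G ω)} ⊆ {ω | ∃ e : Pair n, e.1 ∈ (G ω).edgeSet} := by
  intro ω h
  rcases h with ⟨x, y, z, h1, h2, h3⟩ | h
  · exact ⟨⟨s(x, y), by simpa using h2.ne⟩, h2⟩
  · have h4 : (G ω).edgeSet.ncard ≠ 0 := by
      have := kk_pos n
      omega
    obtain ⟨e, he⟩ := Set.nonempty_of_ncard_ne_zero h4
    exact ⟨⟨e, SimpleGraph.not_isDiag_of_mem_edgeSet _ he⟩, he⟩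

lemma PP_le_any (h : IsDepRG μ G p d) (hp : 0 ≤ p) :
    μ.real {ω | PP n (G ω)} ≤ (n : ℝ) ^ 2 * p :=
  (measureReal_mono PP_sub (measure_ne_top _ _)).trans (any_edge h hp)

lemma PP_le_zero (h : IsDepRG μ G p 0) (hp : 0 ≤ p) :
    μ.real {ω | PP n (G ω)} ≤ (n : ℝ) ^ 3 * p ^ 2 + (n : ℝ) ^ 2 * p / kk n := by
  have h1 : {ω | PP n (G ω)} = {ω | ∃ x y z : Fin n, y ≠ z ∧ (G ω).Adj x y ∧ (G ω).Adj x z} ∪
      {ω | kk n ≤ (G ω).edgeSet.ncard} := rfl
  rw [h1]
  exact (measureReal_union_le _ _).trans
    (add_le_add (cherry_zero h) (many_edges h hp (kk_pos n)))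

/-- independent case in terms of the ratio -/
lemma PP_le_zero' (h : IsDepRG μ G p 0) (hp : 0 ≤ p) (hn : 0 < n) :
    μ.real {ω | PP n (G ω)} ≤ 9 * (p / ((kk n : ℝ) / (n : ℝ) ^ 2)) ^ 2 +
      p / ((kk n : ℝ) / (n : ℝ) ^ 2) := by
  refine (PP_le_zero h hp).trans ?_
  have hn0 : (0 : ℝ) < n := by exact_mod_cast hn
  have hk0 : (0 : ℝ) < kk n := by exact_mod_cast kk_pos n
  have h1 : p / ((kk n : ℝ) / (n : ℝ) ^ 2) = (n : ℝ) ^ 2 * p / kk n := by field_simp
  rw [h1]
  have h2 : (n : ℝ) ^ 3 * p ^ 2 = ((kk n : ℝ) ^ 2 / n) * ((n : ℝ) ^ 2 * p / kk n) ^ 2 := by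
    field_simp
  rw [h2]
  have := mul_le_mul_of_nonneg_right (kk_sq n hn) (sq_nonneg ((n : ℝ) ^ 2 * p / kk n))
  linarith

lemma PP_ge (h : IsDepRG μ G p d) (hp : 0 < p) (hn : 2 ≤ n)
    (hk : (kk n : ℝ) ≤ (n : ℝ) ^ 2 * p / 8) :
    1 - 16 * ((d : ℝ) + 1) / ((n : ℝ) ^ 2 * p) ≤ μ.real {ω | PP n (G ω)} := by
  have h1 := few_edges h hp hn hk
  have hm : MeasurableSet {ω | (G ω).edgeSet.ncard < kk n} := by
    have h2 : Measurable (NE G) := by
      have : NE G = fun ω => ∑ e : Pair n, (EA G e).indicator (fun _ => (1 : ℝ)) ω :=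
        funext NE_eq
      rw [this]
      exact Finset.measurable_fun_sum _ fun e _ => measurable_const.indicator (h.meas e)
    have h3 : {ω | (G ω).edgeSet.ncard < kk n} = {ω | NE G ω < kk n} := by
      ext ω; simp [NE]
    rw [h3]
    exact measurableSet_lt h2 measurable_const
  have h4 : {ω | (G ω).edgeSet.ncard < kk n}ᶜ ⊆ {ω | PP n (G ω)} := by
    intro ω hω
    simp only [Set.mem_compl_iff, Set.mem_ofPred_eq, not_lt] at hω
    exact Or.inr hω
  have h5 := measureReal_mono (μ := μ) h4 (measure_ne_top _ _)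
  rw [probReal_compl_eq_one_sub hm] at h5
  linarith

end bounds

/-- the random graph given by bits -/
noncomputable def RB (n w : ℕ) (p : unitInterval) : RandomGraph n where
  Ω := Fin n × Fin n → Bool
  mΩ := inferInstance
  μ := BM (Fin n × Fin n) p
  isProb := inferInstance
  G := bitGraph (bw w) (bw_symm w)

lemma RB_isDep {n w d : ℕ} (hw : 0 < w) (hd : w - 1 ≤ d) (p : unitInterval) :
    (RB n w p).IsDep p d := (bw_isDep w hw p).mono hd

theorem threshold : IsThresholdPair PP LL UU := by
  classical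
  constructor
  · intro n d hn
    have hn0 : (0 : ℝ) < n := by exact_mod_cast hn
    have hk0 : (0 : ℝ) < kk n := by exact_mod_cast kk_pos n
    have hk1 : (1 : ℝ) ≤ kk n := by exact_mod_cast kk_pos n
    have h1 : (kk n : ℝ) ≤ ((max (kk n) (d + 1) : ℕ) : ℝ) := by exact_mod_cast le_max_left _ _
    unfold LL UU
    split_ifs
    · exact ⟨by positivity, by gcongr⟩
    · refine ⟨by positivity, ?_⟩
      gcongr
      linarith
  intro d p hp hd
  refine ⟨?_, ?_, ?_⟩
  · -- (i)
    intro hlim R hR
    have hlim2 : Tendsto (fun n => 9 * (p n / LL n (d n)) ^ 2 + p n / LL n (d n)) atTop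
        (𝓝 0) := by
      have := ((hlim.pow 2).const_mul 9).add hlim
      simpa using this
    refine squeeze_zero' ?_ ?_ hlim2
    · exact Eventually.of_forall fun n => measureReal_nonneg
    · filter_upwards [eventually_gt_atTop 0] with n hn
      have hn0 : (0 : ℝ) < n := by exact_mod_cast hn
      let _ := (R n).mΩ
      have := (R n).isProb
      have hRn : IsDepRG (R n).μ (R n).G (p n) (d n) := hR n
      show (R n).μ.real {ω | PP n ((R n).G ω)} ≤ _
      by_cases h0 : d n = 0
      · rw [h0] at hRn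
        have h1 := PP_le_zero' hRn (hp n).1 hn
        have h2 : LL n (d n) = (kk n : ℝ) / (n : ℝ) ^ 2 := by rw [LL, if_pos h0]
        rw [h2]
        exact h1
      · have h1 := PP_le_any hRn (hp n).1
        have h2 : LL n (d n) = 1 / (n : ℝ) ^ 2 := by rw [LL, if_neg h0]
        rw [h2]
        have h3 : p n / (1 / (n : ℝ) ^ 2) = (n : ℝ) ^ 2 * p n := by field_simp
        rw [h3]
        have : 0 ≤ 9 * ((n : ℝ) ^ 2 * p n) ^ 2 := by positivity
        linarith
  · -- (ii)
    intro hlim R hR
    have hlim2 : Tendsto (fun n => 1 - 16 * (p n / UU n (d n))⁻¹) atTop (𝓝 (1 - 16 * 0)) :=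
      tendsto_const_nhds.sub (hlim.inv_tendsto_atTop.const_mul 16)
    rw [mul_zero, sub_zero] at hlim2
    refine tendsto_of_tendsto_of_tendsto_of_le_of_le' hlim2 tendsto_const_nhds ?_ ?_
    · filter_upwards [eventually_ge_atTop 2, hlim.eventually_ge_atTop 8] with n hn h8
      have hn0 : (0 : ℝ) < n := by exact_mod_cast (by omega : 0 < n)
      let _ := (R n).mΩ
      have := (R n).isProb
      have hRn : IsDepRG (R n).μ (R n).G (p n) (d n) := hR n
      set m : ℝ := ((max (kk n) (d n + 1) : ℕ) : ℝ) with hm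
      have hm1 : (kk n : ℝ) ≤ m := by rw [hm]; exact_mod_cast le_max_left _ _
      have hm2 : (d n : ℝ) + 1 ≤ m := by rw [hm]; exact_mod_cast le_max_right _ _
      have hk0 : (0 : ℝ) < kk n := by exact_mod_cast kk_pos n
      have hm0 : 0 < m := by linarith
      have h1 : p n / UU n (d n) = (n : ℝ) ^ 2 * p n / m := by
        unfold UU
        rw [← hm]
        field_simp
      rw [h1] at h8 ⊢
      have h9 : 8 * m ≤ (n : ℝ) ^ 2 * p n := by rwa [le_div_iff₀ hm0] at h8
      have hpos : 0 < p n := by
        by_contra hcon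
        push Not at hcon
        have : p n = 0 := le_antisymm hcon (hp n).1
        rw [this] at h9
        linarith
      have h2 := PP_ge hRn hpos hn (by linarith)
      refine le_trans ?_ h2
      rw [inv_div]
      have h3 : 16 * ((d n : ℝ) + 1) / ((n : ℝ) ^ 2 * p n) ≤ 16 * (m / ((n : ℝ) ^ 2 * p n)) := by
        rw [mul_div_assoc]
        gcongr
      linarith
    · refine Eventually.of_forall fun n => ?_
      let _ := (R n).mΩ
      have := (R n).isProb
      show (R n).μ.real {ω | PP n ((R n).G ω)} ≤ 1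
      exact measureReal_le_one
  · -- (iii)
    intro hL hU
    let P : ℕ → unitInterval := fun n => ⟨p n, hp n⟩
    have hd1 : ∀ᶠ n in atTop, 1 ≤ d n := by
      filter_upwards [hL.eventually_gt_atTop 1, hU.eventually_lt_const one_pos] with n h1 h2
      by_contra hcon
      have h0 : d n = 0 := by omega
      have h3 : LL n (d n) = UU n (d n) := by
        rw [h0]
        unfold LL UU
        rw [if_pos rfl, max_eq_left]
        have := kk_pos n
        omega
      rw [h3] at h1
      linarith
    constructor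
    · -- has the property
      refine ⟨fun n => RB n (if d n = 0 then 1 else 2) (P n), fun n => ?_, ?_⟩
      · show (RB n (if d n = 0 then 1 else 2) (P n)).IsDep (p n) (d n)
        by_cases h0 : d n = 0
        · rw [if_pos h0]
          exact RB_isDep (by norm_num) (by omega) (P n)
        · rw [if_neg h0]
          exact RB_isDep (by norm_num) (by omega) (P n)
      · have hlow : Tendsto (fun n => 1 - Real.exp (-(p n / LL n (d n) / 64))) atTop
            (𝓝 (1 - 0)) := by
          refine tendsto_const_nhds.sub ?_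
          exact Real.tendsto_exp_neg_atTop_nhds_zero.comp (hL.atTop_div_const (by norm_num))
        rw [sub_zero] at hlow
        refine tendsto_of_tendsto_of_tendsto_of_le_of_le' hlow tendsto_const_nhds ?_ ?_
        · filter_upwards [eventually_ge_atTop 4, hd1] with n hn h1
          have h0 : d n ≠ 0 := by omega
          rw [if_neg h0]
          have hn0 : (0 : ℝ) < n := by exact_mod_cast (by omega : 0 < n)
          have h2 := bw_cherry (n := n) (P n)
          have h3 : (BM (Fin n × Fin n) (P n)).real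
              {ω | ∃ x y z : Fin n, y ≠ z ∧ (bitGraph (bw 2) (bw_symm 2) ω).Adj x y ∧
                (bitGraph (bw 2) (bw_symm 2) ω).Adj x z} ≤
              (BM (Fin n × Fin n) (P n)).real {ω | PP n (bitGraph (bw 2) (bw_symm 2) ω)} :=
            measureReal_mono (fun ω h => Or.inl h) (measure_ne_top _ _)
          show _ ≤ (BM (Fin n × Fin n) (P n)).real {ω | PP n (bitGraph (bw 2) (bw_symm 2) ω)}
          refine le_trans ?_ (h2.trans h3)
          apply sub_le_sub_left
          have h4 : LL n (d n) = 1 / (n : ℝ) ^ 2 := by rw [LL, if_neg h0]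
          rw [h4]
          have h5 : p n / (1 / (n : ℝ) ^ 2) / 64 = (n : ℝ) ^ 2 / 64 * p n := by field_simp
          rw [h5]
          have h6 : (n : ℝ) / 8 ≤ ((n / 4 : ℕ) : ℝ) := by
            have h7 : n ≤ 8 * (n / 4) := by omega
            have h8 : (n : ℝ) ≤ 8 * ((n / 4 : ℕ) : ℝ) := by exact_mod_cast h7
            linarith
          have h9 : (n : ℝ) ^ 2 / 64 ≤ (((n / 4) ^ 2 : ℕ) : ℝ) := by
            push_cast
            have := pow_le_pow_left₀ (by positivity) h6 2
            calc (n : ℝ) ^ 2 / 64 = ((n : ℝ) / 8) ^ 2 := by ring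
              _ ≤ _ := this
          have h10 : (1 - (p n)) ≤ Real.exp (-(p n)) := by
            have := Real.add_one_le_exp (-(p n))
            linarith
          calc (1 - ((P n : unitInterval) : ℝ)) ^ ((n / 4) ^ 2)
              = (1 - p n) ^ ((n / 4) ^ 2) := rfl
            _ ≤ (Real.exp (-(p n))) ^ ((n / 4) ^ 2) :=
                pow_le_pow_left₀ (sub_nonneg.2 (hp n).2) h10 _
            _ = Real.exp (-((((n / 4) ^ 2 : ℕ) : ℝ) * p n)) := by
                rw [← Real.exp_nat_mul]
                ring_nf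
            _ ≤ _ := by
                apply Real.exp_le_exp.2
                apply neg_le_neg
                exact mul_le_mul_of_nonneg_right h9 (hp n).1
        · refine Eventually.of_forall fun n => ?_
          show (BM (Fin n × Fin n) (P n)).real _ ≤ 1
          exact measureReal_le_one
    · -- lacks the property
      refine ⟨fun n => RB n (if kk n < d n + 1 then d n + 1 else 1) (P n), fun n => ?_, ?_⟩
      · show (RB n (if kk n < d n + 1 then d n + 1 else 1) (P n)).IsDep (p n) (d n)
        by_cases h0 : kk n < d n + 1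
        · rw [if_pos h0]
          exact RB_isDep (by omega) (by omega) (P n)
        · rw [if_neg h0]
          exact RB_isDep (by norm_num) (by omega) (P n)
      · obtain ⟨C, hC⟩ := hd.bound
        have hlim2 : Tendsto (fun n => (9 * (p n / UU n (d n)) ^ 2 + p n / UU n (d n)) +
            (|C| + 2) * (p n / UU n (d n))) atTop (𝓝 0) := by
          have := (((hU.pow 2).const_mul 9).add hU).add (hU.const_mul (|C| + 2))
          simpa using this
        refine squeeze_zero' ?_ ?_ hlim2
        · refine Eventually.of_forall fun n => ?_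
          show 0 ≤ (BM (Fin n × Fin n) (P n)).real _
          exact measureReal_nonneg
        · filter_upwards [eventually_ge_atTop 3, hC] with n hn hCn
          have hn3 : (3 : ℝ) ≤ n := by exact_mod_cast hn
          have hn0 : (0 : ℝ) < n := by linarith
          have hl1 : 1 ≤ Real.log n := by
            rw [Real.le_log_iff_exp_le hn0]
            have := Real.exp_one_lt_d9
            linarith
          have hk0 : (0 : ℝ) < kk n := by exact_mod_cast kk_pos n
          have hdn : (d n : ℝ) ≤ |C| * n := by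
            rw [Real.norm_of_nonneg (by positivity), Real.norm_of_nonneg (by positivity)] at hCn
            calc (d n : ℝ) ≤ C * ((n : ℝ) / Real.log n) := hCn
              _ ≤ |C| * ((n : ℝ) / Real.log n) := by
                  gcongr
                  exact le_abs_self C
              _ ≤ |C| * n := by
                  gcongr
                  exact div_le_self hn0.le hl1
          have hUpos : 0 < UU n (d n) := by
            unfold UU
            have : (0 : ℝ) < ((max (kk n) (d n + 1) : ℕ) : ℝ) := by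
              have : (kk n : ℝ) ≤ ((max (kk n) (d n + 1) : ℕ) : ℝ) := by
                exact_mod_cast le_max_left _ _
              linarith
            positivity
          have hr0 : 0 ≤ p n / UU n (d n) := div_nonneg (hp n).1 hUpos.le
          by_cases h0 : kk n < d n + 1
          · rw [if_pos h0]
            have h1 := bw_empty (n := n) (d n + 1) (P n)
            have h2 : (BM (Fin n × Fin n) (P n)).real
                {ω | PP n (bitGraph (bw (d n + 1)) (bw_symm (d n + 1)) ω)} ≤
                (BM (Fin n × Fin n) (P n)).real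
                {ω | ∃ e : Pair n, e.1 ∈ (bitGraph (bw (d n + 1)) (bw_symm (d n + 1)) ω).edgeSet} :=
              measureReal_mono PP_sub (measure_ne_top _ _)
            show (BM (Fin n × Fin n) (P n)).real
                {ω | PP n (bitGraph (bw (d n + 1)) (bw_symm (d n + 1)) ω)} ≤ _
            refine (h2.trans h1).trans ?_
            have h3 : UU n (d n) = ((d n : ℝ) + 1) / (n : ℝ) ^ 2 := by
              unfold UU
              rw [max_eq_right h0.le]
              push_cast
              ring
            have h4 : (n : ℝ) * ((n : ℝ) / ((d n + 1 : ℕ) : ℝ) + 1) * (P n : ℝ) =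
                (1 + ((d n : ℝ) + 1) / n) * (p n / UU n (d n)) := by
              rw [h3]
              push_cast
              show (n : ℝ) * ((n : ℝ) / ((d n : ℝ) + 1) + 1) * p n = _
              have : (d n : ℝ) + 1 ≠ 0 := by positivity
              field_simp
            rw [h4]
            have h5 : 1 + ((d n : ℝ) + 1) / n ≤ |C| + 2 := by
              have h6 : ((d n : ℝ) + 1) / n ≤ |C| + 1 := by
                rw [div_le_iff₀ hn0]
                nlinarith [abs_nonneg C]
              linarith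
            have h7 := mul_le_mul_of_nonneg_right h5 hr0
            have h8 : 0 ≤ 9 * (p n / UU n (d n)) ^ 2 := by positivity
            linarith
          · rw [if_neg h0]
            have h1 : IsDepRG (BM (Fin n × Fin n) (P n)) (bitGraph (bw 1) (bw_symm 1))
              (P n : ℝ) 0 := bw_isDep 1 one_pos (P n)
            have h2 := PP_le_zero' h1 (P n).2.1 (by omega)
            have h3 : UU n (d n) = (kk n : ℝ) / (n : ℝ) ^ 2 := by
              unfold UU
              rw [max_eq_left (not_lt.1 h0)]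
            rw [← h3] at h2
            show (BM (Fin n × Fin n) (P n)).real {ω | PP n (bitGraph (bw 1) (bw_symm 1) ω)} ≤ _
            have h4 : 0 ≤ (|C| + 2) * (p n / UU n (d n)) := by positivity
            have h5 : ((P n : unitInterval) : ℝ) = p n := rfl
            rw [h5] at h2
            linarith

theorem ratio : Tendsto (fun n => UU n 1 / LL n 1) atTop atTop := by
  have h1 : Tendsto (fun n : ℕ => (kk n : ℝ)) atTop atTop :=
    tendsto_natCast_atTop_atTop.comp kk_tendsto
  refine tendsto_atTop_mono' _ ?_ h1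
  filter_upwards [eventually_gt_atTop 0] with n hn
  have hn0 : (0 : ℝ) < n := by exact_mod_cast hn
  unfold UU LL
  rw [if_neg one_ne_zero]
  have h2 : (((max (kk n) (1 + 1) : ℕ) : ℝ) / (n : ℝ) ^ 2) / (1 / (n : ℝ) ^ 2) =
      ((max (kk n) (1 + 1) : ℕ) : ℝ) := by field_simp
  rw [h2]
  exact_mod_cast le_max_left _ _

end Pool.Agent.X144.Thr
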